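import Pool.Agent.LibOS45.Three

/-!
# Near criticality an optimal order parameter has no atom at zero
-/

open MeasureTheory ProbabilityTheory

namespace Pool.Agent.LibOS45

noncomputable section

/-- fine partitions through prescribed points -/
lemma partition (m : ℕ) (s : ℕ → ℝ) (hs : ∀ i < m, s i < s (i + 1)) {μ : ℝ} (hμ : 0 < μ) :
    ∃ N : ℕ, 0 < N ∧ ∃ t : ℕ → ℝ, (∀ i ≤ m, t (i * N) = s i) ∧
      ∀ j < m * N, t j < t (j + 1) ∧ t (j + 1) - t j < μ := by
  obtain ⟨B, hB⟩ : ∃ B : ℝ, ∀ i < m, s (i + 1) - s i ≤ B := by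
    refine ⟨∑ i ∈ Finset.range m, |s (i + 1) - s i|, fun i hi => ?_⟩
    refine (le_abs_self _).trans ?_
    exact Finset.single_le_sum (f := fun i => |s (i + 1) - s i|) (fun i _ => abs_nonneg _)
      (Finset.mem_range.2 hi)
  obtain ⟨N, hN⟩ := exists_nat_gt (|B| / μ)
  have hN0 : 0 < N := by
    by_contra hcon
    have : N = 0 := by omega
    subst this
    have : 0 ≤ |B| / μ := by positivity
    simp at hN
    linarith
  have hNR : (0 : ℝ) < N := by exact_mod_cast hN0
  refine ⟨N, hN0, fun j => s (j / N) + ((j % N : ℕ) : ℝ) / N * (s (j / N + 1) - s (j / N)),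
    fun i hi => ?_, fun j hj => ?_⟩
  · simp [hN0]
  · have hq : j / N < m := (Nat.div_lt_iff_lt_mul hN0).2 hj
    have key : s ((j + 1) / N) + (((j + 1) % N : ℕ) : ℝ) / N
          * (s ((j + 1) / N + 1) - s ((j + 1) / N))
        - (s (j / N) + ((j % N : ℕ) : ℝ) / N * (s (j / N + 1) - s (j / N)))
        = (s (j / N + 1) - s (j / N)) / N := by
      have hdm := Nat.div_add_mod j N
      have hlt := Nat.mod_lt j hN0
      by_cases hcase : j % N + 1 < N
      · have h1 : (j + 1) / N = j / N := by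
          rw [Nat.div_eq_of_lt_le]
          · calc j / N * N = N * (j / N) := mul_comm _ _
              _ ≤ j := Nat.mul_div_le j N
              _ ≤ j + 1 := Nat.le_succ j
          · calc j + 1 = N * (j / N) + (j % N + 1) := by omega
              _ < N * (j / N) + N := by omega
              _ = (j / N + 1) * N := by ring
        have h2 : (j + 1) % N = j % N + 1 := by
          have := Nat.div_add_mod (j + 1) N
          rw [h1] at this
          omega
        rw [h1, h2]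
        push_cast
        field_simp
        ring
      · have h0 : j % N + 1 = N := by omega
        have h1 : (j + 1) / N = j / N + 1 := by
          rw [Nat.div_eq_of_lt_le]
          · calc (j / N + 1) * N = N * (j / N) + N := by ring
              _ ≤ j + 1 := by omega
          · calc j + 1 = N * (j / N) + N := by omega
              _ < N * (j / N) + N + N := by omega
              _ = (j / N + 1 + 1) * N := by ring
        have h2 : (j + 1) % N = 0 := by
          have := Nat.div_add_mod (j + 1) N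
          rw [h1] at this
          have e : N * (j / N + 1) = N * (j / N) + N := by ring
          omega
        have h3 : ((j % N : ℕ) : ℝ) = N - 1 := by
          have : ((j % N + 1 : ℕ) : ℝ) = N := by exact_mod_cast h0
          push_cast at this; linarith
        rw [h1, h2, h3]
        push_cast
        field_simp
        ring
    have hpos := hs _ hq
    have hBq := hB _ hq
    constructor
    · have : 0 < (s (j / N + 1) - s (j / N)) / N := div_pos (by linarith) hNR
      linarith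
    · rw [key, div_lt_iff₀ hNR]
      have h1 : |B| < N * μ := by rwa [div_lt_iff₀ hμ] at hN
      have := le_abs_self B
      linarith

/-- all the hypotheses -/
structure HY (T : ℝ) (Q : ℝ → ℝ) (th q1 : ℝ) (z : Measure ℝ) (F : ℝ) : Prop where
  hT : 0 < T
  hT1 : 24 * KK * T ≤ 1
  hT2 : C2 * T ≤ 1 / 2
  hT3 : C1 * T ≤ 1 / 2
  hth0 : 0 ≤ th
  hth1 : th ≤ 1
  hq0 : 0 ≤ q1
  hq1 : q1 ≤ 1
  hQ : ∀ s t, 0 ≤ s → s ≤ t → t ≤ T → |Q t - Q s - q1 / 2 * (t ^ 2 - s ^ 2)| ≤ th * t ^ 3 * (t - s)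
  hz0 : z {0} ≠ 0
  hz1 : z {0} ≠ 1
  hzs : z (Set.Icc 0 (T / 2))ᶜ = 0
  hU : ∀ L : List (ℝ × ℝ), (∀ p ∈ L, 0 < p.1 ∧ p.1 ≤ 1 ∧ 0 < p.2) →
      L.Pairwise (fun p r => p.1 ≤ r.1) → (L.map Prod.snd).sum = T → F ≤ PfQ Q L
  hL : ∀ ε > 0, ∃ d > 0, ∀ (k : ℕ) (t : ℕ → ℝ), t 0 = 0 → t k = T →
      (∀ j < k, t j < t (j + 1) ∧ t (j + 1) - t j < d) →
      PfQ Q ((List.range k).map fun j => (z.real (Set.Ico 0 (t (j + 1))), t (j + 1) - t j))
        ≤ F + ε

lemma tt_of (t : ℕ → ℝ) (h0 : t 0 = 0) (j : ℕ) : tt (fun i => t (i + 1) - t i) j = t j := by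
  unfold tt
  rw [Finset.sum_range_sub, h0, sub_zero]

theorem config : ∃ C, 0 ≤ C ∧ ∀ {T : ℝ} {Q : ℝ → ℝ} {th q1 : ℝ} {z : Measure ℝ}
    [IsProbabilityMeasure z] {F : ℝ}, HY T Q th q1 z F → ∀ {p : ℝ}, 0 < p → p ≤ T / 2 →
    (∀ del > 0, z (Set.Ioo (p - del) (p + del)) ≠ 0) → ∀ {δ : ℝ}, 0 < δ →
    ∃ (n : ℕ) (c x : ℕ → ℝ) (ν : ℝ) (I : ℕ), NO T Q th q1 F ν n c x ∧ ν ≤ δ ∧ I ≤ n ∧
      p / 2 ≤ tt c I ∧ tt c I ≤ p ∧ (∀ i < n, z.real {0} ≤ x i) ∧
      aa x c n 1 0 ^ 2 - q1 ≤ δ ∧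
      1 / 2 * q1 * tt c I ^ 2 - th * tt c I ^ 4 - C * tt c I ^ 5 - δ ≤ Hq c x (aa x c n) I ∧
      (z (Set.Ioo 0 p) = 0 → (∀ i < I, x i = z.real {0}) ∧
        Gq c x (aa x c n) I ≤ q1 * tt c I + 27 * th * tt c I ^ 3 + C * tt c I ^ 4 + δ) := by
  obtain ⟨P1, hP1, h1⟩ := pert1
  obtain ⟨P2, hP2, h2⟩ := pert2
  obtain ⟨P3, hP3, h3⟩ := pert3
  refine ⟨243 * P2 + 81 * P3, by positivity, fun {T Q th q1 z} _ {F} h {p} hp0 hp hsupp {δ} hδ => ?_⟩
  set y := z.real {0} with hy
  have hy0 : 0 < y := by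
    rw [hy, Measure.real, ENNReal.toReal_pos_iff]
    exact ⟨pos_iff_ne_zero.2 h.hz0, measure_lt_top _ _⟩
  have hT := h.hT
  -- small parameters
  set δ1 := min 1 (δ / (4 * (1 + P1 + P2 + P3))) with hδ1
  have hδ1p : 0 < δ1 := lt_min one_pos (by positivity)
  have hδ11 : δ1 ≤ 1 := min_le_left _ _
  have hδ12 : 4 * (1 + P1 + P2 + P3) * δ1 ≤ δ := by
    have := min_le_right 1 (δ / (4 * (1 + P1 + P2 + P3)))
    rw [← hδ1, le_div_iff₀ (by positivity)] at this
    linarith
  set del := min (δ1 / 2) (p / 2) with hdel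
  have hdelp : 0 < del := lt_min (by positivity) (by positivity)
  have hdel1 : del ≤ δ1 / 2 := min_le_left _ _
  have hdel2 : del ≤ p / 2 := min_le_right _ _
  set η := min δ1 (p / 4) with hη
  have hηp : 0 < η := lt_min hδ1p (by positivity)
  have hη1 : η ≤ δ1 := min_le_left _ _
  have hη2 : η ≤ p / 4 := min_le_right _ _
  set w := z.real (Set.Ico (p - del) (p + del)) with hw
  have hwp : 0 < w := by
    rw [hw, Measure.real, ENNReal.toReal_pos_iff]
    refine ⟨pos_iff_ne_zero.2 fun hcon => hsupp del hdelp ?_, measure_lt_top _ _⟩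
    exact measure_mono_null Set.Ioo_subset_Ico_self hcon
  set e := min δ1 (min (y / 2) w) with he
  have hep : 0 < e := lt_min hδ1p (lt_min (by positivity) hwp)
  have he1 : e ≤ δ1 := min_le_left _ _
  have he2 : e ≤ y / 2 := (min_le_right _ _).trans (min_le_left _ _)
  have he3 : e ≤ w := (min_le_right _ _).trans (min_le_right _ _)
  set v := z.real (Set.Ico 0 (p + del / 2)) - y with hv
  have hsplit : ∀ t : ℝ, 0 < t → z.real (Set.Ico 0 t) = y + z.real (Set.Ioo 0 t) := by
    intro t ht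
    rw [hy, ← measureReal_union (by simp) measurableSet_Ioo]
    congr 1
    ext u
    simp only [Set.mem_Ico, Set.mem_union, Set.mem_singleton_iff, Set.mem_Ioo]
    constructor
    · rintro ⟨h1, h2⟩
      rcases h1.eq_or_lt with h3 | h3
      · left; exact h3.symm
      · right; exact ⟨h3, h2⟩
    · rintro (h1 | ⟨h1, h2⟩)
      · rw [h1]; exact ⟨le_rfl, ht⟩
      · exact ⟨h1.le, h2⟩
  have hvp : 0 < v := by
    rw [hv, hsplit _ (by positivity), add_sub_cancel_left, Measure.real, ENNReal.toReal_pos_iff]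
    refine ⟨pos_iff_ne_zero.2 fun hcon => hsupp (del / 2) (by positivity) ?_, measure_lt_top _ _⟩
    refine measure_mono_null ?_ hcon
    exact Set.Ioo_subset_Ioo (by linarith) le_rfl
  set d := del / 2 * v with hd
  have hdp : 0 < d := by positivity
  have hv1 : v ≤ 1 := by
    have := measureReal_le_one (μ := z) (s := Set.Ico 0 (p + del / 2))
    linarith
  have hd1 : d ≤ 1 := by
    have : del / 2 ≤ 1 := by linarith
    have h0 : 0 ≤ del / 2 := by positivity
    exact mul_le_one₀ this hvp.le hv1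
  have hη11 : η ≤ 1 := hη1.trans hδ11
  have he11 : e ≤ 1 := he1.trans hδ11
  have hηsq : η ^ 2 ≤ 1 := pow_le_one₀ hηp.le hη11
  set ν := δ1 * e * η ^ 2 * d with hν
  have hνp : 0 < ν := by positivity
  have hνe : ν / e ≤ δ1 := by
    rw [div_le_iff₀ hep, hν]
    have : η ^ 2 * d ≤ 1 := by exact mul_le_one₀ hηsq hdp.le hd1
    have h0 : 0 ≤ δ1 * e := by positivity
    have := mul_le_mul_of_nonneg_left this h0; linarith only [this]
  have hνeη : ν / e ≤ δ1 * η ^ 2 := by
    rw [div_le_iff₀ hep, hν]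
    have h0 : 0 ≤ δ1 * η ^ 2 * e := by positivity
    have := mul_le_mul_of_nonneg_left hd1 h0; linarith only [this]
  have hνd : ν / d ≤ δ1 := by
    rw [div_le_iff₀ hdp, hν]
    have : e * η ^ 2 ≤ 1 := by exact mul_le_one₀ he11 (sq_nonneg η) hηsq
    have h0 : 0 ≤ δ1 * d := by positivity
    have := mul_le_mul_of_nonneg_left this h0; linarith only [this]
  have hν1 : ν ≤ δ1 := by
    have : ν ≤ ν / e := by rw [le_div_iff₀ hep]; have := mul_le_mul_of_nonneg_left he11 hνp.le; linarith only [this]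
    linarith
  clear_value ν d v e w η del δ1 y
  -- the partition
  obtain ⟨d0, hd0, hLd⟩ := h.hL ν hνp
  set sq : ℕ → ℝ := fun i => match i with
    | 0 => 0
    | 1 => η
    | 2 => p - del
    | 3 => p + del / 2
    | 4 => p + del
    | _ => T with hsq
  have hsm : ∀ i < 5, sq i < sq (i + 1) := by
    intro i hi
    interval_cases i <;> simp only [hsq] <;>
      linarith only [hηp, hη2, hdelp, hdel2, hp0, hp, hT]
  obtain ⟨N, hN, t, htp, htm⟩ := partition 5 sq hsm (lt_min hd0 (by positivity : 0 < ν ^ 2))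
  have t0 : t 0 = 0 := by have := htp 0 (by norm_num); simpa [hsq] using this
  have tN : t N = η := by have := htp 1 (by norm_num); simpa [hsq] using this
  have t2N : t (2 * N) = p - del := htp 2 (by norm_num)
  have t3N : t (3 * N) = p + del / 2 := htp 3 (by norm_num)
  have t4N : t (4 * N) = p + del := htp 4 (by norm_num)
  have t5N : t (5 * N) = T := htp 5 (by norm_num)
  have tmono : ∀ i j, i ≤ j → j ≤ 5 * N → t i ≤ t j := by
    intro i j hij
    induction j, hij using Nat.le_induction with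
    | base => intro _; exact le_rfl
    | succ j hij ih => intro hj; exact (ih (by omega)).trans (htm j (by omega)).1.le
  have tpos : ∀ i < 5 * N, 0 < t (i + 1) := fun i hi => by
    have h1 := tmono 0 i (by omega) hi.le
    have h2 := (htm i hi).1
    linarith only [h1, h2, t0]
  set c : ℕ → ℝ := fun i => t (i + 1) - t i with hc
  set x : ℕ → ℝ := fun i => z.real (Set.Ico 0 (t (i + 1))) with hx
  have htt : ∀ j, tt c j = t j := tt_of t t0
  have hxy : ∀ i < 5 * N, y ≤ x i := fun i hi => by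
    have := hsplit _ (tpos i hi)
    simp only [hx]; rw [this]
    have : 0 ≤ z.real (Set.Ioo 0 (t (i + 1))) := measureReal_nonneg
    linarith
  have hxX : ∀ a b : ℝ, a ≤ b → z.real (Set.Ico 0 a) ≤ z.real (Set.Ico 0 b) := fun a b hab =>
    measureReal_mono (Set.Ico_subset_Ico le_rfl hab)
  have hno : NO T Q th q1 F ν (5 * N) c x := by
    refine ⟨hT.le, h.hT1, h.hT2, h.hT3, h.hth0, h.hth1, h.hq0, h.hq1, h.hQ, hνp.le,
      hν1.trans hδ11, fun i hi => ?_, fun i hi => ?_, ?_, fun i hi => ?_, fun i hi => ?_,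
      fun i j hij hj => ?_, h.hU, ?_⟩
    · simp only [hc]; linarith [(htm i hi).1]
    · have h1 := (htm i hi).2.trans_le (min_le_right _ _)
      rw [Real.sqrt_le_left hνp.le]
      exact h1.le
    · rw [htt, t5N]
    · exact hy0.trans_le (hxy i hi)
    · simp only [hx]; exact measureReal_le_one
    · exact hxX _ _ (tmono _ _ (by omega) (by omega))
    · exact hLd (5 * N) t t0 t5N fun j hj => ⟨(htm j hj).1, (htm j hj).2.trans_le (min_le_left _ _)⟩
  have hcn : ∀ i < 5 * N, 0 ≤ c i := hno.c0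
  refine ⟨5 * N, c, x, ν, 2 * N, hno, ?_, by omega, ?_, ?_, hxy, ?_, ?_, fun hz => ⟨?_, ?_⟩⟩
  · have : δ1 ≤ 4 * (1 + P1 + P2 + P3) * δ1 := by
      have h0 : 0 ≤ (P1 + P2 + P3) * δ1 := by positivity
      linarith only [h0, hδ1p]
    linarith
  · rw [htt, t2N]; linarith
  · rw [htt, t2N]; linarith
  · -- kappa
    have g := h1 hno hep he11 (fun i hi => by have := hxy i hi; linarith only [this, he2]) (J := N) (by omega)
    rw [htt, tN] at g
    have g2 : P1 * (η ^ 3 + e * η ^ 2 + ν / e) ≤ (P1 * (3 * δ1)) * η ^ 2 := by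
      have a1 : η ^ 3 ≤ δ1 * η ^ 2 := by
        have : η ^ 3 = η * η ^ 2 := by ring
        rw [this]; exact mul_le_mul_of_nonneg_right hη1 (sq_nonneg _)
      have a2 : e * η ^ 2 ≤ δ1 * η ^ 2 := mul_le_mul_of_nonneg_right he1 (sq_nonneg _)
      have := mul_le_mul_of_nonneg_left (add_le_add (add_le_add a1 a2) hνeη) hP1
      linarith only [this]
    have g3 := le_of_mul_le_mul_right (g.trans g2) (by positivity : 0 < η ^ 2)
    have h0 : 0 ≤ (1 + P2 + P3) * δ1 := by positivity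
    have h00 : 0 ≤ P1 * δ1 := by positivity
    linarith only [g3, h0, h00, hδ12]
  · -- (ii)
    have hX1 : z.real (Set.Ico 0 (p + del)) = z.real (Set.Ico 0 (p - del)) + w := by
      rw [hw, ← measureReal_union (Set.Ico_disjoint_Ico_same) measurableSet_Ico]
      rw [Set.Ico_union_Ico_eq_Ico (by linarith only [hdel2, hp0]) (by linarith only [hdelp])]
    have g := h2 hno (e := e) (X := z.real (Set.Ico 0 (p + del))) hep he11 measureReal_le_one
      (I := 2 * N) (J := 4 * N) (by omega) (by omega) (fun i hi => by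
        have h1 : t (i + 1) ≤ p - del := by
          rw [← t2N]; exact tmono _ _ hi (by omega)
        have h2 := hxX _ _ h1
        rw [hX1]
        simp only [hx]
        linarith only [h2, he3]) (fun i hi hJ => by
        refine hxX _ _ ?_
        rw [← t4N]; exact tmono _ _ (by omega) (by omega))
    rw [htt, htt, t2N, t4N] at g
    rw [htt, t2N]
    have h5 : (p + del) ^ 5 ≤ 243 * (p - del) ^ 5 := by
      have : (p + del) ^ 5 ≤ (3 * (p - del)) ^ 5 :=
        pow_le_pow_left₀ (by linarith only [hp0, hdelp]) (by linarith only [hdel2]) 5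
      refine this.trans (le_of_eq (by ring))
    have h6 : P2 * ((p + del) ^ 5 + e + (p + del - (p - del)) + ν / e)
        ≤ 243 * P2 * (p - del) ^ 5 + P2 * (3 * δ1) := by
      have : (p + del) ^ 5 + e + (p + del - (p - del)) + ν / e
          ≤ 243 * (p - del) ^ 5 + 3 * δ1 := by linarith only [h5, he1, hdel1, hνe]
      have := mul_le_mul_of_nonneg_left this hP2
      linarith only [this]
    have h7 : 0 ≤ 81 * P3 * (p - del) ^ 5 := by
      have : 0 ≤ (p - del) ^ 5 := pow_nonneg (by linarith only [hdel2, hp0]) 5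
      positivity
    have h8 : 0 ≤ (1 + P1 + P3) * δ1 := by positivity
    have h9 : 0 ≤ P2 * δ1 := by positivity
    linarith only [g, h6, h7, h8, h9, hδ12]
  · -- constant levels
    intro i hi
    have hin : i < 5 * N := by omega
    have h1 : t (i + 1) ≤ p - del := by rw [← t2N]; exact tmono _ _ hi (by omega)
    simp only [hx]
    rw [hsplit _ (tpos i hin)]
    have : z.real (Set.Ioo 0 (t (i + 1))) = 0 := by
      rw [Measure.real, measure_mono_null (Set.Ioo_subset_Ioo le_rfl (by linarith only [h1, hdelp])) hz]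
      simp
    rw [this, add_zero]
  · -- (iii)
    have hconst : ∀ i < 2 * N, x i = y := by
      intro i hi
      have hin : i < 5 * N := by omega
      have h1 : t (i + 1) ≤ p - del := by rw [← t2N]; exact tmono _ _ hi (by omega)
      simp only [hx]
      rw [hsplit _ (tpos i hin)]
      have : z.real (Set.Ioo 0 (t (i + 1))) = 0 := by
        rw [Measure.real, measure_mono_null (Set.Ioo_subset_Ioo le_rfl (by linarith only [h1, hdelp])) hz]
        simp
      rw [this, add_zero]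
    have hsum : d ≤ ∑ i ∈ Finset.Ico (2 * N) (4 * N), c i * (x i - y) := by
      have hsub : Finset.Ico (3 * N) (4 * N) ⊆ Finset.Ico (2 * N) (4 * N) :=
        Finset.Ico_subset_Ico (by omega) le_rfl
      refine le_trans ?_ (Finset.sum_le_sum_of_subset_of_nonneg hsub fun i hi _ => ?_)
      · have hb : ∀ i ∈ Finset.Ico (3 * N) (4 * N), c i * v ≤ c i * (x i - y) := by
          intro i hi
          have hi' := Finset.mem_Ico.1 hi
          refine mul_le_mul_of_nonneg_left ?_ (hcn i (by omega))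
          have : z.real (Set.Ico 0 (p + del / 2)) ≤ x i := by
            refine hxX _ _ ?_
            rw [← t3N]; exact tmono _ _ (by omega) (by omega)
          linarith only [this, hv]
        refine le_trans (le_of_eq ?_) (Finset.sum_le_sum hb)
        rw [← Finset.sum_mul, Finset.sum_Ico_eq_sub _ (by omega)]
        have e1 : ∑ i ∈ Finset.range (4 * N), c i = tt c (4 * N) := rfl
        have e2 : ∑ i ∈ Finset.range (3 * N), c i = tt c (3 * N) := rfl
        rw [e1, e2, htt, htt, t4N, t3N, hd]; ring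
      · have hi' := Finset.mem_Ico.1 hi
        have := hxy i (by omega)
        exact mul_nonneg (hcn i (by omega)) (by linarith only [this])
    have g := h3 hno (y := y) (d := d) hy0 hdp (I := 2 * N) (J := 4 * N) (by omega) (by omega)
      hconst hxy hsum
    rw [htt (2 * N), htt (4 * N), t2N, t4N] at g
    rw [htt, t2N]
    have h3' : (p + del) ^ 3 ≤ 27 * (p - del) ^ 3 := by
      have : (p + del) ^ 3 ≤ (3 * (p - del)) ^ 3 :=
        pow_le_pow_left₀ (by linarith only [hp0, hdelp]) (by linarith only [hdel2]) 3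
      refine this.trans (le_of_eq (by ring))
    have h4' : (p + del) ^ 4 ≤ 81 * (p - del) ^ 4 := by
      have : (p + del) ^ 4 ≤ (3 * (p - del)) ^ 4 :=
        pow_le_pow_left₀ (by linarith only [hp0, hdelp]) (by linarith only [hdel2]) 4
      refine this.trans (le_of_eq (by ring))
    have h5 : th * (p + del) ^ 3 ≤ th * (27 * (p - del) ^ 3) :=
      mul_le_mul_of_nonneg_left h3' h.hth0
    have h6 : P3 * ((p + del) ^ 4 + (p + del - (p - del)) + ν / d)
        ≤ 81 * P3 * (p - del) ^ 4 + P3 * (2 * δ1) := by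
      have : (p + del) ^ 4 + (p + del - (p - del)) + ν / d ≤ 81 * (p - del) ^ 4 + 2 * δ1 := by
        linarith only [h4', hdel1, hνd]
      have := mul_le_mul_of_nonneg_left this hP3
      linarith only [this]
    have h7 : 0 ≤ 243 * P2 * (p - del) ^ 4 := by
      have : 0 ≤ (p - del) ^ 4 := by positivity
      positivity
    have h8 : 0 ≤ (1 + P1 + P2) * δ1 := by positivity
    have h9 : 0 ≤ P3 * δ1 := by positivity
    linarith only [g, h5, h6, h7, h8, h9, hδ12]

theorem sec8 : ∃ T0 : ℝ, 0 < T0 ∧ ∃ th : ℝ, 0 < th ∧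
    ∀ (T : ℝ), 0 < T → T ≤ T0 →
    ∀ (Q : ℝ → ℝ) (q1 : ℝ), 0 ≤ q1 → q1 ≤ 1 →
    (∀ s t, 0 ≤ s → s ≤ t → t ≤ T → |Q t - Q s - q1 / 2 * (t ^ 2 - s ^ 2)| ≤ th * t ^ 3 * (t - s)) →
    ∀ (z : Measure ℝ) [IsProbabilityMeasure z], z {0} ≠ 0 → z {0} ≠ 1 →
    z (Set.Icc 0 (T / 2))ᶜ = 0 →
    ∀ F : ℝ,
    (∀ L : List (ℝ × ℝ), (∀ p ∈ L, 0 < p.1 ∧ p.1 ≤ 1 ∧ 0 < p.2) →
      L.Pairwise (fun p r => p.1 ≤ r.1) → (L.map Prod.snd).sum = T → F ≤ PfQ Q L) →
    (∀ ε > 0, ∃ d > 0, ∀ (k : ℕ) (t : ℕ → ℝ), t 0 = 0 → t k = T →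
      (∀ j < k, t j < t (j + 1) ∧ t (j + 1) - t j < d) →
      PfQ Q ((List.range k).map fun j => (z.real (Set.Ico 0 (t (j + 1))), t (j + 1) - t j))
        ≤ F + ε) →
    False := by
  obtain ⟨C, hC, hcfg⟩ := config
  obtain ⟨U, hU0, hup⟩ := up_Hq KK
  obtain ⟨E1, hE1, hexG⟩ := ex_Gq KK
  obtain ⟨E2, hE2, hexH⟩ := ex_Hq KK
  have hK := KK_pos
  have hC1 := C1_pos
  have hC2 := C2_pos
  set A2 := 2 * C + E1 + E2 + 1 with hA2
  have hA2p : 0 < A2 := by positivity
  set Dn := 24 * KK + 2 * C2 + 2 * C1 + 100 * A2 with hDn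
  have hDnp : 0 < Dn := by positivity
  refine ⟨1 / Dn, by positivity, 1 / 1000, by norm_num, ?_⟩
  intro T hT hTT Q q1 hq0 hq1 hQ z _ hz0 hz1 hzs F hU hL
  have hTD : Dn * T ≤ 1 := by
    rw [le_div_iff₀ hDnp] at hTT; linarith
  have hKT : 0 < KK * T := by positivity
  have hC2T : 0 < C2 * T := by positivity
  have hC1T : 0 < C1 * T := by positivity
  have hA2T : 0 < A2 * T := by positivity
  have hexp : Dn * T = 24 * (KK * T) + 2 * (C2 * T) + 2 * (C1 * T) + 100 * (A2 * T) := by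
    rw [hDn]; ring
  have h : HY T Q (1 / 1000) q1 z F := by
    refine ⟨hT, by linarith, by linarith, by linarith, by norm_num, by norm_num, hq0, hq1, hQ, hz0,
      hz1, hzs, hU, hL⟩
  have hA2T' : A2 * T ≤ 1 / 100 := by linarith
  set y := z.real {0} with hy
  have hy0 : 0 < y := by
    rw [hy, Measure.real, ENNReal.toReal_pos_iff]
    exact ⟨pos_iff_ne_zero.2 hz0, measure_lt_top _ _⟩
  have hy1 : y ≤ 1 := measureReal_le_one
  have hyabs : |y| ≤ 1 := by rw [abs_of_pos hy0]; exact hy1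
  -- step A
  set A := U + 1 + C with hA
  have hAp : 0 < A := by positivity
  set τ := min (T / 2) (y / (8 * A)) with hτ
  have hτp : 0 < τ := lt_min (by positivity) (by positivity)
  have stepA : z (Set.Ioo 0 τ) = 0 := by
    by_contra hne
    have hex : ∃ p ∈ Set.Ioo 0 τ, ∀ u ∈ nhdsWithin p (Set.Ioo 0 τ), z u ≠ 0 := by
      by_contra hcon
      push Not at hcon
      exact hne (measure_null_of_locally_null _ hcon)
    obtain ⟨p, ⟨hp0, hpτ⟩, hpu⟩ := hex
    have hsupp : ∀ del > 0, z (Set.Ioo (p - del) (p + del)) ≠ 0 := fun del hdel =>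
      hpu _ (mem_nhdsWithin_of_mem_nhds (Ioo_mem_nhds (by linarith) (by linarith)))
    have hpT : p ≤ T / 2 := hpτ.le.trans (min_le_left _ _)
    have hpy : p * (8 * A) ≤ y := by
      have := hpτ.le.trans (min_le_right (T / 2) (y / (8 * A)))
      rwa [le_div_iff₀ (by positivity)] at this
    set δ := y / 8 * (p / 2) ^ 3 / (2 * (U + 2)) with hδ
    have hδp : 0 < δ := by positivity
    obtain ⟨n, c, x, ν, I, hno, hνδ, hIn, hs1, hs2, hxy, hκ, hlow, -⟩ := hcfg h hp0 hpT hsupp hδp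
    have hsy := hno.sy hno.lv
    have up := hup hsy hy0.le hxy I hIn
    obtain ⟨-, hsT, hs1'⟩ := hno.tJ hIn
    set s := tt c I
    have hs0 : 0 < s := by linarith only [hs1, hp0]
    have hν0 := hno.hν0
    set k := aa x c n 1 0 ^ 2
    set H := Hq c x (aa x c n) I
    clear_value H k s δ
    have e1 : s ^ 2 ≤ 1 := pow_le_one₀ hs0.le hs1'
    have e2 : s ^ 5 ≤ s ^ 4 := pow_le_pow_of_le_one hs0.le hs1' (by norm_num)
    have e3 : (k - q1) * s ^ 2 ≤ δ := by
      have h0 : 0 ≤ s ^ 2 := sq_nonneg s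
      have := mul_le_mul_of_nonneg_right hκ h0
      have h9 := mul_le_mul_of_nonneg_left e1 hδp.le; linarith only [this, h9]
    have e4 : C * s ^ 5 ≤ C * s ^ 4 := mul_le_mul_of_nonneg_left e2 hC
    have e5 : U * ν ≤ U * δ := mul_le_mul_of_nonneg_left hνδ hU0
    have hs4 : 0 ≤ s ^ 4 := by positivity
    have e6 : 1 / 4 * y * s ^ 3 ≤ A * s ^ 4 + (U + 2) * δ := by
      rw [hA]; linarith only [up, hlow, e3, e4, e5, hs4, hδp]
    have e7 : A * s ^ 4 ≤ y / 8 * s ^ 3 := by
      have h1 : s * (8 * A) ≤ y := (mul_le_mul_of_nonneg_right hs2 (by positivity)).trans hpy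
      have h3 : 0 ≤ s ^ 3 := by positivity
      have h9 := mul_le_mul_of_nonneg_right h1 h3; linarith only [h9]
    have e8 : y / 8 * (p / 2) ^ 3 ≤ y / 8 * s ^ 3 :=
      mul_le_mul_of_nonneg_left (pow_le_pow_left₀ (by positivity) hs1 3) (by positivity)
    have e9 : (U + 2) * δ = y / 8 * (p / 2) ^ 3 / 2 := by
      rw [hδ]; field_simp
    have e10 : 0 < y / 8 * (p / 2) ^ 3 := by positivity
    linarith only [e6, e7, e8, e9, e10]
  -- step B: the first point of the support
  set S : Set ℝ := {t | 0 ≤ t ∧ t ≤ T / 2 ∧ z (Set.Ioo 0 t) = 0} with hS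
  have hτS : τ ∈ S := ⟨hτp.le, min_le_left _ _, stepA⟩
  have hSb : BddAbove S := ⟨T / 2, fun t ht => ht.2.1⟩
  set p := sSup S with hp
  have hpτ : τ ≤ p := le_csSup hSb hτS
  have hp0 : 0 < p := hτp.trans_le hpτ
  have hpT : p ≤ T / 2 := csSup_le ⟨τ, hτS⟩ fun t ht => ht.2.1
  have hpz : z (Set.Ioo 0 p) = 0 := by
    refine measure_null_of_locally_null _ fun u hu => ?_
    obtain ⟨t, ht, hut⟩ := exists_lt_of_lt_csSup ⟨τ, hτS⟩ hu.2
    exact ⟨Set.Ioo 0 t, mem_nhdsWithin_of_mem_nhds (Ioo_mem_nhds hu.1 hut), ht.2.2⟩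
  have hsupp : ∀ del > 0, z (Set.Ioo (p - del) (p + del)) ≠ 0 := by
    intro del hdel hcon
    have hbig : z (Set.Ioo 0 (p + del)) = 0 := by
      refine measure_mono_null (t := Set.Ioo 0 p ∪ Set.Ioo (p - del) (p + del)) ?_
        (measure_union_null hpz hcon)
      intro u hu
      by_cases h1 : u < p
      · left; exact ⟨hu.1, h1⟩
      · right; exact ⟨by linarith, hu.2⟩
    by_cases h1 : p < T / 2
    · have h2 : min (p + del) (T / 2) ∈ S :=
        ⟨le_min (by linarith) (by linarith), min_le_right _ _,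
          measure_mono_null (Set.Ioo_subset_Ioo le_rfl (min_le_left _ _)) hbig⟩
      have h3 := le_csSup hSb h2
      have h4 : p < min (p + del) (T / 2) := lt_min (by linarith) h1
      linarith
    · have h2 : p = T / 2 := le_antisymm hpT (not_lt.1 h1)
      refine hz1 (le_antisymm prob_le_one ?_)
      have huniv : (Set.univ : Set ℝ) ⊆ {0} ∪ (Set.Ioo 0 (p + del) ∪ (Set.Icc 0 (T / 2))ᶜ) := by
        intro u _
        by_cases h3 : u ∈ Set.Icc 0 (T / 2)
        · rcases h3.1.eq_or_lt with h4 | h4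
          · left; exact h4.symm
          · right; left; exact ⟨h4, by rw [h2]; linarith [h3.2]⟩
        · right; right; exact h3
      calc (1 : ENNReal) = z Set.univ := measure_univ.symm
        _ ≤ z ({0} ∪ (Set.Ioo 0 (p + del) ∪ (Set.Icc 0 (T / 2))ᶜ)) := measure_mono huniv
        _ ≤ z {0} + z (Set.Ioo 0 (p + del) ∪ (Set.Icc 0 (T / 2))ᶜ) := measure_union_le _ _
        _ = z {0} := by rw [measure_union_null hbig hzs, add_zero]
  set δ := (p / 2) ^ 4 / (100 * (3 + E1 + E2)) with hδ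
  have hδp : 0 < δ := by positivity
  obtain ⟨n, c, x, ν, I, hno, hνδ, hIn, hs1, hs2, hxy, hκ, hlow, hiii⟩ :=
    hcfg h hp0 hpT hsupp hδp
  obtain ⟨hxI, hG⟩ := hiii hpz
  have hsy := hno.sy hno.lv
  have g := (abs_le.1 (hexG hsy hyabs hIn hxI I le_rfl)).1
  have g2 := (abs_le.1 (hexH hsy hyabs hIn hxI I le_rfl)).2
  have hbe : 3 ≤ be (aa x c n) y 0 := by
    have h1 := hsy.a2_hi (Nat.zero_le n)
    unfold be
    have h2 : 3 ≤ aa x c n 2 0 ^ 2 := by nlinarith only [h1]
    have h3 : 0 ≤ 6 * y ^ 2 * aa x c n 1 0 ^ 4 := by positivity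
    linarith only [h2, h3]
  obtain ⟨-, hsT, hs1'⟩ := hno.tJ hIn
  set s := tt c I
  have hs0 : 0 < s := by linarith only [hs1, hp0]
  have hν0 := hno.hν0
  set k := aa x c n 1 0 ^ 2
  set H := Hq c x (aa x c n) I
  set G := Gq c x (aa x c n) I
  set R := Rh c x (aa x c n) y 0
  set b := be (aa x c n) y 0
  clear_value b R G H k s δ
  -- combine (2) and (4)
  have f1 : k * s + 1 / 2 * R * s ^ 2 + 1 / 6 * b * s ^ 3
      ≤ q1 * s + 27 * (1 / 1000) * s ^ 3 + (C + E1) * s ^ 4 + (1 + E1) * δ := by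
    have : E1 * ν ≤ E1 * δ := mul_le_mul_of_nonneg_left hνδ hE1
    linarith only [g, hG, this, hδp]
  have f2 := mul_le_mul_of_nonneg_left f1 (by positivity : 0 ≤ s / 3)
  have f3 : 1 / 2 * q1 * s ^ 2 - 1 / 1000 * s ^ 4 - C * s ^ 5 - δ
      ≤ 1 / 2 * k * s ^ 2 + 1 / 6 * R * s ^ 3 + 1 / 24 * b * s ^ 4 + E2 * s ^ 5 + E2 * δ := by
    have : E2 * ν ≤ E2 * δ := mul_le_mul_of_nonneg_left hνδ hE2
    linarith only [g2, hlow, this, hδp]
  have f4 : 1 / 72 * b * s ^ 4 ≤ 1 / 6 * ((k - q1) * s ^ 2) + 10 / 1000 * s ^ 4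
      + (2 * C + E1 + E2) * s ^ 5 + (1 + E2) * δ + (1 + E1) * δ * s := by
    have hs5 : 0 ≤ s ^ 5 := by positivity
    have hδs : 0 ≤ (1 + E1) * δ * s := by positivity
    linarith only [f2, f3, mul_nonneg hC hs5, mul_nonneg hE1 hs5, hδs, hs5]
  have hs4 : 0 ≤ s ^ 4 := by positivity
  have f5 : 1 / 72 * 3 * s ^ 4 ≤ 1 / 72 * b * s ^ 4 :=
    mul_le_mul_of_nonneg_right (by linarith only [hbe]) hs4
  have f6 : (k - q1) * s ^ 2 ≤ δ := by
    have h0 : 0 ≤ s ^ 2 := sq_nonneg s
    have e1 : s ^ 2 ≤ 1 := pow_le_one₀ hs0.le hs1'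
    have := mul_le_mul_of_nonneg_right hκ h0
    have h9 := mul_le_mul_of_nonneg_left e1 hδp.le; linarith only [this, h9]
  have f7 : (2 * C + E1 + E2) * s ^ 5 ≤ 1 / 100 * s ^ 4 := by
    have h1 : (2 * C + E1 + E2) * s ≤ 1 / 100 := by
      have h2 : (2 * C + E1 + E2) * s ≤ A2 * s := by
        rw [hA2]; linarith only [hs0]
      have h3 : A2 * s ≤ A2 * T := mul_le_mul_of_nonneg_left hsT hA2p.le
      linarith only [h2, h3, hA2T']
    have := mul_le_mul_of_nonneg_right h1 hs4
    linarith only [this]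
  have f8 : (1 + E1) * δ * s ≤ (1 + E1) * δ := by
    have h0 : 0 ≤ (1 + E1) * δ := by positivity
    have h9 := mul_le_mul_of_nonneg_left hs1' h0; linarith only [h9]
  have f9 : 1 / 50 * s ^ 4 ≤ (3 + E1 + E2) * δ := by linarith only [f4, f5, f6, f7, f8, hs4, hδp]
  have f10 : (p / 2) ^ 4 ≤ s ^ 4 := pow_le_pow_left₀ (by positivity) hs1 4
  have f11 : (3 + E1 + E2) * δ = (p / 2) ^ 4 / 100 := by
    rw [hδ]; field_simp
  have f12 : 0 < (p / 2) ^ 4 := by positivity
  linarith only [f9, f10, f11, f12]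

end
end Pool.Agent.LibOS45
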