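import Mathlib

/-!
# One cell: product rule calculus for the increments
-/

namespace Pool.Agent.LibOS45
open Asymptotics

noncomputable section

/-- increments of the weights -/
def L1 (x a1 a2 a3 l1 l2 l3 : ℝ) : ℝ := 1 / 2 + x * (2 * a1 * l1 + 4 * a2 * l2 + 6 * a3 * l3)
/-- increments of the weights -/
def L2 (x a1 a2 l1 l2 l3 : ℝ) : ℝ := 1 / 2 * l1 + x * (4 * a1 * l2 + 20 * a2 * l3)
/-- increments of the weights -/
def L3 (x a1 l2 l3 : ℝ) : ℝ := 1 / 2 * l2 + x * (6 * a1 * l3)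

/-- all the numbers attached to one cell -/
structure Cell (K : ℝ) where
  c : ℝ
  x : ℝ
  t : ℝ
  a1 : ℝ
  a2 : ℝ
  a3 : ℝ
  a4 : ℝ
  b1 : ℝ
  b2 : ℝ
  b3 : ℝ
  l1 : ℝ
  l2 : ℝ
  l3 : ℝ
  m1 : ℝ
  m2 : ℝ
  m3 : ℝ
  hc0 : 0 ≤ c
  hc1 : c ≤ 1
  hx0 : 0 ≤ x
  hx1 : x ≤ 1
  ht0 : 0 ≤ t
  ht1 : t ≤ 1
  ha1 : |a1| ≤ K
  ha2 : |a2| ≤ K
  ha3 : |a3| ≤ K
  ha4 : |a4| ≤ K
  he1 : |b1 - a1 - (c / 2) * (a2 + x * (2 * a1 ^ 2))| ≤ K * (c * √c)
  he2 : |b2 - a2 - (c / 2) * (a3 + x * (8 * a1 * a2))| ≤ K * (c * √c)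
  he3 : |b3 - a3 - (c / 2) * (a4 + x * (12 * a1 * a3 + 20 * a2 ^ 2))| ≤ K * (c * √c)
  hm1 : m1 = l1 + c * L1 x a1 a2 a3 l1 l2 l3
  hm2 : m2 = l2 + c * L2 x a1 a2 l1 l2 l3
  hm3 : m3 = l3 + c * L3 x a1 l2 l3
  hl1 : |l1| ≤ t
  hl2 : |l2| ≤ t ^ 2
  hl3 : |l3| ≤ t ^ 3
  hn1 : |m1| ≤ t
  hn2 : |m2| ≤ t ^ 2
  hn3 : |m3| ≤ t ^ 3

variable {K : ℝ}

/-- bounded -/
abbrev Ob (f : Cell K → ℝ) : Prop := f =O[⊤] (fun _ => (1 : ℝ))

lemma ob_of {f : Cell K → ℝ} {C : ℝ} (h : ∀ i, |f i| ≤ C) : Ob f :=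
  isBigO_top.2 ⟨C, fun i => by simpa using h i⟩

lemma ob_const (r : ℝ) : Ob (fun _ : Cell K => r) := isBigO_const_const r one_ne_zero _

lemma Ob.mul {f g : Cell K → ℝ} (hf : Ob f) (hg : Ob g) : Ob (fun i => f i * g i) := by
  simpa using IsBigO.mul hf hg

lemma Ob.add {f g : Cell K → ℝ} (hf : Ob f) (hg : Ob g) : Ob (fun i => f i + g i) :=
  IsBigO.add hf hg

lemma ob_c : Ob (fun i : Cell K => i.c) :=
  ob_of (C := 1) fun i => by rw [abs_of_nonneg i.hc0]; exact i.hc1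

lemma ob_x : Ob (fun i : Cell K => i.x) :=
  ob_of (C := 1) fun i => by rw [abs_of_nonneg i.hx0]; exact i.hx1

lemma c_le_sqrt (i : Cell K) : i.c ≤ √i.c := by
  rw [Real.le_sqrt i.hc0 i.hc0]; nlinarith [i.hc0, i.hc1]

lemma cc_O : (fun i : Cell K => i.c * i.c) =O[⊤] (fun i => i.c * √i.c) := by
  refine isBigO_top.2 ⟨1, fun i => ?_⟩
  have h := c_le_sqrt i
  have h0 := i.hc0
  rw [Real.norm_eq_abs, Real.norm_eq_abs, abs_of_nonneg (by positivity),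
    abs_of_nonneg (by positivity), one_mul]
  exact mul_le_mul_of_nonneg_left h h0

lemma e_O_c : (fun i : Cell K => i.c * √i.c) =O[⊤] (fun i => i.c) := by
  refine isBigO_top.2 ⟨1, fun i => ?_⟩
  have h0 := i.hc0
  have h1 : √i.c ≤ 1 := Real.sqrt_le_one.2 i.hc1
  rw [Real.norm_eq_abs, Real.norm_eq_abs, abs_of_nonneg (by positivity),
    abs_of_nonneg (by positivity), one_mul]
  nlinarith [Real.sqrt_nonneg i.c]

/-- `fo` old value, `fn` new value, `F` the derivative -/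
structure Dv (fo fn F : Cell K → ℝ) : Prop where
  bo : Ob fo
  bn : Ob fn
  bF : Ob F
  inc : (fun i => fn i - fo i - i.c * F i) =O[⊤] (fun i => i.c * √i.c)

lemma Dv.diff {fo fn F : Cell K → ℝ} (h : Dv fo fn F) :
    (fun i => fn i - fo i) =O[⊤] (fun i => i.c) := by
  have h1 : (fun i : Cell K => i.c * F i) =O[⊤] (fun i => i.c) := by
    simpa using (isBigO_refl (fun i : Cell K => i.c) ⊤).mul h.bF
  have h2 := (h.inc.trans e_O_c).add h1
  refine h2.congr_left fun i => ?_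
  ring

lemma Dv.mul {fo fn F go gn G : Cell K → ℝ} (hf : Dv fo fn F) (hg : Dv go gn G) :
    Dv (fun i => fo i * go i) (fun i => fn i * gn i) (fun i => F i * gn i + fn i * G i) := by
  refine ⟨hf.bo.mul hg.bo, hf.bn.mul hg.bn, (hf.bF.mul hg.bn).add (hf.bn.mul hg.bF), ?_⟩
  have h1 : (fun i => fn i * (gn i - go i - i.c * G i)) =O[⊤] (fun i : Cell K => i.c * √i.c) := by
    simpa using IsBigO.mul hf.bn hg.inc
  have h2 : (fun i => (fn i - fo i - i.c * F i) * go i) =O[⊤]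
      (fun i : Cell K => i.c * √i.c) := by simpa using IsBigO.mul hf.inc hg.bo
  have h3 : (fun i => i.c * (gn i - go i)) =O[⊤] (fun i : Cell K => i.c * √i.c) :=
    ((isBigO_refl (fun i : Cell K => i.c) ⊤).mul hg.diff).trans cc_O
  have h4 : (fun i => F i * (i.c * (gn i - go i))) =O[⊤] (fun i : Cell K => i.c * √i.c) := by
    simpa using IsBigO.mul hf.bF h3
  refine ((h1.add h2).sub h4).congr_left fun i => ?_
  ring

lemma Dv.add {fo fn F go gn G : Cell K → ℝ} (hf : Dv fo fn F) (hg : Dv go gn G) :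
    Dv (fun i => fo i + go i) (fun i => fn i + gn i) (fun i => F i + G i) := by
  refine ⟨hf.bo.add hg.bo, hf.bn.add hg.bn, hf.bF.add hg.bF, ?_⟩
  refine (hf.inc.add hg.inc).congr_left fun i => ?_
  ring

lemma dv_const (r : ℝ) : Dv (fun _ : Cell K => r) (fun _ => r) (fun _ => 0) :=
  ⟨ob_const r, ob_const r, ob_const 0, by
    refine (isBigO_zero (fun i : Cell K => i.c * √i.c) ⊤).congr_left fun i => by simp⟩

lemma dv_x : Dv (fun i : Cell K => i.x) (fun i => i.x) (fun _ => 0) :=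
  ⟨ob_x, ob_x, ob_const 0, by
    refine (isBigO_zero (fun i : Cell K => i.c * √i.c) ⊤).congr_left fun i => by simp⟩

lemma Dv.congr {fo fn F fo' fn' F' : Cell K → ℝ} (h : Dv fo fn F) (h1 : ∀ i, fo' i = fo i)
    (h2 : ∀ i, fn' i = fn i) (h3 : ∀ i, F' i = F i) : Dv fo' fn' F' := by
  have e1 : fo' = fo := funext h1
  have e2 : fn' = fn := funext h2
  have e3 : F' = F := funext h3
  subst e1 e2 e3
  exact h

lemma ob_a1 : Ob (fun i : Cell K => i.a1) := ob_of fun i => i.ha1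
lemma ob_a2 : Ob (fun i : Cell K => i.a2) := ob_of fun i => i.ha2
lemma ob_a3 : Ob (fun i : Cell K => i.a3) := ob_of fun i => i.ha3
lemma ob_a4 : Ob (fun i : Cell K => i.a4) := ob_of fun i => i.ha4

lemma O_of_abs {f g : Cell K → ℝ} (hg : ∀ i, 0 ≤ g i) {C : ℝ} (h : ∀ i, |f i| ≤ C * g i) :
    f =O[⊤] g := isBigO_top.2 ⟨C, fun i => by
      rw [Real.norm_eq_abs, Real.norm_eq_abs, abs_of_nonneg (hg i)]; exact h i⟩

lemma e_nonneg (i : Cell K) : 0 ≤ i.c * √i.c := mul_nonneg i.hc0 (Real.sqrt_nonneg _)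

/-- old value from new value -/
lemma dv_of {fo fn F : Cell K → ℝ} (bn : Ob fn) (bF : Ob F)
    (h : ∀ i, |fo i - fn i + i.c * F i| ≤ K * (i.c * √i.c)) : Dv fo fn F := by
  have inc : (fun i => fn i - fo i - i.c * F i) =O[⊤] (fun i => i.c * √i.c) :=
    O_of_abs e_nonneg (C := K) fun i => by
      have := h i
      rwa [← abs_neg, show -(fo i - fn i + i.c * F i) = fn i - fo i - i.c * F i by ring] at this
  refine ⟨?_, bn, bF, inc⟩
  have h1 : Ob (fun i : Cell K => i.c * F i) := ob_c.mul bF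
  have h2 : Ob (fun i : Cell K => fn i - fo i - i.c * F i) := (inc.trans e_O_c).trans ob_c
  refine ((bn.sub h1).sub h2).congr_left fun i => ?_
  ring

lemma dv_a1 : Dv (fun i : Cell K => i.b1) (fun i => i.a1)
    (fun i => -(1 / 2) * (i.a2 + i.x * (2 * (i.a1 * i.a1)))) := by
  refine dv_of ob_a1 ((ob_const _).mul (ob_a2.add (ob_x.mul ((ob_const 2).mul
    (ob_a1.mul ob_a1))))) fun i => ?_
  refine le_trans (le_of_eq ?_) i.he1
  congr 1; ring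

lemma dv_a2 : Dv (fun i : Cell K => i.b2) (fun i => i.a2)
    (fun i => -(1 / 2) * (i.a3 + i.x * (8 * (i.a1 * i.a2)))) := by
  refine dv_of ob_a2 ((ob_const _).mul (ob_a3.add (ob_x.mul ((ob_const 8).mul
    (ob_a1.mul ob_a2))))) fun i => ?_
  refine le_trans (le_of_eq ?_) i.he2
  congr 1; ring

lemma dv_a3 : Dv (fun i : Cell K => i.b3) (fun i => i.a3)
    (fun i => -(1 / 2) * (i.a4 + i.x * (12 * (i.a1 * i.a3) + 20 * (i.a2 * i.a2)))) := by
  refine dv_of ob_a3 ((ob_const _).mul (ob_a4.add (ob_x.mul (((ob_const 12).mul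
    (ob_a1.mul ob_a3)).add ((ob_const 20).mul (ob_a2.mul ob_a2)))))) fun i => ?_
  refine le_trans (le_of_eq ?_) i.he3
  congr 1; ring

lemma ob_m1 : Ob (fun i : Cell K => i.m1) := ob_of (C := 1) fun i => i.hn1.trans i.ht1
lemma ob_m2 : Ob (fun i : Cell K => i.m2) := ob_of (C := 1) fun i =>
  i.hn2.trans (pow_le_one₀ i.ht0 i.ht1)
lemma ob_m3 : Ob (fun i : Cell K => i.m3) := ob_of (C := 1) fun i =>
  i.hn3.trans (pow_le_one₀ i.ht0 i.ht1)
lemma ob_l1 : Ob (fun i : Cell K => i.l1) := ob_of (C := 1) fun i => i.hl1.trans i.ht1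
lemma ob_l2 : Ob (fun i : Cell K => i.l2) := ob_of (C := 1) fun i =>
  i.hl2.trans (pow_le_one₀ i.ht0 i.ht1)
lemma ob_l3 : Ob (fun i : Cell K => i.l3) := ob_of (C := 1) fun i =>
  i.hl3.trans (pow_le_one₀ i.ht0 i.ht1)

lemma ob_L1 {f1 f2 f3 : Cell K → ℝ} (h1 : Ob f1) (h2 : Ob f2) (h3 : Ob f3) :
    Ob (fun i : Cell K => L1 i.x i.a1 i.a2 i.a3 (f1 i) (f2 i) (f3 i)) := by
  unfold L1
  exact (ob_const _).add (ob_x.mul ((((ob_const 2).mul ob_a1).mul h1).add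
    (((ob_const 4).mul ob_a2).mul h2) |>.add (((ob_const 6).mul ob_a3).mul h3)))

lemma ob_L2 {f1 f2 f3 : Cell K → ℝ} (h1 : Ob f1) (h2 : Ob f2) (h3 : Ob f3) :
    Ob (fun i : Cell K => L2 i.x i.a1 i.a2 (f1 i) (f2 i) (f3 i)) := by
  unfold L2
  exact ((ob_const _).mul h1).add (ob_x.mul ((((ob_const 4).mul ob_a1).mul h2).add
    (((ob_const 20).mul ob_a2).mul h3)))

lemma ob_L3 {f2 f3 : Cell K → ℝ} (h2 : Ob f2) (h3 : Ob f3) :
    Ob (fun i : Cell K => L3 i.x i.a1 (f2 i) (f3 i)) := by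
  unfold L3
  exact ((ob_const _).mul h2).add (ob_x.mul (((ob_const 6).mul ob_a1).mul h3))

lemma c_mul_O {f : Cell K → ℝ} (h : Ob f) : (fun i : Cell K => i.c * f i) =O[⊤] (fun i => i.c) := by
  simpa using (isBigO_refl (fun i : Cell K => i.c) ⊤).mul h

lemma dm1 : (fun i : Cell K => i.m1 - i.l1) =O[⊤] (fun i => i.c) :=
  (c_mul_O (ob_L1 ob_l1 ob_l2 ob_l3)).congr_left fun i => by rw [i.hm1]; ring
lemma dm2 : (fun i : Cell K => i.m2 - i.l2) =O[⊤] (fun i => i.c) :=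
  (c_mul_O (ob_L2 ob_l1 ob_l2 ob_l3)).congr_left fun i => by rw [i.hm2]; ring
lemma dm3 : (fun i : Cell K => i.m3 - i.l3) =O[⊤] (fun i => i.c) :=
  (c_mul_O (ob_L3 ob_l2 ob_l3)).congr_left fun i => by rw [i.hm3]; ring

lemma ob_mul_O {f g : Cell K → ℝ} (h : Ob f) (hg : g =O[⊤] (fun i : Cell K => i.c)) :
    (fun i : Cell K => f i * g i) =O[⊤] (fun i => i.c) := by
  simpa using IsBigO.mul h hg

lemma dv_m1 : Dv (fun i : Cell K => i.l1) (fun i => i.m1)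
    (fun i => 1 / 2 + i.x * (2 * (i.a1 * i.m1) + 4 * (i.a2 * i.m2) + 6 * (i.a3 * i.m3))) := by
  refine ⟨ob_l1, ob_m1, ?_, ?_⟩
  · exact (ob_L1 ob_m1 ob_m2 ob_m3).congr_left fun i => by unfold L1; ring
  · have h : (fun i : Cell K => i.x * ((2 * i.a1) * (i.m1 - i.l1) + (4 * i.a2) * (i.m2 - i.l2)
        + (6 * i.a3) * (i.m3 - i.l3))) =O[⊤] (fun i => i.c) :=
      ob_mul_O ob_x (((ob_mul_O ((ob_const 2).mul ob_a1) dm1).add
        (ob_mul_O ((ob_const 4).mul ob_a2) dm2)).add (ob_mul_O ((ob_const 6).mul ob_a3) dm3))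
    have h2 := (((isBigO_refl (fun i : Cell K => i.c) ⊤).mul h).trans cc_O).neg_left
    refine h2.congr_left fun i => ?_
    have := i.hm1
    unfold L1 at this
    linear_combination -this

lemma dv_m2 : Dv (fun i : Cell K => i.l2) (fun i => i.m2)
    (fun i => 1 / 2 * i.m1 + i.x * (4 * (i.a1 * i.m2) + 20 * (i.a2 * i.m3))) := by
  refine ⟨ob_l2, ob_m2, ?_, ?_⟩
  · exact (ob_L2 ob_m1 ob_m2 ob_m3).congr_left fun i => by unfold L2; ring
  · have h : (fun i : Cell K => (1 / 2) * (i.m1 - i.l1) + i.x * ((4 * i.a1) * (i.m2 - i.l2)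
        + (20 * i.a2) * (i.m3 - i.l3))) =O[⊤] (fun i => i.c) :=
      (ob_mul_O (ob_const _) dm1).add (ob_mul_O ob_x ((ob_mul_O ((ob_const 4).mul ob_a1) dm2).add
        (ob_mul_O ((ob_const 20).mul ob_a2) dm3)))
    have h2 := (((isBigO_refl (fun i : Cell K => i.c) ⊤).mul h).trans cc_O).neg_left
    refine h2.congr_left fun i => ?_
    have := i.hm2
    unfold L2 at this
    linear_combination -this

lemma dv_m3 : Dv (fun i : Cell K => i.l3) (fun i => i.m3)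
    (fun i => 1 / 2 * i.m2 + i.x * (6 * (i.a1 * i.m3))) := by
  refine ⟨ob_l3, ob_m3, ?_, ?_⟩
  · exact (ob_L3 ob_m2 ob_m3).congr_left fun i => by unfold L3; ring
  · have h : (fun i : Cell K => (1 / 2) * (i.m2 - i.l2) + i.x * ((6 * i.a1) * (i.m3 - i.l3)))
        =O[⊤] (fun i => i.c) :=
      (ob_mul_O (ob_const _) dm2).add (ob_mul_O ob_x (ob_mul_O ((ob_const 6).mul ob_a1) dm3))
    have h2 := (((isBigO_refl (fun i : Cell K => i.c) ⊤).mul h).trans cc_O).neg_left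
    refine h2.congr_left fun i => ?_
    have := i.hm3
    unfold L3 at this
    linear_combination -this

/-- the first variation density -/
def gg (a1 a2 a3 l1 l2 l3 : ℝ) : ℝ :=
  2 * a1 ^ 2 * l1 + 8 * a1 * a2 * l2 + (12 * a1 * a3 + 20 * a2 ^ 2) * l3

/-- its derivative -/
def gam (a1 a2 a3 l1 l2 : ℝ) : ℝ :=
  a1 ^ 2 + 2 * l1 * a1 * a2 + 2 * l2 * (3 * a2 ^ 2 + a1 * a3)

/-- its second derivative -/
def rho (x a1 a2 l1 : ℝ) : ℝ := -2 * x * a1 ^ 3 + l1 * (2 * a2 ^ 2 - 6 * x * a1 ^ 2 * a2)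

/-- final bound for increments -/
lemma final_bd {fo fn F G : Cell K → ℝ} (h : Dv fo fn F) (p : ℕ)
    (hFG : (fun i => F i - G i) =O[⊤] (fun i => i.t ^ p)) :
    ∃ C, 0 ≤ C ∧ ∀ i : Cell K, |fn i - fo i - i.c * G i| ≤ C * (i.c * i.t ^ p + i.c * √i.c) := by
  obtain ⟨A, hA⟩ := isBigO_top.1 h.inc
  obtain ⟨B, hB⟩ := isBigO_top.1 hFG
  refine ⟨|A| + |B|, by positivity, fun i => ?_⟩
  have h1 := hA i
  have h2 := hB i
  have hc := i.hc0
  have ht := i.ht0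
  have ep : |i.t ^ p| = i.t ^ p := abs_of_nonneg (pow_nonneg ht p)
  rw [Real.norm_eq_abs, Real.norm_eq_abs, abs_of_nonneg (e_nonneg i)] at h1
  rw [Real.norm_eq_abs, Real.norm_eq_abs, ep] at h2
  have e : fn i - fo i - i.c * G i = (fn i - fo i - i.c * F i) + i.c * (F i - G i) := by ring
  rw [e]
  refine (abs_add_le _ _).trans ?_
  rw [abs_mul, abs_of_nonneg hc]
  have hp : 0 ≤ i.t ^ p := pow_nonneg ht p
  have hs := e_nonneg i
  have p1 : A * (i.c * √i.c) ≤ |A| * (i.c * √i.c) :=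
    mul_le_mul_of_nonneg_right (le_abs_self A) hs
  have p2 : i.c * |F i - G i| ≤ i.c * (|B| * i.t ^ p) :=
    mul_le_mul_of_nonneg_left (h2.trans (mul_le_mul_of_nonneg_right (le_abs_self B) hp)) hc
  have p3 : 0 ≤ |A| * (i.c * i.t ^ p) := by positivity
  have p4 : 0 ≤ |B| * (i.c * √i.c) := by positivity
  calc _ ≤ |A| * (i.c * √i.c) + i.c * (|B| * i.t ^ p) := add_le_add (h1.trans p1) p2
    _ ≤ _ := by nlinarith

lemma m3_O {f : Cell K → ℝ} (h : Ob f) : (fun i : Cell K => i.m3 * f i) =O[⊤] (fun i => i.t ^ 3) := by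
  have h1 : (fun i : Cell K => i.m3) =O[⊤] (fun i => i.t ^ 3) :=
    O_of_abs (fun i => pow_nonneg i.ht0 3) (C := 1) fun i => by rw [one_mul]; exact i.hn3
  simpa using h1.mul h

lemma m3_O2 {f : Cell K → ℝ} (h : Ob f) : (fun i : Cell K => i.m3 * f i) =O[⊤] (fun i => i.t ^ 2) := by
  have h1 : (fun i : Cell K => i.m3) =O[⊤] (fun i => i.t ^ 2) :=
    O_of_abs (fun i => pow_nonneg i.ht0 2) (C := 1) fun i => by
      rw [one_mul]; exact i.hn3.trans (pow_le_pow_of_le_one i.ht0 i.ht1 (by norm_num))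
  simpa using h1.mul h

lemma m2_O2 {f : Cell K → ℝ} (h : Ob f) : (fun i : Cell K => i.m2 * f i) =O[⊤] (fun i => i.t ^ 2) := by
  have h1 : (fun i : Cell K => i.m2) =O[⊤] (fun i => i.t ^ 2) :=
    O_of_abs (fun i => pow_nonneg i.ht0 2) (C := 1) fun i => by rw [one_mul]; exact i.hn2
  simpa using h1.mul h

lemma m_O1 {f g : Cell K → ℝ} (hg : ∀ i, |g i| ≤ i.t) (h : Ob f) :
    (fun i : Cell K => g i * f i) =O[⊤] (fun i => i.t ^ 1) := by
  have h1 : g =O[⊤] (fun i => i.t ^ 1) :=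
    O_of_abs (fun i => pow_nonneg i.ht0 1) (C := 1) fun i => by
      rw [one_mul, pow_one]; exact hg i
  simpa using h1.mul h

theorem gg_inc (K : ℝ) : ∃ C, 0 ≤ C ∧ ∀ i : Cell K,
    |gg i.a1 i.a2 i.a3 i.m1 i.m2 i.m3 - gg i.b1 i.b2 i.b3 i.l1 i.l2 i.l3
      - i.c * gam i.a1 i.a2 i.a3 i.m1 i.m2| ≤ C * (i.c * i.t ^ 3 + i.c * √i.c) := by
  have h1 := ((dv_const (K := K) 2).mul (dv_a1.mul dv_a1)).mul dv_m1
  have h2 := ((dv_const (K := K) 8).mul (dv_a1.mul dv_a2)).mul dv_m2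
  have h3 := (((dv_const (K := K) 12).mul (dv_a1.mul dv_a3)).add
    ((dv_const (K := K) 20).mul (dv_a2.mul dv_a2))).mul dv_m3
  have h := (h1.add h2).add h3
  refine final_bd (h.congr (fo' := fun i => gg i.b1 i.b2 i.b3 i.l1 i.l2 i.l3)
    (fn' := fun i => gg i.a1 i.a2 i.a3 i.m1 i.m2 i.m3) (F' := fun i =>
      gam i.a1 i.a2 i.a3 i.m1 i.m2 + i.m3 * (-26 * (i.a2 * i.a3) + -6 * (i.a1 * i.a4)))
    (fun i => by unfold gg; ring) (fun i => by unfold gg; ring)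
    (fun i => by unfold gam; ring)) 3 ?_
  refine (m3_O (f := fun i => -26 * (i.a2 * i.a3) + -6 * (i.a1 * i.a4))
    (((ob_const _).mul (ob_a2.mul ob_a3)).add ((ob_const _).mul (ob_a1.mul ob_a4)))).congr_left
    fun i => ?_
  ring

theorem gam_inc (K : ℝ) : ∃ C, 0 ≤ C ∧ ∀ i : Cell K,
    |gam i.a1 i.a2 i.a3 i.m1 i.m2 - gam i.b1 i.b2 i.b3 i.l1 i.l2
      - i.c * rho i.x i.a1 i.a2 i.m1| ≤ C * (i.c * i.t ^ 2 + i.c * √i.c) := by
  have h1 := (dv_a1 (K := K)).mul dv_a1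
  have h2 := (dv_const (K := K) 2).mul (dv_m1.mul (dv_a1.mul dv_a2))
  have h3 := (dv_const (K := K) 2).mul (dv_m2.mul (((dv_const 3).mul (dv_a2.mul dv_a2)).add
    (dv_a1.mul dv_a3)))
  have h := (h1.add h2).add h3
  refine final_bd (h.congr (fo' := fun i => gam i.b1 i.b2 i.b3 i.l1 i.l2)
    (fn' := fun i => gam i.a1 i.a2 i.a3 i.m1 i.m2) (F' := fun i =>
      rho i.x i.a1 i.a2 i.m1
      + (i.m2 * (-36 * (i.x * (i.a1 * (i.a2 * i.a2))) + -6 * (i.x * (i.a1 * (i.a1 * i.a3)))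
        + -7 * (i.a2 * i.a3) + -1 * (i.a1 * i.a4))
        + i.m3 * (52 * (i.x * (i.a1 * (i.a2 * i.a3))) + 120 * (i.x * (i.a2 * (i.a2 * i.a2))))))
    (fun i => by unfold gam; ring) (fun i => by unfold gam; ring)
    (fun i => by unfold rho; ring)) 2 ?_
  refine ((m2_O2 (f := fun i => -36 * (i.x * (i.a1 * (i.a2 * i.a2)))
      + -6 * (i.x * (i.a1 * (i.a1 * i.a3))) + -7 * (i.a2 * i.a3) + -1 * (i.a1 * i.a4)) ?_).add
    (m3_O2 (f := fun i => 52 * (i.x * (i.a1 * (i.a2 * i.a3)))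
      + 120 * (i.x * (i.a2 * (i.a2 * i.a2)))) ?_)).congr_left fun i => ?_
  · exact ((((ob_const _).mul (ob_x.mul (ob_a1.mul (ob_a2.mul ob_a2)))).add
      ((ob_const _).mul (ob_x.mul (ob_a1.mul (ob_a1.mul ob_a3))))).add
      ((ob_const _).mul (ob_a2.mul ob_a3))).add ((ob_const _).mul (ob_a1.mul ob_a4))
  · exact ((ob_const _).mul (ob_x.mul (ob_a1.mul (ob_a2.mul ob_a3)))).add
      ((ob_const _).mul (ob_x.mul (ob_a2.mul (ob_a2.mul ob_a2))))
  · ring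

/-- abbreviation -/
def qq (i : Cell K) : ℝ := 2 * (i.a2 * i.a2) + -6 * (i.x * (i.a1 * (i.a1 * i.a2)))

lemma ob_qq : Ob (fun i : Cell K => qq i) :=
  ((ob_const _).mul (ob_a2.mul ob_a2)).add
      ((ob_const _).mul (ob_x.mul (ob_a1.mul (ob_a1.mul ob_a2))))

theorem rho_inc (K : ℝ) : ∃ C, 0 ≤ C ∧ ∀ i : Cell K,
    |rho i.x i.a1 i.a2 i.m1 - rho i.x i.b1 i.b2 i.l1
      - i.c * (i.a2 ^ 2 + 6 * i.x ^ 2 * i.a1 ^ 4)| ≤ C * (i.c * i.t ^ 1 + i.c * √i.c) := by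
  have h1 := (dv_const (K := K) (-2)).mul (dv_x.mul (dv_a1.mul (dv_a1.mul dv_a1)))
  have h2 := (dv_m1 (K := K)).mul (((dv_const 2).mul (dv_a2.mul dv_a2)).add
    ((dv_const (-6)).mul (dv_x.mul (dv_a1.mul (dv_a1.mul dv_a2)))))
  have h := h1.add h2
  refine final_bd (h.congr (fo' := fun i => rho i.x i.b1 i.b2 i.l1)
    (fn' := fun i => rho i.x i.a1 i.a2 i.m1) (F' := fun i =>
      (i.a2 ^ 2 + 6 * i.x ^ 2 * i.a1 ^ 4)
      + (i.m1 * (2 * (i.x * (i.a1 * qq i))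
          + -2 * (i.a2 * i.a3) + -10 * (i.x * (i.a1 * (i.a2 * i.a2)))
          + 36 * (i.x * (i.x * (i.a1 * (i.a1 * (i.a1 * i.a2)))))
          + 3 * (i.x * (i.a1 * (i.a1 * i.a3))))
        + i.m2 * (4 * (i.x * (i.a2 * qq i)))
        + i.m3 * (6 * (i.x * (i.a3 * qq i)))))
    (fun i => by unfold rho; ring) (fun i => by unfold rho; ring)
    (fun i => by unfold qq; ring)) 1 ?_
  have b1 : Ob (fun i : Cell K => 2 * (i.x * (i.a1 * qq i))
          + -2 * (i.a2 * i.a3) + -10 * (i.x * (i.a1 * (i.a2 * i.a2)))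
          + 36 * (i.x * (i.x * (i.a1 * (i.a1 * (i.a1 * i.a2)))))
          + 3 * (i.x * (i.a1 * (i.a1 * i.a3)))) :=
    (((((ob_const _).mul (ob_x.mul (ob_a1.mul ob_qq))).add ((ob_const _).mul
      (ob_a2.mul ob_a3))).add
      ((ob_const _).mul (ob_x.mul (ob_a1.mul (ob_a2.mul ob_a2))))).add
      ((ob_const _).mul (ob_x.mul (ob_x.mul (ob_a1.mul (ob_a1.mul (ob_a1.mul ob_a2))))))).add
      ((ob_const _).mul (ob_x.mul (ob_a1.mul (ob_a1.mul ob_a3))))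
  have b2 : Ob (fun i : Cell K => 4 * (i.x * (i.a2 * qq i))) :=
    (ob_const _).mul (ob_x.mul (ob_a2.mul ob_qq))
  have b3 : Ob (fun i : Cell K => 6 * (i.x * (i.a3 * qq i))) :=
    (ob_const _).mul (ob_x.mul (ob_a3.mul ob_qq))
  have t2 : ∀ i : Cell K, |i.m2| ≤ i.t := fun i => i.hn2.trans (by
    have := pow_le_pow_of_le_one i.ht0 i.ht1 (show 1 ≤ 2 by norm_num)
    simpa using this)
  have t3 : ∀ i : Cell K, |i.m3| ≤ i.t := fun i => i.hn3.trans (by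
    have := pow_le_pow_of_le_one i.ht0 i.ht1 (show 1 ≤ 3 by norm_num)
    simpa using this)
  refine (((m_O1 (fun i => i.hn1) b1).add (m_O1 t2 b2)).add (m_O1 t3 b3)).congr_left fun i => ?_
  ring

end
end Pool.Agent.LibOS45
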