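import Mathlib

/-!
# One-dimensional Parisi calculus near the critical temperature (definitions)
-/

namespace Pool.Agent.LibOS45
open MeasureTheory ProbabilityTheory

noncomputable section

/-- the standard gaussian law -/
abbrev γ : Measure ℝ := gaussianReal 0 1

/-- one level of the Parisi recursion -/
def TT (m c : ℝ) (A : ℝ → ℝ) (y : ℝ) : ℝ :=
  (1 / m) * Real.log (∫ g, Real.exp (m * A (y + √c * g)) ∂(gaussianReal 0 1))

/-- the nest; pairs (level, time) -/
def nest : List (ℝ × ℝ) → ℝ → ℝ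
  | [] => fun y => Real.log (Real.cosh y)
  | p :: L => TT p.1 p.2 (nest L)

/-- the linear term -/
def pen (q : ℝ → ℝ) : ℝ → List (ℝ × ℝ) → ℝ
  | _, [] => 0
  | s, p :: L => p.1 * (∫ t in s..(s + p.2), q t) + pen q (s + p.2) L

/-- the functional -/
def Pf (q : ℝ → ℝ) (L : List (ℝ × ℝ)) : ℝ := nest L 0 - (1 / 2) * pen q 0 L

/-! ## Gaussian bounds -/

/-- a dominating function -/
def W (g : ℝ) : ℝ := 2000 * Real.exp (5 * |g|)

/-- its integral -/
def J : ℝ := ∫ g, W g ∂γ

lemma W_pos (g : ℝ) : 0 < W g := by unfold W; positivity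

lemma W_cont : Continuous W := by unfold W; fun_prop

lemma W_int : Integrable W γ := by
  unfold W
  apply Integrable.const_mul
  have h1 := integrable_exp_mul_gaussianReal (μ := 0) (v := 1) 5
  have h2 := integrable_exp_mul_gaussianReal (μ := 0) (v := 1) (-5)
  refine (h1.add h2).mono' (by fun_prop) (Filter.Eventually.of_forall fun g => ?_)
  rw [Real.norm_eq_abs, abs_of_pos (Real.exp_pos _)]
  rcases abs_cases g with ⟨h, -⟩ | ⟨h, -⟩ <;> rw [h]
  · have := (Real.exp_pos (-5 * g)).le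
    simp only [Pi.add_apply]; linarith
  · have := (Real.exp_pos (5 * g)).le
    simp only [Pi.add_apply]
    have e : 5 * -g = -5 * g := by ring
    rw [e]; linarith

/-- all the moments we need are dominated by `W` -/
lemma le_W {k : ℕ} (hk : k ≤ 6) {s : ℝ} (hs : s ≤ 4) (g : ℝ) :
    |g| ^ k * Real.exp (s * |g|) ≤ W g := by
  have h0 : 0 ≤ |g| := abs_nonneg g
  have h1 : |g| ^ k ≤ (1 + |g|) ^ 6 :=
    (pow_le_pow_left₀ h0 (by linarith) k).trans (pow_le_pow_right₀ (by linarith) hk)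
  have h2 : (1 + |g|) ^ 6 / (Nat.factorial 6 : ℝ) ≤ Real.exp (1 + |g|) :=
    Real.pow_div_factorial_le_exp (1 + |g|) (by linarith) 6
  have h3 : (Nat.factorial 6 : ℝ) = 720 := by norm_num [Nat.factorial]
  rw [h3] at h2
  have h4 : (1 + |g|) ^ 6 ≤ 720 * Real.exp (1 + |g|) := by
    rw [div_le_iff₀ (by norm_num)] at h2; linarith
  have h5 : Real.exp (s * |g|) ≤ Real.exp (4 * |g|) :=
    Real.exp_le_exp.2 (mul_le_mul_of_nonneg_right hs h0)
  have h6 : Real.exp (1 + |g|) = Real.exp 1 * Real.exp |g| := Real.exp_add _ _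
  have h7 : Real.exp 1 ≤ 2.7182818286 := Real.exp_one_lt_d9.le
  have h8 : Real.exp (5 * |g|) = Real.exp |g| * Real.exp (4 * |g|) := by
    rw [← Real.exp_add]; ring_nf
  unfold W
  calc |g| ^ k * Real.exp (s * |g|) ≤ (720 * Real.exp (1 + |g|)) * Real.exp (4 * |g|) :=
        mul_le_mul (h1.trans h4) h5 (Real.exp_pos _).le (by positivity)
    _ = (720 * Real.exp 1) * Real.exp (5 * |g|) := by rw [h6, h8]; ring
    _ ≤ 2000 * Real.exp (5 * |g|) :=
        mul_le_mul_of_nonneg_right (by linarith) (Real.exp_pos _).le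

lemma one_le_J : 1 ≤ J := by
  have h : ∫ g : ℝ, (1 : ℝ) ∂γ ≤ ∫ g, W g ∂γ := by
    refine integral_mono (integrable_const _) W_int fun g => ?_
    have := le_W (k := 0) (by norm_num) (s := 0) (by norm_num) g
    simpa using this
  simpa [J] using h

lemma J_pos : 0 < J := lt_of_lt_of_le one_pos one_le_J

/-- the main source of integrability -/
lemma int_of_W {f : ℝ → ℂ} (hf : Continuous f) {C : ℝ} (hb : ∀ g, ‖f g‖ ≤ C * W g) :
    Integrable f γ :=
  (W_int.const_mul C).mono' hf.aestronglyMeasurable (Filter.Eventually.of_forall hb)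

lemma norm_int_le_W {f : ℝ → ℂ} {C : ℝ} (hb : ∀ g, ‖f g‖ ≤ C * W g) :
    ‖∫ g, f g ∂γ‖ ≤ C * J := by
  refine (norm_integral_le_of_norm_le (W_int.const_mul C)
    (Filter.Eventually.of_forall hb)).trans ?_
  rw [integral_const_mul, J]

/-- first moment -/
lemma int_h (c : ℝ) : ∫ g : ℝ, ((√c * g : ℝ) : ℂ) ∂γ = 0 := by
  rw [integral_complex_ofReal, integral_const_mul, integral_id_gaussianReal]; simp

lemma int_h_sq {c : ℝ} (hc : 0 ≤ c) : ∫ g : ℝ, (√c * g) ^ 2 ∂γ = c := by
  have h1 : Var[fun x ↦ x; gaussianReal 0 1] = ((1 : NNReal) : ℝ) := variance_fun_id_gaussianReal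
  rw [variance_eq_integral (by fun_prop), integral_id_gaussianReal] at h1
  simp only [sub_zero, NNReal.coe_one] at h1
  calc ∫ g : ℝ, (√c * g) ^ 2 ∂γ = ∫ g : ℝ, c * g ^ 2 ∂γ := by
        congr 1; ext g; rw [mul_pow, Real.sq_sqrt hc]
    _ = c := by rw [integral_const_mul, h1, mul_one]

end
end Pool.Agent.LibOS45
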