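import Pool.Agent.LibOS45.Lip

/-!
# One level: first order expansion in the time
-/

namespace Pool.Agent.LibOS45
open MeasureTheory ProbabilityTheory

noncomputable section

section tay
variable {r N1 N2 N3 m c : ℝ} {B : ℂ → ℂ} {z : ℂ}

lemma third_le (h : Cl r N1 N2 B) {ρ : ℝ} (hρ : 0 < ρ) (hz : z ∈ St (r - ρ)) :
    ‖deriv (deriv (deriv B)) z‖ ≤ N2 / (ρ / 2) := by
  have hsub : Metric.closedBall z (ρ / 2) ⊆ St r := by
    intro w hw
    have h1 : |(w - z).im| ≤ ρ / 2 :=
      (Complex.abs_im_le_norm _).trans (by simpa [dist_eq_norm] using hw)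
    have h2 : |z.im| < r - ρ := hz
    have h3 : w.im = (w - z).im + z.im := by simp
    show |w.im| < r
    rw [h3]
    exact (abs_add_le _ _).trans_lt (by linarith)
  have hd : DifferentiableOn ℂ (deriv (deriv B)) (closure (Metric.ball z (ρ / 2))) := by
    refine h.diff''.mono ?_
    exact (Metric.closure_ball_subset_closedBall).trans hsub
  refine Complex.norm_deriv_le_of_forall_mem_sphere_norm_le (by linarith)
    (hd.diffContOnCl) fun w hw => h.b2 w (hsub (Metric.sphere_subset_closedBall hw))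

lemma inc3 (h : Cl r N1 N2 B) {ρ : ℝ} (hρ : 0 < ρ) (hz : z ∈ St (r - ρ)) (x : ℝ) :
    ‖B (z + x) - B z - deriv B z * x - deriv (deriv B) z * x ^ 2 / 2‖
      ≤ (N2 / (ρ / 2)) * |x| ^ 3 := by
  set s := St (r - ρ) ∩ Metric.closedBall z |x| with hs
  have hN : 0 ≤ N2 / (ρ / 2) := (norm_nonneg _).trans (third_le h hρ hz)
  have hcv : Convex ℝ s := (convex_St _).inter (convex_closedBall _ _)
  have hsub : ∀ w ∈ St (r - ρ), w ∈ St r := fun w hw => by
    have : |w.im| < r - ρ := hw
    show |w.im| < r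
    linarith
  have hmz : z ∈ s := ⟨hz, by simp⟩
  have hmx : z + x ∈ s := ⟨St_add hz x, by simp [dist_eq_norm]⟩
  have hns : ∀ w ∈ s, ‖w - z‖ ≤ |x| := fun w hw => by simpa [dist_eq_norm] using hw.2
  -- second derivative
  have a2 : ∀ w ∈ s, ‖deriv (deriv B) w - deriv (deriv B) z‖ ≤ (N2 / (ρ / 2)) * |x| := by
    intro w hw
    refine (hcv.norm_image_sub_le_of_norm_deriv_le (f := deriv (deriv B))
      (fun w hw => h.diff''.differentiableAt ((isOpen_St r).mem_nhds (hsub w hw.1)))
      (fun w hw => third_le h hρ hw.1) hmz hw).trans ?_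
    exact mul_le_mul_of_nonneg_left (hns w hw) hN
  -- first derivative
  have a1 : ∀ w ∈ s, ‖deriv B w - deriv B z - deriv (deriv B) z * (w - z)‖
      ≤ (N2 / (ρ / 2)) * |x| * |x| := by
    intro w hw
    have hd : ∀ w ∈ s, HasDerivAt (fun w => deriv B w - deriv (deriv B) z * (w - z))
        (deriv (deriv B) w - deriv (deriv B) z) w := fun w hw => by
      have h1 := (h.diffAt' (hsub w hw.1)).hasDerivAt.sub
        (((hasDerivAt_id w).sub_const z).const_mul (deriv (deriv B) z))
      exact h1.congr_deriv (by ring)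
    have := hcv.norm_image_sub_le_of_norm_hasDerivWithin_le
      (f := fun w => deriv B w - deriv (deriv B) z * (w - z))
      (fun w hw => (hd w hw).hasDerivWithinAt) (fun w hw => a2 w hw) hmz hw
    simp only [sub_self, mul_zero, sub_zero] at this
    have e : deriv B w - deriv (deriv B) z * (w - z) - deriv B z
        = deriv B w - deriv B z - deriv (deriv B) z * (w - z) := by ring
    rw [e] at this
    exact this.trans (mul_le_mul_of_nonneg_left (hns w hw) (by positivity))
  have hd : ∀ w ∈ s, HasDerivAt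
      (fun w => B w - deriv B z * (w - z) - deriv (deriv B) z * (w - z) ^ 2 / 2)
      (deriv B w - deriv B z - deriv (deriv B) z * (w - z)) w := fun w hw => by
    have h0 : HasDerivAt (fun w => w - z) 1 w := (hasDerivAt_id w).sub_const z
    have h1 := ((h.diffAt (hsub w hw.1)).hasDerivAt.sub (h0.const_mul (deriv B z))).sub
      (((h0.pow 2).const_mul (deriv (deriv B) z)).div_const 2)
    exact h1.congr_deriv (by simp only [Nat.cast_ofNat]; ring)
  have := hcv.norm_image_sub_le_of_norm_hasDerivWithin_le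
      (f := fun w => B w - deriv B z * (w - z) - deriv (deriv B) z * (w - z) ^ 2 / 2)
      (fun w hw => (hd w hw).hasDerivWithinAt) (fun w hw => a1 w hw) hmz hmx
  simp only [sub_self, mul_zero, sub_zero, add_sub_cancel_left, Complex.norm_real,
    Real.norm_eq_abs, ne_eq, OfNat.ofNat_ne_zero, not_false_eq_true, zero_pow, zero_div] at this
  have e : B (z + x) - deriv B z * x - deriv (deriv B) z * x ^ 2 / 2 - B z
      = B (z + x) - B z - deriv B z * x - deriv (deriv B) z * x ^ 2 / 2 := by ring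
  rw [e] at this
  exact this.trans (le_of_eq (by ring))

lemma exp_sub_le2 (w : ℂ) : ‖Complex.exp w - 1 - w - w ^ 2 / 2‖ ≤ ‖w‖ ^ 3 * Real.exp ‖w‖ := by
  have := Complex.norm_exp_sub_sum_le_norm_mul_exp w 3
  have e : Complex.exp w - 1 - w - w ^ 2 / 2
      = Complex.exp w - ∑ m ∈ Finset.range 3, w ^ m / (m.factorial : ℂ) := by
    simp [Finset.sum_range_succ, Nat.factorial]; ring
  rw [e]; exact this

/-- remainder of the first order expansion of one level -/
lemma TC_taylor (h : Cl r N1 N2 B) (hN1 : N1 ≤ 2) (hN2 : N2 ≤ 4) {ρ : ℝ} (hρ : 0 < ρ)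
    (hz : z ∈ St (r - ρ)) (ha : Adm m c) :
    ‖TC m c B z - B z - (c / 2 : ℂ) * (deriv (deriv B) z + (m : ℂ) * (deriv B z) ^ 2)‖
      ≤ (C1 ^ 2 + 16 * J + (8 / ρ) * J) * (c * √c) := by
  have ha' := ha
  obtain ⟨m0, m1, c0, c1, cs⟩ := ha
  have hsub : z ∈ St r := by
    have : |z.im| < r - ρ := hz
    show |z.im| < r
    linarith
  have hJ := J_pos
  set N3 := N2 / (ρ / 2) with hN3
  have hN3' : N3 ≤ 8 / ρ := by
    rw [hN3, div_le_div_iff₀ (by linarith) hρ]; nlinarith
  have hN30 : 0 ≤ N3 := (norm_nonneg _).trans (third_le h hρ hz)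
  set w := wc m c B z with hw
  set b1 := deriv B z with hb1
  set b2 := deriv (deriv B) z with hb2
  have hb1n : ‖b1‖ ≤ 2 := (h.b1 z hsub).trans hN1
  have hb2n : ‖b2‖ ≤ 4 := (h.b2 z hsub).trans hN2
  have hsq : ∀ g, (hh c g) ^ 2 = (((√c * g) ^ 2 : ℝ) : ℂ) := fun g => by
    unfold hh; push_cast; ring
  -- pointwise expansion
  have hpt : ∀ g, ‖Complex.exp (w g) - 1 - (m : ℂ) * b1 * hh c g
      - ((m : ℂ) * b2 / 2 + (m : ℂ) ^ 2 * b1 ^ 2 / 2) * (((√c * g) ^ 2 : ℝ) : ℂ)‖
        ≤ (m * (c * √c) * (16 + N3)) * W g := by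
    intro g
    rw [← hsq]
    have e : Complex.exp (w g) - 1 - (m : ℂ) * b1 * hh c g
        - ((m : ℂ) * b2 / 2 + (m : ℂ) ^ 2 * b1 ^ 2 / 2) * (hh c g) ^ 2
        = (Complex.exp (w g) - 1 - w g - (w g) ^ 2 / 2)
          + (m : ℂ) * (B (z + hh c g) - B z - b1 * hh c g - b2 * (hh c g) ^ 2 / 2)
          + (w g - (m : ℂ) * b1 * hh c g) * (w g + (m : ℂ) * b1 * hh c g) / 2 := by
      simp only [hw, wc]; ring
    rw [e]
    have hg0 : 0 ≤ √c * |g| := by positivity
    have t1 : ‖Complex.exp (w g) - 1 - w g - (w g) ^ 2 / 2‖ ≤ (8 * m * (c * √c)) * W g := by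
      refine (exp_sub_le2 _).trans ?_
      have h1 := norm_wc_le h hN1 hsub m0.le (c := c) g
      have h2 := norm_wc_le' h hN1 hsub m0.le m1 c1 g
      have h3 : ‖w g‖ ^ 3 ≤ 8 * m * (c * √c) * |g| ^ 3 := by
        calc ‖w g‖ ^ 3 ≤ (m * (2 * (√c * |g|))) ^ 3 := pow_le_pow_left₀ (norm_nonneg _) h1 3
          _ = m ^ 3 * (8 * (√c ^ 2 * √c) * |g| ^ 3) := by ring
          _ = m ^ 3 * (8 * (c * √c) * |g| ^ 3) := by rw [Real.sq_sqrt c0]
          _ ≤ m * (8 * (c * √c) * |g| ^ 3) := by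
              refine mul_le_mul_of_nonneg_right ?_ (by positivity)
              calc m ^ 3 = m * m ^ 2 := by ring
                _ ≤ m * 1 := by
                    refine mul_le_mul_of_nonneg_left ?_ m0.le
                    exact pow_le_one₀ m0.le m1
                _ = m := mul_one m
          _ = 8 * m * (c * √c) * |g| ^ 3 := by ring
      calc ‖w g‖ ^ 3 * Real.exp ‖w g‖ ≤ (8 * m * (c * √c) * |g| ^ 3) * Real.exp (2 * |g|) :=
            mul_le_mul h3 (Real.exp_le_exp.2 h2) (Real.exp_pos _).le (by positivity)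
        _ = (8 * m * (c * √c)) * (|g| ^ 3 * Real.exp (2 * |g|)) := by ring
        _ ≤ (8 * m * (c * √c)) * W g :=
            mul_le_mul_of_nonneg_left (le_W (by norm_num) (by norm_num) g) (by positivity)
    have hg3 : (√c * |g|) ^ 3 ≤ (c * √c) * W g := by
      calc (√c * |g|) ^ 3 = (√c ^ 2 * √c) * |g| ^ 3 := by ring
        _ = (c * √c) * |g| ^ 3 := by rw [Real.sq_sqrt c0]
        _ ≤ (c * √c) * W g := by
            refine mul_le_mul_of_nonneg_left ?_ (by positivity)
            have := le_W (k := 3) (by norm_num) (s := 0) (by norm_num) g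
            simpa using this
    have t2 : ‖(m : ℂ) * (B (z + hh c g) - B z - b1 * hh c g - b2 * (hh c g) ^ 2 / 2)‖
        ≤ (m * N3 * (c * √c)) * W g := by
      rw [norm_mul, Complex.norm_real, Real.norm_eq_abs, abs_of_pos m0]
      have h1 := inc3 h hρ hz (√c * g)
      rw [abs_sg] at h1
      have h2 : ‖B (z + hh c g) - B z - b1 * hh c g - b2 * (hh c g) ^ 2 / 2‖
          ≤ N3 * ((c * √c) * W g) := h1.trans (mul_le_mul_of_nonneg_left hg3 hN30)
      calc _ ≤ m * (N3 * ((c * √c) * W g)) := mul_le_mul_of_nonneg_left h2 m0.le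
        _ = _ := by ring
    have t3 : ‖(w g - (m : ℂ) * b1 * hh c g) * (w g + (m : ℂ) * b1 * hh c g) / 2‖
        ≤ (8 * m * (c * √c)) * W g := by
      have h1 : ‖w g - (m : ℂ) * b1 * hh c g‖ ≤ m * (4 * (√c * |g|) ^ 2) := by
        have e2 : w g - (m : ℂ) * b1 * hh c g
            = (m : ℂ) * (B (z + hh c g) - B z - b1 * hh c g) := by simp only [hw, wc]; ring
        rw [e2, norm_mul, Complex.norm_real, Real.norm_eq_abs, abs_of_pos m0]
        refine mul_le_mul_of_nonneg_left ?_ m0.le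
        have h1 := h.inc2 hsub (√c * g)
        rw [abs_sg] at h1
        exact h1.trans (mul_le_mul_of_nonneg_right hN2 (by positivity))
      have h2 : ‖w g + (m : ℂ) * b1 * hh c g‖ ≤ 4 * (√c * |g|) := by
        refine (norm_add_le _ _).trans ?_
        have h3 := norm_wc_le h hN1 hsub m0.le (c := c) g
        have h4 : ‖(m : ℂ) * b1 * hh c g‖ ≤ m * (2 * (√c * |g|)) := by
          rw [norm_mul, norm_mul, Complex.norm_real, Real.norm_eq_abs, abs_of_pos m0, norm_hh,
            mul_assoc]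
          exact mul_le_mul_of_nonneg_left (mul_le_mul_of_nonneg_right hb1n hg0) m0.le
        have h5 : m * (2 * (√c * |g|)) ≤ 1 * (2 * (√c * |g|)) :=
          mul_le_mul_of_nonneg_right m1 (by positivity)
        have h3' : ‖w g‖ ≤ m * (2 * (√c * |g|)) := h3
        linarith
      rw [norm_div, norm_mul]
      have h6 : ‖w g - (m : ℂ) * b1 * hh c g‖ * ‖w g + (m : ℂ) * b1 * hh c g‖
          ≤ (m * (4 * (√c * |g|) ^ 2)) * (4 * (√c * |g|)) :=
        mul_le_mul h1 h2 (norm_nonneg _) (by positivity)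
      have h7 : (m * (4 * (√c * |g|) ^ 2)) * (4 * (√c * |g|)) ≤ (16 * m) * ((c * √c) * W g) := by
        calc _ = (16 * m) * (√c * |g|) ^ 3 := by ring
          _ ≤ _ := mul_le_mul_of_nonneg_left hg3 (by positivity)
      have h8 : ‖(2 : ℂ)‖ = 2 := by simp
      rw [h8, div_le_iff₀ (by norm_num)]
      refine h6.trans (h7.trans (le_of_eq (by ring)))
    refine (norm_add₃_le).trans ((add_le_add (add_le_add t1 t2) t3).trans (le_of_eq (by ring)))
  -- integrate
  have iE := cexp_int h hN1 hsub m0.le m1 c1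
  have i1 : Integrable (fun g => (m : ℂ) * b1 * hh c g) γ := by
    refine int_of_W (C := ‖(m : ℂ) * b1‖) (continuous_const.mul (hh_cont c)) fun g => ?_
    rw [norm_mul, norm_hh]
    refine mul_le_mul_of_nonneg_left ?_ (norm_nonneg _)
    have := le_W (k := 1) (by norm_num) (s := 0) (by norm_num) g
    simp only [pow_one, zero_mul, Real.exp_zero, mul_one] at this
    exact (sg_le c1 g).trans this
  have i2 : Integrable (fun g : ℝ => (((√c * g) ^ 2 : ℝ) : ℂ)) γ := by
    refine int_of_W (C := 1) (by fun_prop) fun g => ?_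
    rw [Complex.norm_real, Real.norm_eq_abs, abs_of_nonneg (sq_nonneg _), mul_pow,
      Real.sq_sqrt c0, one_mul]
    have := le_W (k := 2) (by norm_num) (s := 0) (by norm_num) g
    simp only [zero_mul, Real.exp_zero, mul_one, sq_abs] at this
    have h9 := mul_le_mul_of_nonneg_right c1 (sq_nonneg g); linarith only [h9, this]
  have hM : ‖MM m c B z - 1 - ((m : ℂ) * b2 / 2 + (m : ℂ) ^ 2 * b1 ^ 2 / 2) * (c : ℂ)‖
      ≤ (m * (c * √c) * (16 + N3)) * J := by
    have hk : MM m c B z - 1 - ((m : ℂ) * b2 / 2 + (m : ℂ) ^ 2 * b1 ^ 2 / 2) * (c : ℂ)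
        = ∫ g, (Complex.exp (w g) - 1 - (m : ℂ) * b1 * hh c g
      - ((m : ℂ) * b2 / 2 + (m : ℂ) ^ 2 * b1 ^ 2 / 2) * (((√c * g) ^ 2 : ℝ) : ℂ)) ∂γ := by
      have j1 : Integrable (fun g => Complex.exp (w g) - 1) γ := iE.sub (integrable_const _)
      have j2 : Integrable (fun g => Complex.exp (w g) - 1 - (m : ℂ) * b1 * hh c g) γ := j1.sub i1
      rw [integral_sub j2 (i2.const_mul _), integral_sub j1 i1, integral_sub iE (integrable_const _),
        integral_const_mul, integral_const_mul, integral_complex_ofReal, int_h_sq c0]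
      have : ∫ g, hh c g ∂γ = 0 := by unfold hh; exact int_h c
      rw [this]; simp [MM, hw]
    rw [hk]
    exact norm_int_le_W hpt
  have hhalf := MM_half h hN1 hN2 hsub m0.le m1 c0 c1 cs
  have hM1 := MM_sub_one_le h hN1 hN2 hsub m0.le m1 c0 c1
  have hlog : ‖Complex.log (MM m c B z) - (MM m c B z - 1)‖ ≤ (C1 * m * c) ^ 2 := by
    have h1 := Complex.norm_log_one_add_sub_self_le (z := MM m c B z - 1) (by linarith)
    rw [add_sub_cancel] at h1
    refine h1.trans ?_
    have h2 : (1 - ‖MM m c B z - 1‖)⁻¹ ≤ 2 := by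
      rw [inv_le_comm₀ (by linarith) (by norm_num)]; linarith
    have h3 : 0 ≤ ‖MM m c B z - 1‖ ^ 2 := by positivity
    have h4 : ‖MM m c B z - 1‖ ^ 2 ≤ (C1 * m * c) ^ 2 := pow_le_pow_left₀ (norm_nonneg _) hM1 2
    have h5 := mul_le_mul_of_nonneg_left h2 h3; linarith only [h5, h4]
  have hmz : (m : ℂ) ≠ 0 := by exact_mod_cast m0.ne'
  have e : TC m c B z - B z - (c / 2 : ℂ) * (b2 + (m : ℂ) * b1 ^ 2)
      = (1 / (m : ℂ)) * ((Complex.log (MM m c B z) - (MM m c B z - 1))
        + (MM m c B z - 1 - ((m : ℂ) * b2 / 2 + (m : ℂ) ^ 2 * b1 ^ 2 / 2) * (c : ℂ))) := by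
    unfold TC; field_simp; ring
  rw [e, norm_mul, norm_div, norm_one, Complex.norm_real, Real.norm_eq_abs, abs_of_pos m0,
    one_div, inv_mul_le_iff₀ m0]
  refine (norm_add_le _ _).trans ((add_le_add hlog hM).trans ?_)
  have hcc : c ^ 2 ≤ c * √c := by
    have h1 : c ≤ √c := by
      rw [Real.le_sqrt c0 c0]; have h9 := mul_le_mul_of_nonneg_left c1 c0; linarith only [h9]
    have h9 := mul_le_mul_of_nonneg_left h1 c0; linarith only [h9]
  have h1 : (C1 * m * c) ^ 2 ≤ m * (C1 ^ 2 * (c * √c)) := by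
    calc (C1 * m * c) ^ 2 = (m * m) * (C1 ^ 2 * c ^ 2) := by ring
      _ ≤ (m * 1) * (C1 ^ 2 * (c * √c)) := by
          refine mul_le_mul (mul_le_mul_of_nonneg_left m1 m0.le)
            (mul_le_mul_of_nonneg_left hcc (sq_nonneg _)) (by positivity) (by positivity)
      _ = _ := by ring
  have h2 : (m * (c * √c) * (16 + N3)) * J ≤ m * ((16 * J + (8 / ρ) * J) * (c * √c)) := by
    have h3 : (16 + N3) * J ≤ 16 * J + (8 / ρ) * J := by have h9 := mul_le_mul_of_nonneg_right hN3' J_pos.le; linarith only [h9]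
    calc (m * (c * √c) * (16 + N3)) * J = (m * (c * √c)) * ((16 + N3) * J) := by ring
      _ ≤ (m * (c * √c)) * (16 * J + (8 / ρ) * J) :=
          mul_le_mul_of_nonneg_left h3 (by positivity)
      _ = _ := by ring
  calc _ ≤ m * (C1 ^ 2 * (c * √c)) + m * ((16 * J + (8 / ρ) * J) * (c * √c)) := add_le_add h1 h2
    _ = _ := by ring

end tay

end
end Pool.Agent.LibOS45
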