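import Pool.Agent.LibOS45.LogCosh
import Pool.Agent.LibOS45.Taylor

/-!
# Taylor coefficients at the origin
-/

namespace Pool.Agent.LibOS45
open MeasureTheory ProbabilityTheory

noncomputable section

/-- even function, real on the real line, in the class -/
structure Fn (B : ℂ → ℂ) : Prop where
  cl : Cl (3 / 4) 2 4 B
  re : ∀ y : ℝ, (B y).im = 0
  ev : ∀ z ∈ St (3 / 4), B (-z) = B z

lemma zero_mem_St {r : ℝ} (hr : 0 < r) : (0 : ℂ) ∈ St r := by simpa [St] using hr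

lemma real_mem_St {r : ℝ} (hr : 0 < r) (y : ℝ) : (y : ℂ) ∈ St r := by simpa [St] using hr

lemma diffOn_iter {r : ℝ} {f : ℂ → ℂ} (hf : DifferentiableOn ℂ f (St r)) (n : ℕ) :
    DifferentiableOn ℂ (iteratedDeriv n f) (St r) := by
  induction n with
  | zero => simpa using hf
  | succ n ih => rw [iteratedDeriv_succ]; exact ih.deriv (isOpen_St r)

lemma contDiffAt_of {r : ℝ} (hr : 0 < r) {f : ℂ → ℂ} (hf : DifferentiableOn ℂ f (St r)) (n : ℕ) :
    ContDiffAt ℂ n f 0 :=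
  (hf.analyticAt ((isOpen_St r).mem_nhds (zero_mem_St hr))).contDiffAt

lemma iter_real {r : ℝ} (hr : 0 < r) {f : ℂ → ℂ} (hf : DifferentiableOn ℂ f (St r))
    (hre : ∀ y : ℝ, (f y).im = 0) (n : ℕ) : ∀ y : ℝ, (iteratedDeriv n f y).im = 0 := by
  induction n with
  | zero => simpa using hre
  | succ n ih =>
    intro y
    have h1 : HasDerivAt (iteratedDeriv n f) (iteratedDeriv (n + 1) f y) (y : ℂ) := by
      rw [iteratedDeriv_succ]
      exact ((diffOn_iter hf n).differentiableAt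
        ((isOpen_St r).mem_nhds (real_mem_St hr y))).hasDerivAt
    have h2 : HasDerivAt (fun t : ℝ => iteratedDeriv n f (t : ℂ)) (iteratedDeriv (n + 1) f y) y :=
      h1.comp_ofReal
    have h3 : HasDerivAt (fun t : ℝ => (iteratedDeriv n f (t : ℂ)).im)
        (iteratedDeriv (n + 1) f y).im y :=
      Complex.imCLM.hasFDerivAt.comp_hasDerivAt y h2
    have h4 : (fun t : ℝ => (iteratedDeriv n f (t : ℂ)).im) = fun _ => 0 := by
      ext t; exact ih t
    rw [h4] at h3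
    exact h3.unique (hasDerivAt_const y (0 : ℝ)) 

lemma iter_odd {r : ℝ} (hr : 0 < r) {f : ℂ → ℂ} (he : ∀ z ∈ St r, f (-z) = f z) {n : ℕ}
    (hn : Odd n) : iteratedDeriv n f 0 = 0 := by
  have h1 : (fun z => f (-z)) =ᶠ[nhds 0] f := by
    filter_upwards [(isOpen_St r).mem_nhds (zero_mem_St hr)] with z hz
    exact he z hz
  have h2 := h1.iteratedDeriv_eq n
  rw [iteratedDeriv_comp_neg, neg_zero, hn.neg_one_pow] at h2
  have h3 : (2 : ℂ) * iteratedDeriv n f 0 = 0 := by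
    rw [smul_eq_mul, neg_one_mul] at h2
    linear_combination -h2
  simpa using h3

lemma iter_bound {f : ℂ → ℂ} (hf : DifferentiableOn ℂ f (St (1 / 2))) {M : ℝ}
    (hM : ∀ z ∈ St (1 / 2), ‖f z‖ ≤ M) (n : ℕ) :
    ‖iteratedDeriv n f 0‖ ≤ n.factorial * M * 4 ^ n := by
  have hsub : Metric.closedBall (0 : ℂ) (1 / 4) ⊆ St (1 / 2) := by
    intro w hw
    have h1 : |w.im| ≤ 1 / 4 :=
      (Complex.abs_im_le_norm _).trans (by simpa [dist_eq_norm] using hw)
    show |w.im| < 1 / 2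
    linarith
  have h := Complex.norm_iteratedDeriv_le_of_forall_mem_sphere_norm_le (c := 0) (R := 1 / 4)
    (C := M) (f := f) n (by norm_num)
    ((hf.mono (Metric.closure_ball_subset_closedBall.trans hsub)).diffContOnCl)
    (fun z hz => hM z (hsub (Metric.sphere_subset_closedBall hz)))
  refine h.trans (le_of_eq ?_)
  rw [one_div, inv_pow, div_inv_eq_mul]

lemma St_mono {r s : ℝ} (h : r ≤ s) : St r ⊆ St s := fun z hz => by
  have : |z.im| < r := hz
  show |z.im| < s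
  linarith

/-- even Taylor coefficients (derivatives at `0`) -/
def cf (k : ℕ) (f : ℂ → ℂ) : ℝ := (iteratedDeriv (2 * k) f 0).re

lemma Fn.iter_eq {B : ℂ → ℂ} (h : Fn B) (k : ℕ) :
    iteratedDeriv (2 * k) B 0 = (cf k B : ℂ) := by
  have h1 := iter_real (by norm_num : (0 : ℝ) < 3 / 4) h.cl.diff h.re (2 * k) 0
  rw [Complex.ofReal_zero] at h1
  exact Complex.ext (by simp [cf]) (by simp [h1])

/-- the quadratic terms -/
def QQ (k : ℕ) (a : ℕ → ℝ) : ℝ :=
  match k with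
  | 0 => 0
  | 1 => 2 * a 1 ^ 2
  | 2 => 8 * a 1 * a 2
  | _ => 12 * a 1 * a 3 + 20 * a 2 ^ 2

lemma Fn.leibniz {B : ℂ → ℂ} (h : Fn B) (k : ℕ) (hk : k ≤ 3) :
    iteratedDeriv (2 * k) (deriv B * deriv B) 0 = (QQ k (fun j => cf j B) : ℂ) := by
  have hr : (0 : ℝ) < 3 / 4 := by norm_num
  have hc : ContDiffAt ℂ ((2 * k : ℕ)) (deriv B) 0 := contDiffAt_of hr h.cl.diff' (2 * k)
  rw [iteratedDeriv_mul hc hc]
  simp only [← iteratedDeriv_succ']
  have o1 : iteratedDeriv 1 B 0 = 0 := iter_odd hr h.ev (by decide)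
  have o3 : iteratedDeriv 3 B 0 = 0 := iter_odd hr h.ev (by decide)
  have o5 : iteratedDeriv 5 B 0 = 0 := iter_odd hr h.ev (by decide)
  have o7 : iteratedDeriv 7 B 0 = 0 := iter_odd hr h.ev (by decide)
  have e1 : iteratedDeriv 2 B 0 = (cf 1 B : ℂ) := h.iter_eq 1
  have e2 : iteratedDeriv 4 B 0 = (cf 2 B : ℂ) := h.iter_eq 2
  have e3 : iteratedDeriv 6 B 0 = (cf 3 B : ℂ) := h.iter_eq 3
  interval_cases k
  · simp [QQ, o1]
  · simp [Finset.sum_range_succ, QQ, e1, o1, o3, Nat.choose]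
    ring
  · simp [Finset.sum_range_succ, QQ, e1, e2, o1, o3, o5, Nat.choose]
    ring
  · simp [Finset.sum_range_succ, QQ, e1, e2, e3, o1, o3, o5, o7, Nat.choose]
    ring

lemma Fn.bound {B : ℂ → ℂ} (h : Fn B) (k : ℕ) (hk : 1 ≤ k) (hk4 : k ≤ 4) :
    |cf k B| ≤ 2 * 5040 * 4 ^ 7 := by
  obtain ⟨n, rfl⟩ : ∃ n, k = n + 1 := ⟨k - 1, by omega⟩
  have h1 : iteratedDeriv (2 * (n + 1)) B 0 = iteratedDeriv (2 * n + 1) (deriv B) 0 := by
    rw [← iteratedDeriv_succ']
    rfl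
  have h2 := iter_bound (f := deriv B) (h.cl.diff'.mono (St_mono (by norm_num))) (M := 2)
    (fun z hz => h.cl.b1 z (St_mono (by norm_num) hz)) (2 * n + 1)
  rw [← h1] at h2
  have h3 : |cf (n + 1) B| ≤ ‖iteratedDeriv (2 * (n + 1)) B 0‖ := Complex.abs_re_le_norm _
  refine h3.trans (h2.trans ?_)
  have hn : n ≤ 3 := by omega
  have f1 : ((2 * n + 1).factorial : ℝ) ≤ 5040 := by
    have : (2 * n + 1).factorial ≤ Nat.factorial 7 := Nat.factorial_le (by omega)
    have h7 : Nat.factorial 7 = 5040 := by decide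
    rw [h7] at this
    exact_mod_cast this
  have f2 : (4 : ℝ) ^ (2 * n + 1) ≤ 4 ^ 7 := pow_le_pow_right₀ (by norm_num) (by omega)
  have f3 : (0 : ℝ) < 4 ^ (2 * n + 1) := by positivity
  nlinarith

lemma cf_sub_le {A B : ℂ → ℂ} (hA : Fn A) (hB : Fn B) {δ : ℝ}
    (hδ : ∀ z ∈ St (3 / 4), ‖B z - A z‖ ≤ δ) (k : ℕ) (hk : k ≤ 4) :
    |cf k B - cf k A| ≤ 40320 * 4 ^ 8 * δ := by
  have hr : (0 : ℝ) < 3 / 4 := by norm_num
  have hδ0 : 0 ≤ δ := (norm_nonneg _).trans (hδ 0 (zero_mem_St hr))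
  have h1 : iteratedDeriv (2 * k) (B - A) 0
      = iteratedDeriv (2 * k) B 0 - iteratedDeriv (2 * k) A 0 :=
    iteratedDeriv_sub (contDiffAt_of hr hB.cl.diff _) (contDiffAt_of hr hA.cl.diff _)
  have h2 := iter_bound (f := B - A)
    ((hB.cl.diff.sub hA.cl.diff).mono (St_mono (by norm_num))) (M := δ)
    (fun z hz => hδ z (St_mono (by norm_num) hz)) (2 * k)
  have h3 : |cf k B - cf k A| ≤ ‖iteratedDeriv (2 * k) (B - A) 0‖ := by
    have : cf k B - cf k A = (iteratedDeriv (2 * k) (B - A) 0).re := by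
      rw [h1]; simp [cf]
    rw [this]; exact Complex.abs_re_le_norm _
  refine h3.trans (h2.trans ?_)
  have f1 : ((2 * k).factorial : ℝ) ≤ 40320 := by
    have : (2 * k).factorial ≤ Nat.factorial 8 := Nat.factorial_le (by omega)
    have h7 : Nat.factorial 8 = 40320 := by decide
    rw [h7] at this
    exact_mod_cast this
  have f2 : (4 : ℝ) ^ (2 * k) ≤ 4 ^ 8 := pow_le_pow_right₀ (by norm_num) (by omega)
  have f3 : (0 : ℝ) < 4 ^ (2 * k) := by positivity
  calc ((2 * k).factorial : ℝ) * δ * 4 ^ (2 * k) ≤ 40320 * δ * 4 ^ 8 := by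
        refine mul_le_mul (mul_le_mul_of_nonneg_right f1 hδ0) f2 f3.le (by positivity)
    _ = _ := by ring

/-- the step preserves everything but the constants -/
lemma Fn.step {B : ℂ → ℂ} (h : Fn B) {m c : ℝ} (ha : Adm m c)
    (hcl : Cl (3 / 4) 2 4 (TC m c B)) : Fn (TC m c B) := by
  refine ⟨hcl, fun y => ?_, fun z hz => TC_even h.ev hz⟩
  have := TC_real (b := fun y => (B y).re) h.cl (fun y => Complex.ext (by simp) (by simp [h.re]))
    ha y
  rw [this]; simp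

/-- constant in the recursion -/
def C4 : ℝ := 720 * 4 ^ 6 * (C1 ^ 2 + 48 * J)

lemma C4_pos : 0 < C4 := by
  unfold C4; have := J_pos; positivity

lemma cf_step {B : ℂ → ℂ} (h : Fn B) {m c : ℝ} (ha : Adm m c)
    (hcl : Cl (3 / 4) 2 4 (TC m c B)) (k : ℕ) (hk : k ≤ 3) :
    |cf k (TC m c B) - cf k B - (c / 2) * (cf (k + 1) B + m * QQ k (fun j => cf j B))|
      ≤ C4 * (c * √c) := by
  have hr : (0 : ℝ) < 3 / 4 := by norm_num
  have hT : Fn (TC m c B) := h.step ha hcl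
  set R : ℂ → ℂ := (TC m c B - B) - ((c / 2 : ℂ) • (deriv (deriv B))
    + (c / 2 * m : ℂ) • (deriv B * deriv B)) with hR
  have cT := contDiffAt_of hr hcl.diff (2 * k)
  have cB := contDiffAt_of hr h.cl.diff (2 * k)
  have cB1 := contDiffAt_of hr h.cl.diff' (2 * k)
  have cB2 := contDiffAt_of hr h.cl.diff'' (2 * k)
  have e2 : iteratedDeriv (2 * k) (deriv (deriv B)) 0 = (cf (k + 1) B : ℂ) := by
    rw [← iteratedDeriv_succ', ← iteratedDeriv_succ', ← h.iter_eq]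
    rfl
  have eR : iteratedDeriv (2 * k) R 0 = ((cf k (TC m c B) - cf k B - (c / 2) *
      (cf (k + 1) B + m * QQ k (fun j => cf j B)) : ℝ) : ℂ) := by
    have h0 : ContDiffAt ℂ (2 * k : ℕ) (deriv B * deriv B) 0 := cB1.mul cB1
    have h1 : ContDiffAt ℂ (2 * k : ℕ) ((c / 2 : ℂ) • (deriv (deriv B))) 0 := by
      show ContDiffAt ℂ (2 * k : ℕ) (fun y => (c / 2 : ℂ) • (deriv (deriv B) y)) 0
      exact cB2.const_smul _
    have h2 : ContDiffAt ℂ (2 * k : ℕ) ((c / 2 * m : ℂ) • (deriv B * deriv B)) 0 := by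
      show ContDiffAt ℂ (2 * k : ℕ) (fun y => (c / 2 * m : ℂ) • ((deriv B * deriv B) y)) 0
      exact h0.const_smul _
    have h3 : ContDiffAt ℂ (2 * k : ℕ) (TC m c B - B) 0 := cT.sub cB
    have h4 : ContDiffAt ℂ (2 * k : ℕ) ((c / 2 : ℂ) • (deriv (deriv B))
      + (c / 2 * m : ℂ) • (deriv B * deriv B)) 0 := h1.add h2
    rw [hR, iteratedDeriv_sub h3 h4, iteratedDeriv_sub cT cB,
      iteratedDeriv_add h1 h2, iteratedDeriv_const_smul cB2,
      iteratedDeriv_const_smul h0, h.leibniz k hk, e2, hT.iter_eq, h.iter_eq]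
    simp only [smul_eq_mul]
    push_cast
    ring
  have hd : DifferentiableOn ℂ R (St (1 / 2)) := by
    refine DifferentiableOn.mono ?_ (St_mono (by norm_num : (1 : ℝ) / 2 ≤ 3 / 4))
    exact (hcl.diff.sub h.cl.diff).sub ((h.cl.diff''.const_smul _).add
      ((h.cl.diff'.mul h.cl.diff').const_smul _))
  have hb := iter_bound hd (M := (C1 ^ 2 + 16 * J + (8 / (1 / 4)) * J) * (c * √c)) (fun z hz => by
    have := TC_taylor (z := z) h.cl le_rfl le_rfl (ρ := 1 / 4) (by norm_num)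
      (by norm_num; exact hz) ha
    refine le_trans (le_of_eq ?_) this
    congr 1
    simp only [hR, Pi.sub_apply, Pi.add_apply, Pi.smul_apply, Pi.mul_apply, smul_eq_mul]
    ring) (2 * k)
  rw [eR, Complex.norm_real, Real.norm_eq_abs] at hb
  refine hb.trans ?_
  have hJ := J_pos
  have hc0 : 0 ≤ c * √c := mul_nonneg ha.c0 (Real.sqrt_nonneg _)
  have f1 : ((2 * k).factorial : ℝ) ≤ 720 := by
    have : (2 * k).factorial ≤ Nat.factorial 6 := Nat.factorial_le (by omega)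
    have h7 : Nat.factorial 6 = 720 := by decide
    rw [h7] at this
    exact_mod_cast this
  have f2 : (4 : ℝ) ^ (2 * k) ≤ 4 ^ 6 := pow_le_pow_right₀ (by norm_num) (by omega)
  have f3 : (0 : ℝ) < 4 ^ (2 * k) := by positivity
  have e3 : C1 ^ 2 + 16 * J + 8 / (1 / 4) * J = C1 ^ 2 + 48 * J := by ring
  rw [e3]
  calc ((2 * k).factorial : ℝ) * ((C1 ^ 2 + 48 * J) * (c * √c)) * 4 ^ (2 * k)
      ≤ 720 * ((C1 ^ 2 + 48 * J) * (c * √c)) * 4 ^ 6 :=
        mul_le_mul (mul_le_mul_of_nonneg_right f1 (by positivity)) f2 f3.le (by positivity)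
    _ = C4 * (c * √c) := by unfold C4; ring

lemma B0_fn : Fn B0 := by
  refine ⟨B0_cl.mono (by norm_num) (by norm_num), fun y => ?_, fun z _ => by simp [B0]⟩
  unfold B0
  rw [← Complex.ofReal_cosh, ← Complex.ofReal_log (Real.cosh_pos y).le, Complex.ofReal_im]

lemma cf1_B0 : cf 1 B0 = 1 := by
  have h : iteratedDeriv (2 * 1) B0 0 = 1 := by
    show iteratedDeriv 2 B0 0 = 1
    rw [iteratedDeriv_succ, iteratedDeriv_one, deriv2_B0 (zero_mem_St (by norm_num))]
    simp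
  unfold cf
  rw [h]; simp

lemma cf2_B0 : cf 2 B0 = -2 := by
  have hr : (0 : ℝ) < 3 / 4 := by norm_num
  have h1 : iteratedDeriv (2 * 2) B0 0 = iteratedDeriv (2 * 1) (deriv (deriv B0)) 0 := by
    rw [← iteratedDeriv_succ', ← iteratedDeriv_succ']
  have h2 : deriv (deriv B0) =ᶠ[nhds 0] (fun _ => (1 : ℂ)) - deriv B0 * deriv B0 := by
    filter_upwards [(isOpen_St (3 / 4)).mem_nhds (zero_mem_St hr)] with z hz
    simp only [Pi.sub_apply, Pi.mul_apply]
    rw [deriv2_B0 hz, deriv_B0 hz]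
    have h3 := Complex.cosh_sq_sub_sinh_sq z
    have h4 := cosh_ne hz
    field_simp
    linear_combination -h3
  have h3 : iteratedDeriv (2 * 1) (deriv (deriv B0)) 0 = -2 := by
    have hp : ContDiffAt ℂ (2 * 1 : ℕ) (deriv B0 * deriv B0) 0 :=
      (contDiffAt_of hr B0_fn.cl.diff' _).mul (contDiffAt_of hr B0_fn.cl.diff' _)
    rw [h2.iteratedDeriv_eq, iteratedDeriv_sub contDiffAt_const hp,
      B0_fn.leibniz 1 (by norm_num)]
    simp [QQ, cf1_B0, iteratedDeriv_const]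
  unfold cf
  rw [h1, h3]; simp

end
end Pool.Agent.LibOS45
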