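import Pool.Agent.LibOS45.Var

/-!
# Expansions of the density of the first variation
-/

namespace Pool.Agent.LibOS45

noncomputable section

lemma tele_up {f c : ℕ → ℝ} {n p : ℕ} {C ε : ℝ} (hc : ∀ i < n, 0 ≤ c i) (h1 : tt c n ≤ 1)
    (hC : 0 ≤ C) (hε : 0 ≤ ε) (h0 : f 0 ≤ 0)
    (h : ∀ j < n, f (j + 1) - f j ≤ C * (c j * (tt c (j + 1) ^ p + ε))) :
    ∀ j ≤ n, f j ≤ C * (tt c j ^ (p + 1) + ε) := by
  have key : ∀ j ≤ n, f j ≤ C * (tt c j * (tt c j ^ p + ε)) := by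
    intro j
    induction j with
    | zero => intro _; simpa [tt_zero] using h0
    | succ j ih =>
      intro hj
      have i1 := ih (by omega)
      have i2 := h j hj
      have hcj := hc j hj
      have ht0 := tt_nonneg hc (show j ≤ n by omega)
      have htm : tt c j ≤ tt c (j + 1) := tt_mono hc (Nat.le_succ j) hj
      have hp : tt c j ^ p ≤ tt c (j + 1) ^ p := pow_le_pow_left₀ ht0 htm p
      have i3 : C * (tt c j * (tt c j ^ p + ε)) ≤ C * (tt c j * (tt c (j + 1) ^ p + ε)) := by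
        refine mul_le_mul_of_nonneg_left (mul_le_mul_of_nonneg_left ?_ ht0) hC
        linarith
      have e : C * (tt c (j + 1) * (tt c (j + 1) ^ p + ε))
          = C * (tt c j * (tt c (j + 1) ^ p + ε)) + C * (c j * (tt c (j + 1) ^ p + ε)) := by
        conv_lhs => rw [show tt c (j + 1) * (tt c (j + 1) ^ p + ε)
          = (tt c j + c j) * (tt c (j + 1) ^ p + ε) by rw [tt_succ]]
        ring
      rw [e]; linarith
  intro j hj
  refine (key j hj).trans (mul_le_mul_of_nonneg_left ?_ hC)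
  have ht0 := tt_nonneg hc hj
  have ht1 : tt c j ≤ 1 := (tt_mono hc hj le_rfl).trans h1
  have : tt c j * (tt c j ^ p + ε) = tt c j ^ (p + 1) + tt c j * ε := by ring
  rw [this]
  have h9 := mul_le_mul_of_nonneg_right ht1 hε; linarith only [h9]

lemma tele_abs {f c : ℕ → ℝ} {n p : ℕ} {C ε : ℝ} (hc : ∀ i < n, 0 ≤ c i) (h1 : tt c n ≤ 1)
    (hC : 0 ≤ C) (hε : 0 ≤ ε) (h0 : f 0 = 0)
    (h : ∀ j < n, |f (j + 1) - f j| ≤ C * (c j * (tt c (j + 1) ^ p + ε))) :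
    ∀ j ≤ n, |f j| ≤ C * (tt c j ^ (p + 1) + ε) := by
  intro j hj
  have u := tele_up hc h1 hC hε h0.le (fun j hj => (le_abs_self _).trans (h j hj)) j hj
  have v := tele_up (f := fun j => - f j) hc h1 hC hε (by simp [h0]) (fun j hj => by
    have := (neg_abs_le (f (j + 1) - f j))
    have := h j hj
    linarith) j hj
  exact abs_le.2 ⟨by linarith, u⟩

variable {K ε : ℝ} {n : ℕ} {c x : ℕ → ℝ} {a : ℕ → ℕ → ℝ}

lemma SY.cc (h : SY K ε n c x a) {j : ℕ} (hj : j < n) : c j ^ 2 ≤ c j * ε := by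
  have := h.cle hj
  have := h.c0 j hj
  have h9 := mul_le_mul_of_nonneg_left (h.cle hj) this; linarith only [h9]

lemma SY.c3 (h : SY K ε n c x a) {j : ℕ} (hj : j < n) : c j ^ 3 ≤ c j * ε := by
  have h1 := h.cc hj
  have h2 := h.c0 j hj
  have h3 := h.c_le hj
  have h4 : c j ^ 3 = c j ^ 2 * c j := by ring
  have h5 : 0 ≤ c j ^ 2 := sq_nonneg _
  have h6 := mul_le_mul_of_nonneg_left h3 h5; linarith only [h1, h4, h6]

lemma SY.a1_lo (h : SY K ε n c x a) {j : ℕ} (hj : j ≤ n) : 23 / 24 ≤ a 1 j := by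
  have h1 := h.sq.cl1 j hj
  have h2 := h.tK
  have e : ∑ i ∈ Finset.Ico 0 n, c i = tt c n := by rw [tt, Finset.range_eq_Ico]
  rw [e] at h1
  have := (abs_le.1 h1).1
  linarith only [this, h2]

lemma SY.a2_hi (h : SY K ε n c x a) {j : ℕ} (hj : j ≤ n) : a 2 j ≤ -(47 / 24) := by
  have h1 := h.sq.cl2 j hj
  have h2 := h.tK
  have e : ∑ i ∈ Finset.Ico 0 n, c i = tt c n := by rw [tt, Finset.range_eq_Ico]
  rw [e] at h1
  have := (abs_le.1 h1).2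
  linarith only [this, h2]

lemma SY.rh_bd (h : SY K ε n c x a) {j : ℕ} (hj : j ≤ n) {y : ℝ} (hy : |y| ≤ 1) :
    |Rh c x a y j| ≤ 10 * K ^ 3 := by
  have b1 := h.bd' (k := 1) (by norm_num) (by norm_num) hj
  have b2 := h.bd' (k := 2) (by norm_num) (by norm_num) hj
  have l1 := ((h.lam_bd j hj).1).trans (h.tt1 hj)
  have hK := h.hK
  have e : Rh c x a y j = -2 * (y * (a 1 j * (a 1 j * a 1 j)))
      + (lam c x a j).1 * (2 * (a 2 j * a 2 j) + -6 * (y * (a 1 j * (a 1 j * a 2 j)))) := by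
    unfold Rh rho; ring
  rw [e]
  have n2 : |(-2 : ℝ)| ≤ 2 := by norm_num
  have n2' : |(2 : ℝ)| ≤ 2 := by norm_num
  have n6 : |(-6 : ℝ)| ≤ 6 := by norm_num
  refine ((abs_add_le _ _).trans (add_le_add (am n2 (am hy (am b1 (am b1 b1))))
    (am l1 ((abs_add_le _ _).trans (add_le_add (am n2' (am b2 b2))
      (am n6 (am hy (am b1 (am b1 b2))))))))).trans ?_
  linarith only [mul_nonneg (sq_nonneg K) (by linarith only [hK] : 0 ≤ K - 1)]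

/-- integrated density -/
def Hq (c x : ℕ → ℝ) (a : ℕ → ℕ → ℝ) (j : ℕ) : ℝ :=
  ∑ i ∈ Finset.range j, c i * Gq c x a (i + 1)

lemma Hq_succ (c x : ℕ → ℝ) (a : ℕ → ℕ → ℝ) (j : ℕ) :
    Hq c x a (j + 1) = Hq c x a j + c j * Gq c x a (j + 1) := by
  simp [Hq, Finset.sum_range_succ]

lemma Gq_zero (c x : ℕ → ℝ) (a : ℕ → ℕ → ℝ) : Gq c x a 0 = 0 := by simp [Gq, gg, lam]

lemma Gm_zero (c x : ℕ → ℝ) (a : ℕ → ℕ → ℝ) : Gm c x a 0 = a 1 0 ^ 2 := by simp [Gm, gam, lam]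

lemma Rh_zero (c x : ℕ → ℝ) (a : ℕ → ℕ → ℝ) (y : ℝ) : Rh c x a y 0 = -2 * y * a 1 0 ^ 3 := by
  simp [Rh, rho, lam]

lemma SY.g0_bd (h : SY K ε n c x a) : |a 1 0 ^ 2| ≤ K ^ 2 := by
  have b1 := h.bd' (k := 1) (by norm_num) (by norm_num) (Nat.zero_le n)
  rw [abs_pow]; exact pow_le_pow_left₀ (abs_nonneg _) b1 2

/-! ### crude expansions -/

theorem crude_Gm (K : ℝ) : ∃ C, 0 ≤ C ∧ ∀ {ε : ℝ} {n : ℕ} {c x : ℕ → ℝ} {a : ℕ → ℕ → ℝ},
    SY K ε n c x a → ∀ j ≤ n, |Gm c x a j - a 1 0 ^ 2| ≤ C * (tt c j ^ 1 + ε) := by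
  obtain ⟨C, hC, hC'⟩ := Gm_inc K
  refine ⟨2 * C + 10 * |K| ^ 3 , by positivity, fun {ε n c x a} h j hj => ?_⟩
  have hK := h.hK
  have hKa : |K| = K := abs_of_nonneg (by linarith)
  refine tele_abs (f := fun j => Gm c x a j - a 1 0 ^ 2) (p := 0) h.c0 (h.tt1 le_rfl)
    (by positivity) h.e0 (by simp [Gm_zero]) (fun j hj => ?_) j hj
  have i1 := hC' h j hj
  have hc0 := h.c0 j hj
  have ht1 := h.tt1 (show j + 1 ≤ n from hj)
  have ht0 := h.tt0 (show j + 1 ≤ n from hj)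
  have hx : |x j| ≤ 1 := by rw [abs_of_nonneg (h.x0 j hj)]; exact h.x1 j hj
  have i2 := h.rh_bd (show j + 1 ≤ n from hj) hx
  have e : Gm c x a (j + 1) - a 1 0 ^ 2 - (Gm c x a j - a 1 0 ^ 2)
      = (Gm c x a (j + 1) - Gm c x a j - c j * Rh c x a (x j) (j + 1))
        + c j * Rh c x a (x j) (j + 1) := by ring
  rw [e]
  refine (abs_add_le _ _).trans ?_
  rw [abs_mul, abs_of_nonneg hc0, pow_zero, hKa]
  have i3 := mul_le_mul_of_nonneg_left i2 hc0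
  have ht2 : tt c (j + 1) ^ 2 ≤ 1 := pow_le_one₀ ht0 ht1
  have i4 : C * (c j * (tt c (j + 1) ^ 2 + ε)) ≤ C * (c j * (1 + ε)) :=
    mul_le_mul_of_nonneg_left (mul_le_mul_of_nonneg_left (by linarith) hc0) hC
  have hε := h.e0
  have i5 : 0 ≤ c j * (10 * K ^ 3) * ε := by positivity
  have i6 : 0 ≤ C * (c j * (1 + ε)) := by positivity
  linarith only [i1, i4, i3, i5, i6]

theorem crude_Gq (K : ℝ) : ∃ C, 0 ≤ C ∧ ∀ {ε : ℝ} {n : ℕ} {c x : ℕ → ℝ} {a : ℕ → ℕ → ℝ},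
    SY K ε n c x a → ∀ j ≤ n, |Gq c x a j - a 1 0 ^ 2 * tt c j| ≤ C * (tt c j ^ 2 + ε) := by
  obtain ⟨C, hC, hC'⟩ := Gq_inc K
  obtain ⟨D, hD, hD'⟩ := crude_Gm K
  refine ⟨C + D, by positivity, fun {ε n c x a} h j hj => ?_⟩
  refine tele_abs (f := fun j => Gq c x a j - a 1 0 ^ 2 * tt c j) (p := 1) h.c0 (h.tt1 le_rfl)
    (by positivity) h.e0 (by simp [Gq_zero, tt_zero]) (fun j hj => ?_) j hj
  have i1 := hC' h j hj
  have i2 := hD' h (j + 1) hj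
  have hc0 := h.c0 j hj
  have ht1 := h.tt1 (show j + 1 ≤ n from hj)
  have ht0 := h.tt0 (show j + 1 ≤ n from hj)
  have e : Gq c x a (j + 1) - a 1 0 ^ 2 * tt c (j + 1) - (Gq c x a j - a 1 0 ^ 2 * tt c j)
      = (Gq c x a (j + 1) - Gq c x a j - c j * Gm c x a (j + 1))
        + c j * (Gm c x a (j + 1) - a 1 0 ^ 2) := by rw [tt_succ]; ring
  rw [e]
  refine (abs_add_le _ _).trans ?_
  rw [abs_mul, abs_of_nonneg hc0]
  have i3 := mul_le_mul_of_nonneg_left i2 hc0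
  have ht3 : tt c (j + 1) ^ 3 ≤ tt c (j + 1) ^ 1 := pow_le_pow_of_le_one ht0 ht1 (by norm_num)
  have i4 : C * (c j * (tt c (j + 1) ^ 3 + ε)) ≤ C * (c j * (tt c (j + 1) ^ 1 + ε)) :=
    mul_le_mul_of_nonneg_left (mul_le_mul_of_nonneg_left (by linarith) hc0) hC
  calc _ ≤ C * (c j * (tt c (j + 1) ^ 1 + ε)) + c j * (D * (tt c (j + 1) ^ 1 + ε)) :=
        add_le_add (i1.trans i4) i3
    _ = _ := by ring

/-- the density is Lipschitz -/
theorem Gq_lip (K : ℝ) : ∃ C, 0 ≤ C ∧ ∀ {ε : ℝ} {n : ℕ} {c x : ℕ → ℝ} {a : ℕ → ℕ → ℝ},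
    SY K ε n c x a → ∀ i j, i ≤ j → j ≤ n → |Gq c x a j - Gq c x a i| ≤ C * (tt c j - tt c i) := by
  obtain ⟨C, hC, hC'⟩ := Gq_inc K
  obtain ⟨D, hD, hD'⟩ := crude_Gm K
  refine ⟨2 * C + (2 * D + |K| ^ 2), by positivity, fun {ε n c x a} h i j hij => ?_⟩
  have hK := h.hK
  have hKa : |K| = K := abs_of_nonneg (by linarith)
  rw [hKa]
  induction j, hij using Nat.le_induction with
  | base => intro _; simp
  | succ j hij ih =>
    intro hj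
    have i0 := ih (by omega)
    have i1 := hC' h j hj
    have i2 := hD' h (j + 1) hj
    have hc0 := h.c0 j hj
    have ht1 := h.tt1 (show j + 1 ≤ n from hj)
    have ht0 := h.tt0 (show j + 1 ≤ n from hj)
    have hε := h.e1
    have hε0 := h.e0
    have i5 : |Gm c x a (j + 1)| ≤ 2 * D + K ^ 2 := by
      have e : Gm c x a (j + 1) = (Gm c x a (j + 1) - a 1 0 ^ 2) + a 1 0 ^ 2 := by ring
      rw [e]
      refine (abs_add_le _ _).trans (add_le_add (i2.trans ?_) h.g0_bd)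
      rw [pow_one]
      have h9 := mul_le_mul_of_nonneg_left (add_le_add ht1 hε) hD; linarith only [h9]
    have e : Gq c x a (j + 1) - Gq c x a i = (Gq c x a j - Gq c x a i)
        + ((Gq c x a (j + 1) - Gq c x a j - c j * Gm c x a (j + 1))
        + c j * Gm c x a (j + 1)) := by ring
    rw [e, tt_succ]
    refine (abs_add_le _ _).trans ?_
    have i6 : |(Gq c x a (j + 1) - Gq c x a j - c j * Gm c x a (j + 1))
        + c j * Gm c x a (j + 1)| ≤ (2 * C + (2 * D + K ^ 2)) * c j := by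
      refine (abs_add_le _ _).trans ?_
      rw [abs_mul, abs_of_nonneg hc0]
      have ht3 : tt c (j + 1) ^ 3 ≤ 1 := pow_le_one₀ ht0 ht1
      have i4 : C * (c j * (tt c (j + 1) ^ 3 + ε)) ≤ C * (c j * (1 + 1)) :=
        mul_le_mul_of_nonneg_left (mul_le_mul_of_nonneg_left (by linarith) hc0) hC
      have i7 := mul_le_mul_of_nonneg_left i5 hc0
      linarith
    linarith

theorem crude_Hq (K : ℝ) : ∃ C, 0 ≤ C ∧ ∀ {ε : ℝ} {n : ℕ} {c x : ℕ → ℝ} {a : ℕ → ℕ → ℝ},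
    SY K ε n c x a → ∀ j ≤ n, |Hq c x a j - 1 / 2 * a 1 0 ^ 2 * tt c j ^ 2|
      ≤ C * (tt c j ^ 3 + ε) := by
  obtain ⟨D, hD, hD'⟩ := crude_Gq K
  refine ⟨D + |K| ^ 2, by positivity, fun {ε n c x a} h j hj => ?_⟩
  have hK := h.hK
  have hKa : |K| = K := abs_of_nonneg (by linarith)
  refine tele_abs (f := fun j => Hq c x a j - 1 / 2 * a 1 0 ^ 2 * tt c j ^ 2) (p := 2) h.c0
    (h.tt1 le_rfl) (by positivity) h.e0 (by simp [Hq, tt_zero]) (fun j hj => ?_) j hj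
  have i2 := hD' h (j + 1) hj
  have hc0 := h.c0 j hj
  have ht1 := h.tt1 (show j + 1 ≤ n from hj)
  have ht0 := h.tt0 (show j + 1 ≤ n from hj)
  have hcc := h.cc hj
  have e : Hq c x a (j + 1) - 1 / 2 * a 1 0 ^ 2 * tt c (j + 1) ^ 2
      - (Hq c x a j - 1 / 2 * a 1 0 ^ 2 * tt c j ^ 2)
      = c j * (Gq c x a (j + 1) - a 1 0 ^ 2 * tt c (j + 1)) + 1 / 2 * a 1 0 ^ 2 * c j ^ 2 := by
    rw [Hq_succ, tt_succ]; ring
  rw [e, hKa]
  refine (abs_add_le _ _).trans ?_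
  rw [abs_mul, abs_of_nonneg hc0]
  have i3 := mul_le_mul_of_nonneg_left i2 hc0
  have i4 : |1 / 2 * a 1 0 ^ 2 * c j ^ 2| ≤ K ^ 2 * (c j * ε) := by
    rw [abs_mul, abs_mul, abs_of_nonneg (sq_nonneg (c j))]
    have h1 := h.g0_bd
    have h2 : |(1 / 2 : ℝ)| = 1 / 2 := by norm_num
    rw [h2]
    have h3 : 1 / 2 * |a 1 0 ^ 2| ≤ K ^ 2 := by
      have := abs_nonneg (a 1 0 ^ 2)
      linarith
    exact mul_le_mul h3 hcc (sq_nonneg _) (by positivity)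
  have i5 : 0 ≤ K ^ 2 * (c j * tt c (j + 1) ^ 2) := by positivity
  calc _ ≤ c j * (D * (tt c (j + 1) ^ 2 + ε)) + K ^ 2 * (c j * ε) := add_le_add i3 i4
    _ ≤ _ := by linarith only [i5]

/-! ### one-sided expansions (step A) -/

theorem up_Gm (K : ℝ) : ∃ C, 0 ≤ C ∧ ∀ {ε : ℝ} {n : ℕ} {c x : ℕ → ℝ} {a : ℕ → ℕ → ℝ},
    SY K ε n c x a → ∀ {y : ℝ}, 0 ≤ y → (∀ i < n, y ≤ x i) → ∀ j ≤ n,
      Gm c x a j - a 1 0 ^ 2 + 3 / 2 * y * tt c j ≤ C * (tt c j ^ 2 + ε) := by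
  obtain ⟨C, hC, hC'⟩ := Gm_inc K
  refine ⟨C + 8 * |K| ^ 3, by positivity, fun {ε n c x a} h {y} hy0 hy j hj => ?_⟩
  have hK := h.hK
  have hKa : |K| = K := abs_of_nonneg (by linarith)
  rw [hKa]
  refine tele_up (f := fun j => Gm c x a j - a 1 0 ^ 2 + 3 / 2 * y * tt c j) (p := 1) h.c0
    (h.tt1 le_rfl) (by positivity) h.e0 (by simp [Gm_zero, tt_zero]) (fun j hj => ?_) j hj
  have hj1 : j + 1 ≤ n := hj
  have i1 := hC' h j hj
  have hc0 := h.c0 j hj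
  have ht1 := h.tt1 hj1
  have ht0 := h.tt0 hj1
  have hxy := hy j hj
  have hx0 := h.x0 j hj
  have hx : |x j| ≤ 1 := by rw [abs_of_nonneg hx0]; exact h.x1 j hj
  have b1 := h.bd' (k := 1) (by norm_num) (by norm_num) hj1
  have b2 := h.bd' (k := 2) (by norm_num) (by norm_num) hj1
  have l1 := (h.lam_bd (j + 1) hj1).1
  have lo := h.a1_lo hj1
  have n2' : |(2 : ℝ)| ≤ 2 := by norm_num
  have n6 : |(-6 : ℝ)| ≤ 6 := by norm_num
  have r1 : |(lam c x a (j + 1)).1 * (2 * (a 2 (j + 1) * a 2 (j + 1))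
      + -6 * (x j * (a 1 (j + 1) * (a 1 (j + 1) * a 2 (j + 1)))))| ≤ tt c (j + 1) * (8 * K ^ 3) := by
    refine (am l1 ((abs_add_le _ _).trans (add_le_add (am n2' (am b2 b2))
      (am n6 (am hx (am b1 (am b1 b2))))))).trans ?_
    refine mul_le_mul_of_nonneg_left ?_ ht0
    linarith only [mul_nonneg (sq_nonneg K) (by linarith only [hK] : 0 ≤ K - 1)]
  have r2 : 3 / 4 ≤ a 1 (j + 1) ^ 3 := by
    have h1 : (23 / 24 : ℝ) ^ 3 ≤ a 1 (j + 1) ^ 3 := pow_le_pow_left₀ (by norm_num) lo 3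
    refine le_trans ?_ h1
    norm_num
  have r3 : Rh c x a (x j) (j + 1) ≤ -(3 / 2) * y + tt c (j + 1) * (8 * K ^ 3) := by
    have e : Rh c x a (x j) (j + 1) = -2 * (x j * a 1 (j + 1) ^ 3)
      + (lam c x a (j + 1)).1 * (2 * (a 2 (j + 1) * a 2 (j + 1))
      + -6 * (x j * (a 1 (j + 1) * (a 1 (j + 1) * a 2 (j + 1))))) := by
      unfold Rh rho; ring
    rw [e]
    have h1 := (le_abs_self _).trans r1
    have h2 : y * (3 / 4) ≤ x j * a 1 (j + 1) ^ 3 := mul_le_mul hxy r2 (by norm_num) hx0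
    linarith
  have e : Gm c x a (j + 1) - a 1 0 ^ 2 + 3 / 2 * y * tt c (j + 1)
      - (Gm c x a j - a 1 0 ^ 2 + 3 / 2 * y * tt c j)
      = (Gm c x a (j + 1) - Gm c x a j - c j * Rh c x a (x j) (j + 1))
        + c j * (Rh c x a (x j) (j + 1) + 3 / 2 * y) := by rw [tt_succ]; ring
  rw [e]
  have i3 := (le_abs_self _).trans i1
  have i4 : c j * (Rh c x a (x j) (j + 1) + 3 / 2 * y) ≤ c j * (tt c (j + 1) * (8 * K ^ 3)) :=
    mul_le_mul_of_nonneg_left (by linarith) hc0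
  have ht2 : tt c (j + 1) ^ 2 ≤ tt c (j + 1) ^ 1 := pow_le_pow_of_le_one ht0 ht1 (by norm_num)
  have i5 : C * (c j * (tt c (j + 1) ^ 2 + ε)) ≤ C * (c j * (tt c (j + 1) ^ 1 + ε)) :=
    mul_le_mul_of_nonneg_left (mul_le_mul_of_nonneg_left (by linarith) hc0) hC
  have hε := h.e0
  have i6 : 0 ≤ 8 * K ^ 3 * (c j * ε) := by positivity
  calc _ ≤ C * (c j * (tt c (j + 1) ^ 1 + ε)) + c j * (tt c (j + 1) * (8 * K ^ 3)) :=
        add_le_add (i3.trans i5) i4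
    _ ≤ _ := by rw [pow_one]; linarith only [i6]

theorem up_Gq (K : ℝ) : ∃ C, 0 ≤ C ∧ ∀ {ε : ℝ} {n : ℕ} {c x : ℕ → ℝ} {a : ℕ → ℕ → ℝ},
    SY K ε n c x a → ∀ {y : ℝ}, 0 ≤ y → (∀ i < n, y ≤ x i) → ∀ j ≤ n,
      Gq c x a j - a 1 0 ^ 2 * tt c j + 3 / 4 * y * tt c j ^ 2 ≤ C * (tt c j ^ 3 + ε) := by
  obtain ⟨C, hC, hC'⟩ := Gq_inc K
  obtain ⟨D, hD, hD'⟩ := up_Gm K
  refine ⟨C + D, by positivity, fun {ε n c x a} h {y} hy0 hy j hj => ?_⟩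
  refine tele_up (f := fun j => Gq c x a j - a 1 0 ^ 2 * tt c j + 3 / 4 * y * tt c j ^ 2) (p := 2)
    h.c0 (h.tt1 le_rfl) (by positivity) h.e0 (by simp [Gq_zero, tt_zero]) (fun j hj => ?_) j hj
  have i1 := hC' h j hj
  have i2 := hD' h hy0 hy (j + 1) hj
  have hc0 := h.c0 j hj
  have ht1 := h.tt1 (show j + 1 ≤ n from hj)
  have ht0 := h.tt0 (show j + 1 ≤ n from hj)
  have e : Gq c x a (j + 1) - a 1 0 ^ 2 * tt c (j + 1) + 3 / 4 * y * tt c (j + 1) ^ 2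
      - (Gq c x a j - a 1 0 ^ 2 * tt c j + 3 / 4 * y * tt c j ^ 2)
      = (Gq c x a (j + 1) - Gq c x a j - c j * Gm c x a (j + 1))
        + c j * (Gm c x a (j + 1) - a 1 0 ^ 2 + 3 / 2 * y * tt c (j + 1))
        - 3 / 4 * y * c j ^ 2 := by rw [tt_succ]; ring
  rw [e]
  have i0 := (le_abs_self _).trans i1
  have i3 := mul_le_mul_of_nonneg_left i2 hc0
  have i6 : 0 ≤ 3 / 4 * y * c j ^ 2 := by positivity
  have ht3 : tt c (j + 1) ^ 3 ≤ tt c (j + 1) ^ 2 := pow_le_pow_of_le_one ht0 ht1 (by norm_num)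
  have i4 : C * (c j * (tt c (j + 1) ^ 3 + ε)) ≤ C * (c j * (tt c (j + 1) ^ 2 + ε)) :=
    mul_le_mul_of_nonneg_left (mul_le_mul_of_nonneg_left (by linarith) hc0) hC
  calc _ ≤ C * (c j * (tt c (j + 1) ^ 2 + ε)) + c j * (D * (tt c (j + 1) ^ 2 + ε)) - 0 :=
        sub_le_sub (add_le_add (i0.trans i4) i3) i6
    _ = _ := by ring

theorem up_Hq (K : ℝ) : ∃ C, 0 ≤ C ∧ ∀ {ε : ℝ} {n : ℕ} {c x : ℕ → ℝ} {a : ℕ → ℕ → ℝ},
    SY K ε n c x a → ∀ {y : ℝ}, 0 ≤ y → (∀ i < n, y ≤ x i) → ∀ j ≤ n,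
      Hq c x a j - 1 / 2 * a 1 0 ^ 2 * tt c j ^ 2 + 1 / 4 * y * tt c j ^ 3
        ≤ C * (tt c j ^ 4 + ε) := by
  obtain ⟨D, hD, hD'⟩ := up_Gq K
  refine ⟨D + |K| ^ 2, by positivity, fun {ε n c x a} h {y} hy0 hy j hj => ?_⟩
  have hK := h.hK
  have hKa : |K| = K := abs_of_nonneg (by linarith)
  rw [hKa]
  refine tele_up (f := fun j => Hq c x a j - 1 / 2 * a 1 0 ^ 2 * tt c j ^ 2
    + 1 / 4 * y * tt c j ^ 3) (p := 3)
    h.c0 (h.tt1 le_rfl) (by positivity) h.e0 (by simp [Hq, tt_zero]) (fun j hj => ?_) j hj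
  have i2 := hD' h hy0 hy (j + 1) hj
  have hc0 := h.c0 j hj
  have ht1 := h.tt1 (show j + 1 ≤ n from hj)
  have ht0 := h.tt0 (show j + 1 ≤ n from hj)
  have ht0' := h.tt0 (show j ≤ n by omega)
  have hcc := h.cc hj
  have e : Hq c x a (j + 1) - 1 / 2 * a 1 0 ^ 2 * tt c (j + 1) ^ 2
        + 1 / 4 * y * tt c (j + 1) ^ 3
      - (Hq c x a j - 1 / 2 * a 1 0 ^ 2 * tt c j ^ 2 + 1 / 4 * y * tt c j ^ 3)
      = c j * (Gq c x a (j + 1) - a 1 0 ^ 2 * tt c (j + 1) + 3 / 4 * y * tt c (j + 1) ^ 2)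
        + 1 / 2 * a 1 0 ^ 2 * c j ^ 2 - 1 / 4 * y * (3 * tt c j * c j ^ 2 + 2 * c j ^ 3) := by
    rw [Hq_succ, tt_succ]; ring
  rw [e]
  have i3 := mul_le_mul_of_nonneg_left i2 hc0
  have i4 : 1 / 2 * a 1 0 ^ 2 * c j ^ 2 ≤ K ^ 2 * (c j * ε) := by
    have h1 := (le_abs_self _).trans h.g0_bd
    have h3 : 1 / 2 * a 1 0 ^ 2 ≤ K ^ 2 := by
      have := sq_nonneg (a 1 0)
      linarith
    exact mul_le_mul h3 hcc (sq_nonneg _) (by positivity)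
  have i5 : 0 ≤ K ^ 2 * (c j * tt c (j + 1) ^ 3) := by positivity
  have i6 : 0 ≤ 1 / 4 * y * (3 * tt c j * c j ^ 2 + 2 * c j ^ 3) := by positivity
  calc _ ≤ c j * (D * (tt c (j + 1) ^ 3 + ε)) + K ^ 2 * (c j * ε) - 0 :=
        sub_le_sub (add_le_add i3 i4) i6
    _ ≤ _ := by linarith only [i5]

/-! ### two-sided expansions (step B) -/

/-- third derivative at `0` -/
def be (a : ℕ → ℕ → ℝ) (y : ℝ) (j : ℕ) : ℝ := a 2 j ^ 2 + 6 * y ^ 2 * a 1 j ^ 4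

theorem be_lip (K : ℝ) : ∃ C, 0 ≤ C ∧ ∀ {ε : ℝ} {n : ℕ} {c x : ℕ → ℝ} {a : ℕ → ℕ → ℝ},
    SY K ε n c x a → ∀ {y : ℝ}, |y| ≤ 1 → ∀ j ≤ n, |be a y j - be a y 0| ≤ C * tt c j := by
  obtain ⟨C, hC, hC'⟩ := aa_inc K
  refine ⟨C * (2 * |K|) + 6 * (C * (4 * |K| ^ 3)), by positivity,
    fun {ε n c x a} h {y} hy j hj => ?_⟩
  have hK := h.hK
  have hKa : |K| = K := abs_of_nonneg (by linarith)
  rw [hKa]
  have key : ∀ j ≤ n, |a 1 j - a 1 0| ≤ C * tt c j ∧ |a 2 j - a 2 0| ≤ C * tt c j := by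
    intro j
    induction j with
    | zero => intro _; simp [tt_zero]
    | succ j ih =>
      intro hj
      obtain ⟨i1, i2⟩ := ih (by omega)
      obtain ⟨i3, i4⟩ := hC' h j hj
      rw [tt_succ, mul_add]
      constructor
      · have e : a 1 (j + 1) - a 1 0 = (a 1 j - a 1 0) + (a 1 (j + 1) - a 1 j) := by ring
        rw [e]; exact (abs_add_le _ _).trans (add_le_add i1 i3)
      · have e : a 2 (j + 1) - a 2 0 = (a 2 j - a 2 0) + (a 2 (j + 1) - a 2 j) := by ring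
        rw [e]; exact (abs_add_le _ _).trans (add_le_add i2 i4)
  obtain ⟨k1, k2⟩ := key j hj
  have b1 := h.bd' (k := 1) (by norm_num) (by norm_num) hj
  have b2 := h.bd' (k := 2) (by norm_num) (by norm_num) hj
  have b10 := h.bd' (k := 1) (by norm_num) (by norm_num) (Nat.zero_le n)
  have b20 := h.bd' (k := 2) (by norm_num) (by norm_num) (Nat.zero_le n)
  have e : be a y j - be a y 0 = (a 2 j - a 2 0) * (a 2 j + a 2 0)
      + 6 * ((y * y) * ((a 1 j - a 1 0) * ((a 1 j + a 1 0) * (a 1 j * a 1 j + a 1 0 * a 1 0)))) := by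
    unfold be; ring
  rw [e]
  have n6 : |(6 : ℝ)| ≤ 6 := by norm_num
  have ht0 := h.tt0 hj
  refine ((abs_add_le _ _).trans (add_le_add (am k2 ((abs_add_le _ _).trans (add_le_add b2 b20)))
    (am n6 (am (am hy hy) (am k1 (am ((abs_add_le _ _).trans (add_le_add b1 b10))
      ((abs_add_le _ _).trans (add_le_add (am b1 b1) (am b10 b10))))))))).trans (le_of_eq ?_)
  ring

lemma be_bd (h : SY K ε n c x a) {y : ℝ} (hy : |y| ≤ 1) : |be a y 0| ≤ 7 * K ^ 4 := by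
  have hK := h.hK
  have b10 := h.bd' (k := 1) (by norm_num) (by norm_num) (Nat.zero_le n)
  have b20 := h.bd' (k := 2) (by norm_num) (by norm_num) (Nat.zero_le n)
  have n6 : |(6 : ℝ)| ≤ 6 := by norm_num
  have e : be a y 0 = a 2 0 * a 2 0 + 6 * ((y * y) * ((a 1 0 * a 1 0) * (a 1 0 * a 1 0))) := by
    unfold be; ring
  rw [e]
  refine ((abs_add_le _ _).trans (add_le_add (am b20 b20) (am n6 (am (am hy hy)
    (am (am b10 b10) (am b10 b10)))))).trans ?_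
  have h24 : K ^ 2 ≤ K ^ 4 := pow_le_pow_right₀ hK (by norm_num)
  have e1 : K * K = K ^ 2 := by ring
  have e2 : K * K * (K * K) = K ^ 4 := by ring
  rw [e2, e1]
  linarith

lemma SY.restrict (h : SY K ε n c x a) : ∀ j ≤ n, 0 ≤ tt c j ∧ tt c j ≤ 1 :=
  fun j hj => ⟨h.tt0 hj, h.tt1 hj⟩

theorem ex_Rh (K : ℝ) : ∃ C, 0 ≤ C ∧ ∀ {ε : ℝ} {n : ℕ} {c x : ℕ → ℝ} {a : ℕ → ℕ → ℝ},
    SY K ε n c x a → ∀ {y : ℝ}, |y| ≤ 1 → ∀ {I : ℕ}, I ≤ n → (∀ i < I, x i = y) → ∀ j ≤ I,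
      |Rh c x a y j - Rh c x a y 0 - be a y 0 * tt c j| ≤ C * (tt c j ^ 2 + ε) := by
  obtain ⟨C, hC, hC'⟩ := Rh_inc K
  obtain ⟨D, hD, hD'⟩ := be_lip K
  refine ⟨C + D, by positivity, fun {ε n c x a} h {y} hy {I} hI hx j hj => ?_⟩
  refine tele_abs (f := fun j => Rh c x a y j - Rh c x a y 0 - be a y 0 * tt c j) (p := 1) (n := I)
    (fun i hi => h.c0 i (hi.trans_le hI)) (h.tt1 hI) (by positivity) h.e0 (by simp [tt_zero])
    (fun j hj => ?_) j hj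
  have hjn : j < n := hj.trans_le hI
  have i1 := hC' h j hjn
  rw [hx j hj] at i1
  have i2 := hD' h hy (j + 1) hjn
  have hc0 := h.c0 j hjn
  have e : Rh c x a y (j + 1) - Rh c x a y 0 - be a y 0 * tt c (j + 1)
      - (Rh c x a y j - Rh c x a y 0 - be a y 0 * tt c j)
      = (Rh c x a y (j + 1) - Rh c x a y j
        - c j * (a 2 (j + 1) ^ 2 + 6 * y ^ 2 * a 1 (j + 1) ^ 4))
        + c j * (be a y (j + 1) - be a y 0) := by rw [tt_succ]; unfold be; ring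
  rw [e]
  refine (abs_add_le _ _).trans ?_
  rw [abs_mul (c j), abs_of_nonneg hc0]
  have i3 := mul_le_mul_of_nonneg_left i2 hc0
  have hε := h.e0
  have i5 : 0 ≤ D * (c j * ε) := by positivity
  calc _ ≤ C * (c j * (tt c (j + 1) ^ 1 + ε)) + c j * (D * tt c (j + 1)) := add_le_add i1 i3
    _ ≤ _ := by rw [pow_one]; linarith only [i5]

theorem ex_Gm (K : ℝ) : ∃ C, 0 ≤ C ∧ ∀ {ε : ℝ} {n : ℕ} {c x : ℕ → ℝ} {a : ℕ → ℕ → ℝ},
    SY K ε n c x a → ∀ {y : ℝ}, |y| ≤ 1 → ∀ {I : ℕ}, I ≤ n → (∀ i < I, x i = y) → ∀ j ≤ I,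
      |Gm c x a j - a 1 0 ^ 2 - Rh c x a y 0 * tt c j - 1 / 2 * be a y 0 * tt c j ^ 2|
        ≤ C * (tt c j ^ 3 + ε) := by
  obtain ⟨C, hC, hC'⟩ := Gm_inc K
  obtain ⟨D, hD, hD'⟩ := ex_Rh K
  refine ⟨C + D + 4 * |K| ^ 4, by positivity, fun {ε n c x a} h {y} hy {I} hI hx j hj => ?_⟩
  have hK := h.hK
  have hKa : |K| = K := abs_of_nonneg (by linarith)
  rw [hKa]
  refine tele_abs (f := fun j => Gm c x a j - a 1 0 ^ 2 - Rh c x a y 0 * tt c j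
      - 1 / 2 * be a y 0 * tt c j ^ 2) (p := 2) (n := I)
    (fun i hi => h.c0 i (hi.trans_le hI)) (h.tt1 hI) (by positivity) h.e0
    (by simp [tt_zero, Gm_zero]) (fun j hj => ?_) j hj
  have hjn : j < n := hj.trans_le hI
  have i1 := hC' h j hjn
  rw [hx j hj] at i1
  have i2 := hD' h hy hI hx (j + 1) hj
  have hc0 := h.c0 j hjn
  have hcc := h.cc hjn
  have hb := be_bd h hy
  have e : Gm c x a (j + 1) - a 1 0 ^ 2 - Rh c x a y 0 * tt c (j + 1)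
        - 1 / 2 * be a y 0 * tt c (j + 1) ^ 2
      - (Gm c x a j - a 1 0 ^ 2 - Rh c x a y 0 * tt c j - 1 / 2 * be a y 0 * tt c j ^ 2)
      = (Gm c x a (j + 1) - Gm c x a j - c j * Rh c x a y (j + 1))
        + c j * (Rh c x a y (j + 1) - Rh c x a y 0 - be a y 0 * tt c (j + 1))
        + 1 / 2 * be a y 0 * c j ^ 2 := by rw [tt_succ]; ring
  rw [e]
  refine (abs_add_three _ _ _).trans ?_
  rw [abs_mul (c j), abs_of_nonneg hc0]
  have i3 := mul_le_mul_of_nonneg_left i2 hc0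
  have i4 : |1 / 2 * be a y 0 * c j ^ 2| ≤ (4 * K ^ 4) * (c j * ε) := by
    have n1 : |(1 / 2 : ℝ)| ≤ 1 / 2 := by norm_num
    have n2 : |c j ^ 2| ≤ c j * ε := by rw [abs_of_nonneg (sq_nonneg _)]; exact hcc
    refine (am (am n1 hb) n2).trans ?_
    have : 0 ≤ c j * ε := mul_nonneg hc0 h.e0
    have : 0 ≤ K ^ 4 * (c j * ε) := by positivity
    linarith only [this]
  have i5 : 0 ≤ (4 * K ^ 4) * (c j * tt c (j + 1) ^ 2) := by positivity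
  calc _ ≤ C * (c j * (tt c (j + 1) ^ 2 + ε)) + c j * (D * (tt c (j + 1) ^ 2 + ε))
      + (4 * K ^ 4) * (c j * ε) := add_le_add (add_le_add i1 i3) i4
    _ ≤ _ := by linarith only [i5]

theorem ex_Gq (K : ℝ) : ∃ C, 0 ≤ C ∧ ∀ {ε : ℝ} {n : ℕ} {c x : ℕ → ℝ} {a : ℕ → ℕ → ℝ},
    SY K ε n c x a → ∀ {y : ℝ}, |y| ≤ 1 → ∀ {I : ℕ}, I ≤ n → (∀ i < I, x i = y) → ∀ j ≤ I,
      |Gq c x a j - a 1 0 ^ 2 * tt c j - 1 / 2 * Rh c x a y 0 * tt c j ^ 2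
        - 1 / 6 * be a y 0 * tt c j ^ 3| ≤ C * (tt c j ^ 4 + ε) := by
  obtain ⟨C, hC, hC'⟩ := Gq_inc K
  obtain ⟨D, hD, hD'⟩ := ex_Gm K
  refine ⟨C + D + (5 * |K| ^ 3 + 7 * |K| ^ 4), by positivity,
    fun {ε n c x a} h {y} hy {I} hI hx j hj => ?_⟩
  have hK := h.hK
  have hKa : |K| = K := abs_of_nonneg (by linarith)
  rw [hKa]
  refine tele_abs (f := fun j => Gq c x a j - a 1 0 ^ 2 * tt c j
        - 1 / 2 * Rh c x a y 0 * tt c j ^ 2 - 1 / 6 * be a y 0 * tt c j ^ 3) (p := 3) (n := I)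
    (fun i hi => h.c0 i (hi.trans_le hI)) (h.tt1 hI) (by positivity) h.e0
    (by simp [tt_zero, Gq_zero]) (fun j hj => ?_) j hj
  have hjn : j < n := hj.trans_le hI
  have i1 := hC' h j hjn
  have i2 := hD' h hy hI hx (j + 1) hj
  have hc0 := h.c0 j hjn
  have hcc := h.cc hjn
  have hc3 := h.c3 hjn
  have ht0 := h.tt0 (show j + 1 ≤ n from hjn)
  have ht1 := h.tt1 (show j + 1 ≤ n from hjn)
  have hb := be_bd h hy
  have hr := h.rh_bd (Nat.zero_le n) hy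
  have e : Gq c x a (j + 1) - a 1 0 ^ 2 * tt c (j + 1) - 1 / 2 * Rh c x a y 0 * tt c (j + 1) ^ 2
        - 1 / 6 * be a y 0 * tt c (j + 1) ^ 3
      - (Gq c x a j - a 1 0 ^ 2 * tt c j - 1 / 2 * Rh c x a y 0 * tt c j ^ 2
        - 1 / 6 * be a y 0 * tt c j ^ 3)
      = (Gq c x a (j + 1) - Gq c x a j - c j * Gm c x a (j + 1))
        + c j * (Gm c x a (j + 1) - a 1 0 ^ 2 - Rh c x a y 0 * tt c (j + 1)
          - 1 / 2 * be a y 0 * tt c (j + 1) ^ 2)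
        + (1 / 2 * Rh c x a y 0 * c j ^ 2 + 1 / 2 * be a y 0 * (tt c (j + 1) * c j ^ 2)
          + -(1 / 6) * be a y 0 * c j ^ 3) := by
    have e2 : tt c j = tt c (j + 1) - c j := by rw [tt_succ]; ring
    rw [e2]; ring
  rw [e]
  refine (abs_add_three _ _ _).trans ?_
  rw [abs_mul (c j), abs_of_nonneg hc0]
  have i3 := mul_le_mul_of_nonneg_left i2 hc0
  have hce : 0 ≤ c j * ε := mul_nonneg hc0 h.e0
  have n2 : |c j ^ 2| ≤ c j * ε := by rw [abs_of_nonneg (sq_nonneg _)]; exact hcc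
  have n3 : |c j ^ 3| ≤ c j * ε := by rw [abs_of_nonneg (pow_nonneg hc0 3)]; exact hc3
  have n4 : |tt c (j + 1) * c j ^ 2| ≤ 1 * (c j * ε) :=
    am (by rw [abs_of_nonneg ht0]; exact ht1) n2
  have i4 : |1 / 2 * Rh c x a y 0 * c j ^ 2 + 1 / 2 * be a y 0 * (tt c (j + 1) * c j ^ 2)
          + -(1 / 6) * be a y 0 * c j ^ 3| ≤ (5 * K ^ 3 + 7 * K ^ 4) * (c j * ε) := by
    have n1 : |(1 / 2 : ℝ)| ≤ 1 / 2 := by norm_num
    have n6 : |(-(1 / 6) : ℝ)| ≤ 1 / 6 := by norm_num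
    refine (abs_add_three _ _ _).trans ((add_le_add (add_le_add (am (am n1 hr) n2)
      (am (am n1 hb) n4)) (am (am n6 hb) n3)).trans ?_)
    have : 0 ≤ K ^ 4 * (c j * ε) := by positivity
    linarith only [this]
  have i5 : 0 ≤ (5 * K ^ 3 + 7 * K ^ 4) * (c j * tt c (j + 1) ^ 3) := by positivity
  calc _ ≤ C * (c j * (tt c (j + 1) ^ 3 + ε)) + c j * (D * (tt c (j + 1) ^ 3 + ε))
      + (5 * K ^ 3 + 7 * K ^ 4) * (c j * ε) := add_le_add (add_le_add i1 i3) i4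
    _ ≤ _ := by linarith only [i5]

theorem ex_Hq (K : ℝ) : ∃ C, 0 ≤ C ∧ ∀ {ε : ℝ} {n : ℕ} {c x : ℕ → ℝ} {a : ℕ → ℕ → ℝ},
    SY K ε n c x a → ∀ {y : ℝ}, |y| ≤ 1 → ∀ {I : ℕ}, I ≤ n → (∀ i < I, x i = y) → ∀ j ≤ I,
      |Hq c x a j - 1 / 2 * a 1 0 ^ 2 * tt c j ^ 2 - 1 / 6 * Rh c x a y 0 * tt c j ^ 3
        - 1 / 24 * be a y 0 * tt c j ^ 4| ≤ C * (tt c j ^ 5 + ε) := by
  obtain ⟨D, hD, hD'⟩ := ex_Gq K
  refine ⟨D + (|K| ^ 2 + 10 * |K| ^ 3 + 7 * |K| ^ 4), by positivity,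
    fun {ε n c x a} h {y} hy {I} hI hx j hj => ?_⟩
  have hK := h.hK
  have hKa : |K| = K := abs_of_nonneg (by linarith)
  rw [hKa]
  refine tele_abs (f := fun j => Hq c x a j - 1 / 2 * a 1 0 ^ 2 * tt c j ^ 2
        - 1 / 6 * Rh c x a y 0 * tt c j ^ 3 - 1 / 24 * be a y 0 * tt c j ^ 4) (p := 4) (n := I)
    (fun i hi => h.c0 i (hi.trans_le hI)) (h.tt1 hI) (by positivity) h.e0
    (by simp [tt_zero, Hq]) (fun j hj => ?_) j hj
  have hjn : j < n := hj.trans_le hI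
  have i2 := hD' h hy hI hx (j + 1) hj
  have hc0 := h.c0 j hjn
  have hc1 := h.c_le hjn
  have hcc := h.cc hjn
  have hc3 := h.c3 hjn
  have ht0 := h.tt0 (show j + 1 ≤ n from hjn)
  have ht1 := h.tt1 (show j + 1 ≤ n from hjn)
  have hb := be_bd h hy
  have hr := h.rh_bd (Nat.zero_le n) hy
  have hg := h.g0_bd
  have e : Hq c x a (j + 1) - 1 / 2 * a 1 0 ^ 2 * tt c (j + 1) ^ 2
        - 1 / 6 * Rh c x a y 0 * tt c (j + 1) ^ 3 - 1 / 24 * be a y 0 * tt c (j + 1) ^ 4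
      - (Hq c x a j - 1 / 2 * a 1 0 ^ 2 * tt c j ^ 2 - 1 / 6 * Rh c x a y 0 * tt c j ^ 3
        - 1 / 24 * be a y 0 * tt c j ^ 4)
      = c j * (Gq c x a (j + 1) - a 1 0 ^ 2 * tt c (j + 1)
          - 1 / 2 * Rh c x a y 0 * tt c (j + 1) ^ 2 - 1 / 6 * be a y 0 * tt c (j + 1) ^ 3)
        + (1 / 2 * a 1 0 ^ 2 * c j ^ 2 + Rh c x a y 0 * (1 / 2 * (tt c (j + 1) * c j ^ 2)
          + -(1 / 6) * c j ^ 3) + be a y 0 * (1 / 4 * (tt c (j + 1) ^ 2 * c j ^ 2)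
          + -(1 / 6) * (tt c (j + 1) * c j ^ 3) + 1 / 24 * (c j * c j ^ 3))) := by
    rw [Hq_succ]
    have e2 : tt c j = tt c (j + 1) - c j := by rw [tt_succ]; ring
    rw [e2]; ring
  rw [e]
  refine (abs_add_le _ _).trans ?_
  rw [abs_mul (c j), abs_of_nonneg hc0]
  have i3 := mul_le_mul_of_nonneg_left i2 hc0
  have hce : 0 ≤ c j * ε := mul_nonneg hc0 h.e0
  have n2 : |c j ^ 2| ≤ c j * ε := by rw [abs_of_nonneg (sq_nonneg _)]; exact hcc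
  have n3 : |c j ^ 3| ≤ c j * ε := by rw [abs_of_nonneg (pow_nonneg hc0 3)]; exact hc3
  have tb : |tt c (j + 1)| ≤ 1 := by rw [abs_of_nonneg ht0]; exact ht1
  have tb2 : |tt c (j + 1) ^ 2| ≤ 1 := by
    rw [abs_of_nonneg (sq_nonneg _)]; exact pow_le_one₀ ht0 ht1
  have cb : |c j| ≤ 1 := by rw [abs_of_nonneg hc0]; exact hc1
  have n4 : |tt c (j + 1) * c j ^ 2| ≤ c j * ε := (am tb n2).trans (le_of_eq (one_mul _))
  have n5 : |tt c (j + 1) * c j ^ 3| ≤ c j * ε := (am tb n3).trans (le_of_eq (one_mul _))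
  have n6 : |tt c (j + 1) ^ 2 * c j ^ 2| ≤ c j * ε := (am tb2 n2).trans (le_of_eq (one_mul _))
  have n7 : |c j * c j ^ 3| ≤ c j * ε := (am cb n3).trans (le_of_eq (one_mul _))
  have q1 : |(1 / 2 : ℝ)| ≤ 1 / 2 := by norm_num
  have q2 : |(-(1 / 6) : ℝ)| ≤ 1 / 6 := by norm_num
  have q3 : |(1 / 4 : ℝ)| ≤ 1 / 4 := by norm_num
  have q4 : |(1 / 24 : ℝ)| ≤ 1 / 24 := by norm_num
  have i4 : |1 / 2 * a 1 0 ^ 2 * c j ^ 2 + Rh c x a y 0 * (1 / 2 * (tt c (j + 1) * c j ^ 2)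
          + -(1 / 6) * c j ^ 3) + be a y 0 * (1 / 4 * (tt c (j + 1) ^ 2 * c j ^ 2)
          + -(1 / 6) * (tt c (j + 1) * c j ^ 3) + 1 / 24 * (c j * c j ^ 3))|
          ≤ (K ^ 2 + 10 * K ^ 3 + 7 * K ^ 4) * (c j * ε) := by
    refine (abs_add_three _ _ _).trans ((add_le_add (add_le_add (am (am q1 hg) n2)
      (am hr ((abs_add_le _ _).trans (add_le_add (am q1 n4) (am q2 n3)))))
      (am hb ((abs_add_three _ _ _).trans (add_le_add (add_le_add (am q3 n6) (am q2 n5))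
        (am q4 n7))))).trans ?_)
    have w1 : 0 ≤ K ^ 4 * (c j * ε) := by positivity
    have w2 : 0 ≤ K ^ 3 * (c j * ε) := by positivity
    have w3 : 0 ≤ K ^ 2 * (c j * ε) := by positivity
    linarith only [w1, w2, w3]
  have i5 : 0 ≤ (K ^ 2 + 10 * K ^ 3 + 7 * K ^ 4) * (c j * tt c (j + 1) ^ 4) := by positivity
  calc _ ≤ c j * (D * (tt c (j + 1) ^ 4 + ε))
      + (K ^ 2 + 10 * K ^ 3 + 7 * K ^ 4) * (c j * ε) := add_le_add i3 i4
    _ ≤ _ := by linarith only [i5]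

end
end Pool.Agent.LibOS45
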