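import Pool.Agent.LibOS45.Strip

/-!
# One level: class preservation and closeness
-/

namespace Pool.Agent.LibOS45
open MeasureTheory ProbabilityTheory

noncomputable section

section one
variable {r N1 N2 m c : ℝ} {B : ℂ → ℂ} {z : ℂ}

/-- admissible (level, time) -/
structure Adm (m c : ℝ) : Prop where
  m0 : 0 < m
  m1 : m ≤ 1
  c0 : 0 ≤ c
  c1 : c ≤ 1
  cs : C1 * c ≤ 1 / 2

lemma MM_half (h : Cl r N1 N2 B) (hN1 : N1 ≤ 2) (hN2 : N2 ≤ 4) (hz : z ∈ St r)
    (hm : 0 ≤ m) (hm1 : m ≤ 1) (hc0 : 0 ≤ c) (hc : c ≤ 1) (hs : C1 * c ≤ 1 / 2) :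
    ‖MM m c B z - 1‖ ≤ 1 / 2 := by
  refine (MM_sub_one_le h hN1 hN2 hz hm hm1 hc0 hc).trans ?_
  have : C1 * m * c ≤ C1 * c := by
    have h1 : 0 ≤ C1 * c := mul_nonneg C1_pos.le hc0
    have h2 := mul_le_mul_of_nonneg_left hm1 h1; linarith only [h2]
  linarith

lemma slit_of_half {w : ℂ} (h : ‖w - 1‖ ≤ 1 / 2) : w ∈ Complex.slitPlane := by
  have h1 : |(w - 1).re| ≤ 1 / 2 := (Complex.abs_re_le_norm _).trans h
  left
  have h2 := (abs_le.1 h1).1
  simp at h2
  linarith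

lemma ne_zero_of_half {w : ℂ} (h : ‖w - 1‖ ≤ 1 / 2) : w ≠ 0 :=
  Complex.slitPlane_ne_zero (slit_of_half h)

lemma half_le_norm {w : ℂ} (h : ‖w - 1‖ ≤ 1 / 2) : 1 / 2 ≤ ‖w‖ := by
  have := norm_sub_norm_le (1 : ℂ) (1 - w)
  have e : (1 : ℂ) - (1 - w) = w := by ring
  rw [e, norm_one, norm_sub_rev] at this
  linarith

/-- tilted average of a bounded function -/
lemma K_le {φ : ℝ → ℂ} {P : ℝ} (hφ : ∀ g, ‖φ g‖ ≤ P) (hP : 0 ≤ P)
    (h : Cl r N1 N2 B) (hN1 : N1 ≤ 2) (hN2 : N2 ≤ 4) (hz : z ∈ St r) (ha : Adm m c) :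
    ‖(∫ g, φ g * Complex.exp (wc m c B z g) ∂γ) / MM m c B z‖ ≤ P * (1 + 4 * C1 * c) := by
  obtain ⟨m0, m1, c0, c1, cs⟩ := ha
  have hi := cexp_int h hN1 hz m0.le m1 c1
  have h1 : ‖∫ g, φ g * Complex.exp (wc m c B z g) ∂γ‖ ≤ P * (1 + C1 * c) := by
    have hb : ∀ g, ‖φ g * Complex.exp (wc m c B z g)‖ ≤ P * ‖Complex.exp (wc m c B z g)‖ := by
      intro g; rw [norm_mul]; exact mul_le_mul_of_nonneg_right (hφ g) (norm_nonneg _)
    refine (norm_integral_le_of_norm_le (hi.norm.const_mul P)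
      (Filter.Eventually.of_forall hb)).trans ?_
    rw [integral_const_mul]
    refine mul_le_mul_of_nonneg_left ?_ hP
    refine (int_norm_cexp_le h hN1 hN2 hz m0.le m1 c0 c1).trans ?_
    have h1 : 0 ≤ C1 * c := mul_nonneg C1_pos.le c0
    have h2 := mul_le_mul_of_nonneg_left m1 h1; linarith only [h2]
  have hh := MM_sub_one_le h hN1 hN2 hz m0.le m1 c0 c1
  have h2 : 1 - C1 * c ≤ ‖MM m c B z‖ := by
    have := norm_sub_norm_le (1 : ℂ) (1 - MM m c B z)
    have e : (1 : ℂ) - (1 - MM m c B z) = MM m c B z := by ring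
    rw [e, norm_one, norm_sub_rev] at this
    have h1 : 0 ≤ C1 * c := mul_nonneg C1_pos.le c0
    have h2 := mul_le_mul_of_nonneg_left m1 h1; linarith only [this, hh, h2]
  have h0 : 0 ≤ C1 * c := mul_nonneg C1_pos.le c0
  rw [norm_div, div_le_iff₀ (by linarith)]
  refine h1.trans ?_
  rw [mul_assoc]
  refine mul_le_mul_of_nonneg_left ?_ hP
  have h3 : 1 + C1 * c ≤ (1 + 4 * (C1 * c)) * (1 - C1 * c) := by have h9 := mul_le_mul_of_nonneg_left cs h0; linarith only [h9]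
  refine h3.trans ?_
  have : 1 + 4 * C1 * c = 1 + 4 * (C1 * c) := by ring
  rw [this]
  exact mul_le_mul_of_nonneg_left h2 (by linarith)

/-- derivative of tilted integrals in the space variable -/
lemma hasDerivAt_int {u : ℂ → ℂ} {U0 U1 : ℝ} (hu : DifferentiableOn ℂ u (St r))
    (hu0 : ∀ z ∈ St r, ‖u z‖ ≤ U0) (hu1 : ∀ z ∈ St r, ‖deriv u z‖ ≤ U1)
    (h : Cl r N1 N2 B) (hN1 : N1 ≤ 2) (hz : z ∈ St r) (hm : 0 ≤ m) (hm1 : m ≤ 1)
    (hc1 : c ≤ 1) :
    HasDerivAt (fun z => ∫ g, u (z + hh c g) * Complex.exp (wc m c B z g) ∂γ)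
      (∫ g, (deriv u (z + hh c g) + u (z + hh c g) *
        ((m : ℂ) * (deriv B (z + hh c g) - deriv B z))) * Complex.exp (wc m c B z g) ∂γ) z := by
  have hU0 : 0 ≤ U0 := (norm_nonneg _).trans (hu0 z hz)
  have hU1 : 0 ≤ U1 := (norm_nonneg _).trans (hu1 z hz)
  refine (hasDerivAt_integral_of_dominated_loc_of_deriv_le (μ := γ)
    (F := fun z g => u (z + hh c g) * Complex.exp (wc m c B z g))
    (F' := fun z g => (deriv u (z + hh c g) + u (z + hh c g) *
        ((m : ℂ) * (deriv B (z + hh c g) - deriv B z))) * Complex.exp (wc m c B z g))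
    (s := St r) (bound := fun g => (U1 + U0 * 4) * W g)
    ((isOpen_St r).mem_nhds hz) ?_ ?_ ?_ ?_ (W_int.const_mul _) ?_).2
  · filter_upwards [(isOpen_St r).mem_nhds hz] with w hw
    exact ((cont_shift hu.continuousOn hw c).mul (cexp_cont h hw)).aestronglyMeasurable
  · refine int_of_W (C := U0) ((cont_shift hu.continuousOn hz c).mul (cexp_cont h hz)) fun g => ?_
    exact dom_le (φ := fun g => u (z + hh c g)) 0 (by norm_num) hU0 h hN1 hz hm hm1 hc1
      (fun g => by simpa using hu0 _ (shift_mem hz c g)) g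
  · have h1 : Continuous fun g => deriv u (z + hh c g) :=
      cont_shift (hu.deriv (isOpen_St r)).continuousOn hz c
    have h2 : Continuous fun g => deriv B (z + hh c g) := cont_shift h.diff'.continuousOn hz c
    have h3 : Continuous fun g => u (z + hh c g) := cont_shift hu.continuousOn hz c
    exact ((h1.add (h3.mul (continuous_const.mul (h2.sub continuous_const)))).mul
      (cexp_cont h hz)).aestronglyMeasurable
  · refine Filter.Eventually.of_forall fun g w hw => ?_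
    refine dom_le (φ := fun g => deriv u (w + hh c g) + u (w + hh c g) *
        ((m : ℂ) * (deriv B (w + hh c g) - deriv B w))) 0 (by norm_num) (by positivity) h hN1 hw
        hm hm1 hc1 (fun g => ?_) g
    rw [pow_zero, mul_one]
    refine (norm_add_le _ _).trans (add_le_add (hu1 _ (shift_mem hw c g)) ?_)
    rw [norm_mul, norm_mul, Complex.norm_real, Real.norm_eq_abs, abs_of_nonneg hm]
    refine mul_le_mul (hu0 _ (shift_mem hw c g)) ?_ (by positivity) hU0
    have h1 := h.b1 _ (shift_mem hw c g)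
    have h2 := h.b1 _ hw
    have h3 : ‖deriv B (w + hh c g) - deriv B w‖ ≤ 4 := by
      refine (norm_sub_le _ _).trans ?_; linarith
    have h4 := norm_nonneg (deriv B (w + hh c g) - deriv B w)
    have h5 := mul_le_mul_of_nonneg_right hm1 h4; linarith only [h5, h3]
  · refine Filter.Eventually.of_forall fun g w hw => ?_
    have hs := shift_mem hw c g
    have h2 : HasDerivAt (fun z => u (z + hh c g)) (deriv u (w + hh c g)) w :=
      HasDerivAt.comp_add_const w (hh c g)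
        ((hu.differentiableAt ((isOpen_St r).mem_nhds hs)).hasDerivAt)
    have h3 : HasDerivAt (fun z => B (z + hh c g)) (deriv B (w + hh c g)) w :=
      HasDerivAt.comp_add_const w (hh c g) ((h.diffAt hs).hasDerivAt)
    have h4 : HasDerivAt (fun z => wc m c B z g)
        ((m : ℂ) * (deriv B (w + hh c g) - deriv B w)) w :=
      (h3.sub (h.diffAt hw).hasDerivAt).const_mul _
    have h5 := h2.mul h4.cexp
    exact h5.congr_deriv (by ring)

/-- numerator of the first derivative -/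
def NN (m c : ℝ) (B : ℂ → ℂ) (z : ℂ) : ℂ :=
  ∫ g, deriv B (z + hh c g) * Complex.exp (wc m c B z g) ∂γ

lemma hasDerivAt_MM (h : Cl r N1 N2 B) (hN1 : N1 ≤ 2) (hz : z ∈ St r) (hm : 0 ≤ m)
    (hm1 : m ≤ 1) (hc1 : c ≤ 1) :
    HasDerivAt (MM m c B) ((m : ℂ) * (NN m c B z - deriv B z * MM m c B z)) z := by
  have h1 := hasDerivAt_int (u := fun _ => 1) (U0 := 1) (U1 := 0) (m := m) (c := c) (z := z)
    (differentiableOn_const 1) (by simp) (by simp) h hN1 hz hm hm1 hc1
  simp only [one_mul, deriv_const, zero_add] at h1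
  refine (show HasDerivAt (MM m c B) _ z from h1).congr_deriv ?_
  have hi := cexp_int h hN1 hz hm hm1 hc1
  have hi2 : Integrable (fun g => deriv B (z + hh c g) * Complex.exp (wc m c B z g)) γ := by
    refine int_of_W (C := 2) ((cont_shift h.diff'.continuousOn hz c).mul (cexp_cont h hz))
      fun g => ?_
    exact dom_le (φ := fun g => deriv B (z + hh c g)) 0 (by norm_num) (by norm_num) h hN1 hz hm
      hm1 hc1 (fun g => by simpa using (h.b1 _ (shift_mem hz c g)).trans hN1) g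
  unfold NN MM
  rw [← integral_const_mul, ← integral_sub hi2 (hi.const_mul _), ← integral_const_mul]
  refine integral_congr_ae (Filter.Eventually.of_forall fun g => ?_)
  simp only; ring

lemma hasDerivAt_NN (h : Cl r N1 N2 B) (hN1 : N1 ≤ 2) (hz : z ∈ St r) (hm : 0 ≤ m)
    (hm1 : m ≤ 1) (hc1 : c ≤ 1) :
    HasDerivAt (NN m c B) (∫ g, (deriv (deriv B) (z + hh c g) + deriv B (z + hh c g) *
        ((m : ℂ) * (deriv B (z + hh c g) - deriv B z))) * Complex.exp (wc m c B z g) ∂γ) z :=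
  hasDerivAt_int (u := deriv B) h.diff' h.b1 h.b2 h hN1 hz hm hm1 hc1

lemma hasDerivAt_TC (h : Cl r N1 N2 B) (hN1 : N1 ≤ 2) (hN2 : N2 ≤ 4) (hz : z ∈ St r)
    (ha : Adm m c) : HasDerivAt (TC m c B) (NN m c B z / MM m c B z) z := by
  obtain ⟨m0, m1, c0, c1, cs⟩ := ha
  have hM := hasDerivAt_MM h hN1 hz m0.le m1 c1
  have hhalf := MM_half h hN1 hN2 hz m0.le m1 c0 c1 cs
  have hlog := hM.clog (slit_of_half hhalf)
  have h1 := (h.diffAt hz).hasDerivAt.add (hlog.const_mul (1 / (m : ℂ)))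
  have hmz : (m : ℂ) ≠ 0 := by exact_mod_cast m0.ne'
  have hMz := ne_zero_of_half hhalf
  refine (show HasDerivAt (TC m c B) _ z from h1).congr_deriv ?_
  field_simp
  ring

lemma deriv_TC (h : Cl r N1 N2 B) (hN1 : N1 ≤ 2) (hN2 : N2 ≤ 4) (hz : z ∈ St r)
    (ha : Adm m c) : deriv (TC m c B) z = NN m c B z / MM m c B z :=
  (hasDerivAt_TC h hN1 hN2 hz ha).deriv

lemma norm_deriv_TC (h : Cl r N1 N2 B) (hN1 : N1 ≤ 2) (hN2 : N2 ≤ 4) (hz : z ∈ St r)
    (ha : Adm m c) : ‖deriv (TC m c B) z‖ ≤ N1 * (1 + 4 * C1 * c) := by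
  rw [deriv_TC h hN1 hN2 hz ha]
  exact K_le (φ := fun g => deriv B (z + hh c g)) (fun g => h.b1 _ (shift_mem hz c g))
    (h.N1_nonneg hz) h hN1 hN2 hz ha

/-- the constant of the class preservation -/
def C2 : ℝ := 4 * C1 + 8 * J + 16 * J ^ 2

lemma C2_pos : 0 < C2 := by unfold C2; have := J_pos; have := C1_pos; positivity

lemma norm_deriv2_TC (h : Cl r N1 N2 B) (hN1 : N1 ≤ 2) (hN2 : N2 ≤ 4) (hz : z ∈ St r)
    (ha : Adm m c) : ‖deriv (deriv (TC m c B)) z‖ ≤ N2 * (1 + C2 * c) := by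
  have ha' := ha
  obtain ⟨m0, m1, c0, c1, cs⟩ := ha
  have hhalf := MM_half h hN1 hN2 hz m0.le m1 c0 c1 cs
  have hMz := ne_zero_of_half hhalf
  have hMh := half_le_norm hhalf
  have hM := hasDerivAt_MM h hN1 hz m0.le m1 c1
  have hN := hasDerivAt_NN h hN1 hz m0.le m1 c1
  have hN2' := h.N2_nonneg hz
  have heq : deriv (TC m c B) =ᶠ[nhds z] fun w => NN m c B w / MM m c B w := by
    filter_upwards [(isOpen_St r).mem_nhds hz] with w hw
    exact deriv_TC h hN1 hN2 hw ha'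
  have hd := hN.div hM hMz
  rw [heq.deriv_eq, show (fun w => NN m c B w / MM m c B w) = NN m c B / MM m c B from rfl,
    hd.deriv]
  -- rewrite the derivative
  set E : ℝ → ℂ := fun g => Complex.exp (wc m c B z g) with hE
  set X : ℝ → ℂ := fun g => deriv B (z + hh c g) - deriv B z with hX
  have hXc : Continuous X :=
    (cont_shift h.diff'.continuousOn hz c).sub continuous_const
  have hEc : Continuous E := cexp_cont h hz
  have hXb : ∀ g, ‖X g‖ ≤ N2 * (√c * |g|) := fun g => by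
    have := h.inc' hz (shift_mem hz c g)
    rw [add_sub_cancel_left, norm_hh] at this
    exact this
  have hXE : ∀ g, ‖X g * E g‖ ≤ (N2 * √c) * W g := fun g =>
    dom_le (φ := X) 1 (by norm_num) (by positivity) h hN1 hz m0.le m1 c1
      (fun g => by rw [pow_one]; exact (hXb g).trans (le_of_eq (by ring))) g
  have hXXE : ∀ g, ‖(X g) ^ 2 * E g‖ ≤ (N2 ^ 2 * c) * W g := fun g =>
    dom_le (φ := fun g => (X g) ^ 2) 2 (by norm_num) (by positivity) h hN1 hz m0.le m1 c1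
      (fun g => by
        rw [norm_pow]
        calc ‖X g‖ ^ 2 ≤ (N2 * (√c * |g|)) ^ 2 := pow_le_pow_left₀ (norm_nonneg _) (hXb g) 2
          _ = N2 ^ 2 * (√c ^ 2) * |g| ^ 2 := by ring
          _ = N2 ^ 2 * c * |g| ^ 2 := by rw [Real.sq_sqrt c0]) g
  have hB2E : ∀ g, ‖deriv (deriv B) (z + hh c g) * E g‖ ≤ N2 * W g := fun g =>
    dom_le (φ := fun g => deriv (deriv B) (z + hh c g)) 0 (by norm_num) hN2' h hN1 hz m0.le m1 c1
      (fun g => by simpa using h.b2 _ (shift_mem hz c g)) g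
  have iE : Integrable E γ := cexp_int h hN1 hz m0.le m1 c1
  have iX : Integrable (fun g => X g * E g) γ := int_of_W (hXc.mul hEc) hXE
  have iXX : Integrable (fun g => (X g) ^ 2 * E g) γ := int_of_W ((hXc.pow 2).mul hEc) hXXE
  have iB : Integrable (fun g => deriv (deriv B) (z + hh c g) * E g) γ :=
    int_of_W ((cont_shift h.diff''.continuousOn hz c).mul hEc) hB2E
  have eN : NN m c B z = (∫ g, X g * E g ∂γ) + deriv B z * MM m c B z := by
    unfold NN MM
    rw [← integral_const_mul, ← integral_add iX (iE.const_mul _)]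
    congr 1; ext g; simp only [hX, hE]; ring
  have eN' : (∫ g, (deriv (deriv B) (z + hh c g) + deriv B (z + hh c g) *
        ((m : ℂ) * (deriv B (z + hh c g) - deriv B z))) * Complex.exp (wc m c B z g) ∂γ)
      = (∫ g, deriv (deriv B) (z + hh c g) * E g ∂γ) + (m : ℂ) * (∫ g, (X g) ^ 2 * E g ∂γ)
        + (m : ℂ) * deriv B z * (∫ g, X g * E g ∂γ) := by
    have iBX : Integrable (fun g => deriv (deriv B) (z + hh c g) * E g
        + (m : ℂ) * ((X g) ^ 2 * E g)) γ := iB.add (iXX.const_mul _)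
    rw [← integral_const_mul, ← integral_const_mul, ← integral_add iB (iXX.const_mul _),
      ← integral_add iBX (iX.const_mul _)]
    congr 1; ext g; simp only [hX, hE]; ring
  rw [eN', eN]
  set I2 := ∫ g, deriv (deriv B) (z + hh c g) * E g ∂γ
  set IXX := ∫ g, (X g) ^ 2 * E g ∂γ
  set IX := ∫ g, X g * E g ∂γ
  have key : ((I2 + (m : ℂ) * IXX + (m : ℂ) * deriv B z * IX) * MM m c B z
      - (IX + deriv B z * MM m c B z)
        * ((m : ℂ) * (IX + deriv B z * MM m c B z - deriv B z * MM m c B z))) / MM m c B z ^ 2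
      = I2 / MM m c B z + (m : ℂ) * (IXX / MM m c B z - (IX / MM m c B z) ^ 2) := by
    field_simp
    ring
  rw [key]
  have b1 : ‖I2 / MM m c B z‖ ≤ N2 * (1 + 4 * C1 * c) :=
    K_le (φ := fun g => deriv (deriv B) (z + hh c g)) (fun g => h.b2 _ (shift_mem hz c g))
      hN2' h hN1 hN2 hz ha'
  have b2 : ‖IXX / MM m c B z‖ ≤ 2 * (N2 ^ 2 * c * J) := by
    rw [norm_div, div_le_iff₀ (by linarith)]
    have := norm_int_le_W hXXE
    have h0 : 0 ≤ N2 ^ 2 * c * J := by have := J_pos; positivity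
    have h9 := mul_le_mul_of_nonneg_left hMh h0; linarith only [h9, this]
  have b3 : ‖IX / MM m c B z‖ ≤ 2 * (N2 * √c * J) := by
    rw [norm_div, div_le_iff₀ (by linarith)]
    have := norm_int_le_W hXE
    have h0 : 0 ≤ N2 * √c * J := by have := J_pos; positivity
    have h9 := mul_le_mul_of_nonneg_left hMh h0; linarith only [h9, this]
  have b4 : ‖(IX / MM m c B z) ^ 2‖ ≤ 4 * (N2 ^ 2 * c * J ^ 2) := by
    rw [norm_pow]
    calc ‖IX / MM m c B z‖ ^ 2 ≤ (2 * (N2 * √c * J)) ^ 2 := pow_le_pow_left₀ (norm_nonneg _) b3 2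
      _ = 4 * (N2 ^ 2 * (√c ^ 2) * J ^ 2) := by ring
      _ = 4 * (N2 ^ 2 * c * J ^ 2) := by rw [Real.sq_sqrt c0]
  have b5 : ‖(m : ℂ) * (IXX / MM m c B z - (IX / MM m c B z) ^ 2)‖
      ≤ 2 * (N2 ^ 2 * c * J) + 4 * (N2 ^ 2 * c * J ^ 2) := by
    rw [norm_mul, Complex.norm_real, Real.norm_eq_abs, abs_of_pos m0]
    have := (norm_sub_le (IXX / MM m c B z) ((IX / MM m c B z) ^ 2)).trans (add_le_add b2 b4)
    have h0 := norm_nonneg (IXX / MM m c B z - (IX / MM m c B z) ^ 2)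
    have h1 := mul_le_mul_of_nonneg_right m1 h0; linarith only [h1, this]
  refine (norm_add_le _ _).trans ((add_le_add b1 b5).trans ?_)
  have h4 : N2 ^ 2 * c ≤ 4 * (N2 * c) := by
    have : 0 ≤ N2 * c := by positivity
    have h9 := mul_le_mul_of_nonneg_right hN2 this; linarith only [h9]
  have hJ := J_pos
  have h5 : N2 ^ 2 * c * J ≤ 4 * (N2 * c) * J := mul_le_mul_of_nonneg_right h4 hJ.le
  have h6 : N2 ^ 2 * c * J ^ 2 ≤ 4 * (N2 * c) * J ^ 2 :=
    mul_le_mul_of_nonneg_right h4 (by positivity)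
  unfold C2
  linarith only [h5, h6]

/-- class preservation -/
lemma Cl.step (h : Cl r N1 N2 B) (hN1 : N1 ≤ 2) (hN2 : N2 ≤ 4) (ha : Adm m c) :
    Cl r (N1 * (1 + C2 * c)) (N2 * (1 + C2 * c)) (TC m c B) := by
  refine ⟨fun z hz => (hasDerivAt_TC h hN1 hN2 hz ha).differentiableAt.differentiableWithinAt,
    fun z hz => ?_, fun z hz => norm_deriv2_TC h hN1 hN2 hz ha⟩
  refine (norm_deriv_TC h hN1 hN2 hz ha).trans ?_
  refine mul_le_mul_of_nonneg_left ?_ (h.N1_nonneg hz)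
  have hJ := J_pos
  have := ha.c0
  unfold C2
  nlinarith [mul_nonneg hJ.le this, mul_nonneg (sq_nonneg J) this]

lemma log_le_of_half {w : ℂ} (h : ‖w - 1‖ ≤ 1 / 2) : ‖Complex.log w‖ ≤ 2 * ‖w - 1‖ := by
  have := Complex.norm_log_one_add_half_le_self h
  rw [add_sub_cancel] at this
  have h0 := norm_nonneg (w - 1)
  linarith

lemma TC_close (h : Cl r N1 N2 B) (hN1 : N1 ≤ 2) (hN2 : N2 ≤ 4) (hz : z ∈ St r)
    (ha : Adm m c) : ‖TC m c B z - B z‖ ≤ 2 * C1 * c := by
  obtain ⟨m0, m1, c0, c1, cs⟩ := ha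
  have hhalf := MM_half h hN1 hN2 hz m0.le m1 c0 c1 cs
  have h1 := log_le_of_half hhalf
  have h2 := MM_sub_one_le h hN1 hN2 hz m0.le m1 c0 c1
  unfold TC
  rw [add_sub_cancel_left, norm_mul, norm_div, norm_one, Complex.norm_real, Real.norm_eq_abs,
    abs_of_pos m0, one_div, inv_mul_le_iff₀ m0]
  calc ‖Complex.log (MM m c B z)‖ ≤ 2 * (C1 * m * c) := h1.trans (by linarith)
    _ = m * (2 * C1 * c) := by ring

end one

end
end Pool.Agent.LibOS45
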