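import Pool.Agent.LibOS45.Level

/-!
# One level: Lipschitz dependence on the function and on the level
-/

namespace Pool.Agent.LibOS45
open MeasureTheory ProbabilityTheory

noncomputable section

/-- derivative in a real parameter -/
lemma hasDerivAt_param {φ w0 w1 : ℝ → ℂ} {P : ℝ} {k : ℕ} (hk : k ≤ 4) (hP : 0 ≤ P)
    (cφ : Continuous φ) (c0 : Continuous w0) (c1 : Continuous w1)
    (hφ : ∀ g, ‖φ g‖ ≤ P * |g| ^ k) (h1 : ∀ g, ‖w1 g‖ ≤ 4 * |g|)
    (h0 : ∀ θ ∈ Set.Ioo (-(1/4) : ℝ) (5/4), ∀ g, ‖w0 g + θ * w1 g‖ ≤ 3 * |g|)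
    {θ : ℝ} (hθ : θ ∈ Set.Ioo (-(1/4) : ℝ) (5/4)) :
    HasDerivAt (fun θ : ℝ => ∫ g, φ g * Complex.exp (w0 g + θ * w1 g) ∂γ)
      (∫ g, (φ g * w1 g) * Complex.exp (w0 g + θ * w1 g) ∂γ) θ := by
  have key : ∀ θ ∈ Set.Ioo (-(1/4) : ℝ) (5/4), ∀ g,
      ‖Complex.exp (w0 g + θ * w1 g)‖ ≤ Real.exp (3 * |g|) := fun θ hθ g =>
    (Complex.norm_exp_le_exp_norm _).trans (Real.exp_le_exp.2 (h0 θ hθ g))
  have key1 : ∀ θ ∈ Set.Ioo (-(1/4) : ℝ) (5/4), ∀ g,
      ‖φ g * Complex.exp (w0 g + θ * w1 g)‖ ≤ P * W g := fun θ hθ g => by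
    rw [norm_mul]
    calc _ ≤ (P * |g| ^ k) * Real.exp (3 * |g|) :=
          mul_le_mul (hφ g) (key θ hθ g) (norm_nonneg _) (by positivity)
      _ = P * (|g| ^ k * Real.exp (3 * |g|)) := by ring
      _ ≤ P * W g := mul_le_mul_of_nonneg_left (le_W (by omega) (by norm_num) g) hP
  have key2 : ∀ θ ∈ Set.Ioo (-(1/4) : ℝ) (5/4), ∀ g,
      ‖(φ g * w1 g) * Complex.exp (w0 g + θ * w1 g)‖ ≤ (4 * P) * W g := fun θ hθ g => by
    rw [norm_mul, norm_mul]
    calc _ ≤ ((P * |g| ^ k) * (4 * |g|)) * Real.exp (3 * |g|) :=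
          mul_le_mul (mul_le_mul (hφ g) (h1 g) (norm_nonneg _) (by positivity)) (key θ hθ g)
            (norm_nonneg _) (by positivity)
      _ = (4 * P) * (|g| ^ (k + 1) * Real.exp (3 * |g|)) := by ring
      _ ≤ (4 * P) * W g :=
          mul_le_mul_of_nonneg_left (le_W (by omega) (by norm_num) g) (by positivity)
  refine (hasDerivAt_integral_of_dominated_loc_of_deriv_le (μ := γ)
    (F := fun (θ : ℝ) g => φ g * Complex.exp (w0 g + θ * w1 g))
    (F' := fun (θ : ℝ) g => (φ g * w1 g) * Complex.exp (w0 g + θ * w1 g))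
    (s := Set.Ioo (-(1/4) : ℝ) (5/4)) (bound := fun g => (4 * P) * W g)
    (Ioo_mem_nhds hθ.1 hθ.2) ?_ ?_ ?_ ?_ (W_int.const_mul _) ?_).2
  · exact Filter.Eventually.of_forall fun t => by
      have : Continuous fun g => φ g * Complex.exp (w0 g + (t : ℂ) * w1 g) := by fun_prop
      exact this.aestronglyMeasurable
  · refine int_of_W (by fun_prop) (key1 θ hθ)
  · have : Continuous fun g => (φ g * w1 g) * Complex.exp (w0 g + (θ : ℂ) * w1 g) := by fun_prop
    exact this.aestronglyMeasurable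
  · exact Filter.Eventually.of_forall fun g t ht => key2 t ht g
  · refine Filter.Eventually.of_forall fun g t ht => ?_
    have h1 : HasDerivAt (fun t : ℝ => w0 g + (t : ℂ) * w1 g) (w1 g) t := by
      have h2 : HasDerivAt (fun t : ℝ => (t : ℂ)) 1 t := by
        simpa using (hasDerivAt_id (t : ℂ)).comp_ofReal
      have h3 := (h2.mul_const (w1 g)).const_add (w0 g)
      simpa using h3
    have h4 := (h1.cexp).const_mul (φ g)
    exact h4.congr_deriv (by ring)

section lip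
variable {r m c : ℝ} {A B : ℂ → ℂ} {z : ℂ}

/-- segment of functions -/
def seg (A B : ℂ → ℂ) (θ : ℝ) (z : ℂ) : ℂ := A z + (θ : ℂ) * (B z - A z)

lemma deriv_seg (hA : Cl r 2 4 A) (hB : Cl r 2 4 B) (θ : ℝ) {w : ℂ} (hw : w ∈ St r) :
    deriv (seg A B θ) w = deriv A w + (θ : ℂ) * (deriv B w - deriv A w) := by
  have h : HasDerivAt (seg A B θ) (deriv A w + (θ : ℂ) * (deriv B w - deriv A w)) w :=
    (hA.diffAt hw).hasDerivAt.add
      (((hB.diffAt hw).hasDerivAt.sub (hA.diffAt hw).hasDerivAt).const_mul _)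
  exact h.deriv

lemma seg_bd {x y : ℂ} {N θ : ℝ} (hx : ‖x‖ ≤ N) (hy : ‖y‖ ≤ N) (h0 : 0 ≤ θ) (h1 : θ ≤ 1) :
    ‖x + (θ : ℂ) * (y - x)‖ ≤ N := by
  have e : x + (θ : ℂ) * (y - x) = ((1 - θ : ℝ) : ℂ) * x + (θ : ℂ) * y := by push_cast; ring
  rw [e]
  refine (norm_add_le _ _).trans ?_
  rw [norm_mul, norm_mul, Complex.norm_real, Complex.norm_real, Real.norm_eq_abs,
    Real.norm_eq_abs, abs_of_nonneg h0, abs_of_nonneg (by linarith : 0 ≤ 1 - θ)]
  nlinarith [mul_le_mul_of_nonneg_left hx (by linarith : 0 ≤ 1 - θ),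
    mul_le_mul_of_nonneg_left hy h0]

lemma Cl.seg (hA : Cl r 2 4 A) (hB : Cl r 2 4 B) {θ : ℝ} (h0 : 0 ≤ θ) (h1 : θ ≤ 1) :
    Cl r 2 4 (seg A B θ) := by
  refine ⟨?_, fun z hz => ?_, fun z hz => ?_⟩
  · unfold LibOS45.seg
    exact hA.diff.add ((differentiableOn_const _).mul (hB.diff.sub hA.diff))
  · rw [deriv_seg hA hB θ hz]
    exact seg_bd (hA.b1 z hz) (hB.b1 z hz) h0 h1
  · have heq : deriv (LibOS45.seg A B θ) =ᶠ[nhds z]
        fun w => deriv A w + (θ : ℂ) * (deriv B w - deriv A w) := by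
      filter_upwards [(isOpen_St r).mem_nhds hz] with w hw
      exact deriv_seg hA hB θ hw
    have h : HasDerivAt (fun w => deriv A w + (θ : ℂ) * (deriv B w - deriv A w))
        (deriv (deriv A) z + (θ : ℂ) * (deriv (deriv B) z - deriv (deriv A) z)) z :=
      (hA.diffAt' hz).hasDerivAt.add
        (((hB.diffAt' hz).hasDerivAt.sub (hA.diffAt' hz).hasDerivAt).const_mul _)
    rw [heq.deriv_eq, h.deriv]
    exact seg_bd (hA.b2 z hz) (hB.b2 z hz) h0 h1

/-- Lipschitz dependence on the function -/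
lemma TC_lip (hA : Cl r 2 4 A) (hB : Cl r 2 4 B) {δ : ℝ}
    (hδ : ∀ z ∈ St r, ‖B z - A z‖ ≤ δ) (hz : z ∈ St r) (ha : Adm m c) :
    ‖TC m c B z - TC m c A z‖ ≤ δ * (1 + 4 * C1 * c) := by
  have ha' := ha
  obtain ⟨m0, m1, c0, c1, cs⟩ := ha
  have hδ0 : 0 ≤ δ := (norm_nonneg _).trans (hδ z hz)
  set w0 : ℝ → ℂ := wc m c A z with hw0
  set w1 : ℝ → ℂ := fun g => wc m c B z g - wc m c A z g with hw1
  have hwA : ∀ g, ‖wc m c A z g‖ ≤ 2 * |g| := norm_wc_le' hA le_rfl hz m0.le m1 c1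
  have hwB : ∀ g, ‖wc m c B z g‖ ≤ 2 * |g| := norm_wc_le' hB le_rfl hz m0.le m1 c1
  have cA := wc_cont hA hz m c
  have cB := wc_cont hB hz m c
  have eseg : ∀ θ : ℝ, ∀ g, wc m c (seg A B θ) z g = w0 g + (θ : ℂ) * w1 g := by
    intro θ g; simp only [hw0, hw1, wc, seg]; ring
  have hMM : ∀ θ : ℝ, MM m c (seg A B θ) z
      = ∫ g, 1 * Complex.exp (w0 g + (θ : ℂ) * w1 g) ∂γ := by
    intro θ; unfold MM; simp only [eseg, one_mul]
  have hder : ∀ θ ∈ Set.Ioo (-(1/4) : ℝ) (5/4),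
      HasDerivAt (fun θ : ℝ => MM m c (seg A B θ) z)
        (∫ g, (1 * w1 g) * Complex.exp (w0 g + (θ : ℂ) * w1 g) ∂γ) θ := by
    intro θ hθ
    simp only [hMM]
    refine hasDerivAt_param (φ := fun _ => 1) (P := 1) (k := 0) (by norm_num) (by norm_num)
      continuous_const cA (cB.sub cA) (by simp) (fun g => ?_) (fun t ht g => ?_) hθ
    · refine (norm_sub_le _ _).trans ?_
      linarith [hwA g, hwB g]
    · have e : w0 g + (t : ℂ) * w1 g
          = ((1 - t : ℝ) : ℂ) * wc m c A z g + (t : ℂ) * wc m c B z g := by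
        simp only [hw0, hw1]; push_cast; ring
      show ‖w0 g + (t : ℂ) * w1 g‖ ≤ 3 * |g|
      rw [e]
      refine (norm_add_le _ _).trans ?_
      rw [norm_mul, norm_mul, Complex.norm_real, Complex.norm_real, Real.norm_eq_abs,
        Real.norm_eq_abs]
      have h1 : |1 - t| + |t| ≤ 3 / 2 := by
        rcases abs_cases (1 - t) with ⟨h, -⟩ | ⟨h, -⟩ <;>
          rcases abs_cases t with ⟨h', -⟩ | ⟨h', -⟩ <;> rw [h, h'] <;>
          linarith [ht.1, ht.2]
      have h2 := mul_le_mul_of_nonneg_left (hwA g) (abs_nonneg (1 - t))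
      have h3 := mul_le_mul_of_nonneg_left (hwB g) (abs_nonneg t)
      have h4 : 0 ≤ |g| := abs_nonneg g
      nlinarith
  have hmz : (m : ℂ) ≠ 0 := by exact_mod_cast m0.ne'
  set F : ℝ → ℂ := fun θ => TC m c (seg A B θ) z with hF
  have hF' : ∀ θ ∈ Set.Icc (0 : ℝ) 1, HasDerivWithinAt F
      ((∫ g, (B (z + hh c g) - A (z + hh c g)) * Complex.exp (wc m c (seg A B θ) z g) ∂γ)
        / MM m c (seg A B θ) z) (Set.Icc (0 : ℝ) 1) θ := by
    intro θ hθ
    have hcl := hA.seg hB hθ.1 hθ.2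
    have hhalf := MM_half hcl le_rfl le_rfl hz m0.le m1 c0 c1 cs
    have hMz := ne_zero_of_half hhalf
    have h1 := hder θ ⟨by linarith [hθ.1], by linarith [hθ.2]⟩
    have h2 := h1.clog_real (slit_of_half hhalf)
    have h3 : HasDerivAt (fun θ : ℝ => seg A B θ z) (B z - A z) θ := by
      have h2 : HasDerivAt (fun t : ℝ => (t : ℂ)) 1 θ := by
        simpa using (hasDerivAt_id (θ : ℂ)).comp_ofReal
      have h3 := (h2.mul_const (B z - A z)).const_add (A z)
      simpa [seg] using h3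
    have h4 := h3.add (h2.const_mul (1 / (m : ℂ)))
    refine HasDerivAt.hasDerivWithinAt ((show HasDerivAt F _ θ from h4).congr_deriv ?_)
    have hi := cexp_int hcl le_rfl hz m0.le m1 c1
    have i1 : Integrable (fun g => w1 g * Complex.exp (wc m c (seg A B θ) z g)) γ := by
      refine int_of_W (C := 4) ((cB.sub cA).mul (cexp_cont hcl hz)) fun g => ?_
      exact dom_le (φ := w1) 1 (by norm_num) (by norm_num) hcl le_rfl hz m0.le m1 c1
        (fun g => by
          rw [pow_one]; refine (norm_sub_le _ _).trans ?_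
          linarith [hwA g, hwB g]) g
    have e1 : ∫ g, (1 * w1 g) * Complex.exp (w0 g + (θ : ℂ) * w1 g) ∂γ
        = ∫ g, w1 g * Complex.exp (wc m c (seg A B θ) z g) ∂γ := by
      simp only [eseg, one_mul]
    have e2 : (∫ g, (B (z + hh c g) - A (z + hh c g)) *
        Complex.exp (wc m c (seg A B θ) z g) ∂γ) = (B z - A z) * MM m c (seg A B θ) z
          + (1 / (m : ℂ)) * ∫ g, w1 g * Complex.exp (wc m c (seg A B θ) z g) ∂γ := by
      unfold MM
      rw [← integral_const_mul, ← integral_const_mul,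
        ← integral_add (hi.const_mul _) (i1.const_mul _)]
      refine integral_congr_ae (Filter.Eventually.of_forall fun g => ?_)
      simp only [hw1, wc]
      field_simp
      ring
    rw [e1, e2]
    field_simp
  have hfin := norm_image_sub_le_of_norm_deriv_le_segment_01' (f := F) hF'
    (C := δ * (1 + 4 * C1 * c)) (fun θ hθ => by
      have hcl := hA.seg hB hθ.1 hθ.2.le
      exact K_le (φ := fun g => B (z + hh c g) - A (z + hh c g))
        (fun g => hδ _ (shift_mem hz c g)) hδ0 hcl le_rfl le_rfl hz ha')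
  have e0 : seg A B 0 = A := by ext w; simp [seg]
  have e1 : seg A B 1 = B := by ext w; simp [seg]
  simpa [hF, e0, e1] using hfin

/-- constant for the dependence on the level -/
def C3 : ℝ := 8 * J + 16 * J ^ 2

lemma C3_pos : 0 < C3 := by unfold C3; have := J_pos; positivity

/-- Lipschitz dependence on the level -/
lemma TC_lip_m (hB : Cl r 2 4 B) (hz : z ∈ St r) {m m' c : ℝ} (ha : Adm m c) (ha' : Adm m' c) :
    ‖TC m' c B z - TC m c B z‖ ≤ C3 * c * |m' - m| := by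
  have ha2 := ha'
  obtain ⟨-, -, c0, c1, cs⟩ := ha'
  set D : ℝ → ℂ := fun g => B (z + hh c g) - B z with hD
  have cD : Continuous D := (cont_shift hB.diff.continuousOn hz c).sub continuous_const
  have hDb : ∀ g, ‖D g‖ ≤ 2 * (√c * |g|) := fun g => by
    have := hB.inc hz (√c * g)
    rw [abs_sg] at this
    exact this
  have hDb' : ∀ g, ‖D g‖ ≤ 2 * |g| := fun g => by
    have := sg_le c1 g
    linarith [hDb g]
  have ewc : ∀ s : ℝ, ∀ g, wc s c B z g = 0 + (s : ℂ) * D g := by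
    intro s g; simp [wc, hD]
  have hb3 : ∀ t ∈ Set.Ioo (-(1/4) : ℝ) (5/4), ∀ g, ‖(0 : ℂ) + (t : ℂ) * D g‖ ≤ 3 * |g| := by
    intro t ht g
    rw [zero_add, norm_mul, Complex.norm_real, Real.norm_eq_abs]
    have h1 : |t| ≤ 3 / 2 := abs_le.2 ⟨by linarith [ht.1], by linarith [ht.2]⟩
    have h2 := hDb' g
    have h3 := norm_nonneg (D g)
    have h4 := abs_nonneg t
    nlinarith
  have hb4 : ∀ g, ‖D g‖ ≤ 4 * |g| := fun g => by
    have := abs_nonneg g
    linarith [hDb' g]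
  have hg1 : ∀ s ∈ Set.Ioo (-(1/4) : ℝ) (5/4), HasDerivAt (fun s : ℝ => MM s c B z)
      (∫ g, D g * Complex.exp (wc s c B z g) ∂γ) s := by
    intro s hs
    have := hasDerivAt_param (φ := fun _ => 1) (w0 := fun _ => 0) (w1 := D) (P := 1) (k := 0)
      (by norm_num) (by norm_num) continuous_const continuous_const cD (by simp) hb4 hb3 hs
    simp only [one_mul, ← ewc] at this
    exact this
  have hg2 : ∀ s ∈ Set.Ioo (-(1/4) : ℝ) (5/4),
      HasDerivAt (fun s : ℝ => ∫ g, D g * Complex.exp (wc s c B z g) ∂γ)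
      (∫ g, (D g * D g) * Complex.exp (wc s c B z g) ∂γ) s := by
    intro s hs
    have := hasDerivAt_param (φ := D) (w0 := fun _ => 0) (w1 := D) (P := 4) (k := 1)
      (by norm_num) (by norm_num) cD continuous_const cD (by simpa using hb4) hb4 hb3 hs
    simpa only [← ewc] using this
  have bd1 : ∀ s ∈ Set.Icc (0 : ℝ) 1, ‖∫ g, D g * Complex.exp (wc s c B z g) ∂γ‖
      ≤ 2 * √c * J := by
    intro s hs
    refine norm_int_le_W fun g => ?_
    exact dom_le (φ := D) 1 (by norm_num) (by positivity) hB le_rfl hz hs.1 hs.2 c1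
      (fun g => by rw [pow_one]; exact (hDb g).trans (le_of_eq (by ring))) g
  have bd2 : ∀ s ∈ Set.Icc (0 : ℝ) 1, ‖∫ g, (D g * D g) * Complex.exp (wc s c B z g) ∂γ‖
      ≤ 4 * c * J := by
    intro s hs
    refine norm_int_le_W fun g => ?_
    refine dom_le (φ := fun g => D g * D g) 2 (by norm_num) (by positivity) hB le_rfl hz hs.1 hs.2
      c1 (fun g => ?_) g
    rw [norm_mul]
    calc ‖D g‖ * ‖D g‖ ≤ (2 * (√c * |g|)) * (2 * (√c * |g|)) :=
          mul_le_mul (hDb g) (hDb g) (norm_nonneg _) (by positivity)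
      _ = 4 * (√c ^ 2) * |g| ^ 2 := by ring
      _ = 4 * c * |g| ^ 2 := by rw [Real.sq_sqrt c0]
  have hhalf : ∀ s ∈ Set.Icc (0 : ℝ) 1, ‖MM s c B z - 1‖ ≤ 1 / 2 := fun s hs =>
    MM_half hB le_rfl le_rfl hz hs.1 hs.2 c0 c1 cs
  set G1 : ℝ → ℂ := fun s => ∫ g, D g * Complex.exp (wc s c B z g) ∂γ with hG1
  set G2 : ℝ → ℂ := fun s => ∫ g, (D g * D g) * Complex.exp (wc s c B z g) ∂γ with hG2
  set G : ℝ → ℂ := fun s => MM s c B z with hG
  have hofr : ∀ s : ℝ, HasDerivAt (fun t : ℝ => (t : ℂ)) 1 s := fun s => by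
    simpa using (hasDerivAt_id (s : ℂ)).comp_ofReal
  -- the auxiliary function
  have hpsi : ∀ s ∈ Set.Icc (0 : ℝ) 1,
      HasDerivAt (fun s : ℝ => (s : ℂ) * (G1 s / G s) - Complex.log (G s))
        ((s : ℂ) * (G2 s / G s - (G1 s / G s) ^ 2)) s := by
    intro s hs
    have hs' : s ∈ Set.Ioo (-(1/4) : ℝ) (5/4) := ⟨by linarith [hs.1], by linarith [hs.2]⟩
    have hMz := ne_zero_of_half (hhalf s hs)
    have h1 := hg1 s hs'
    have h2 := hg2 s hs'
    have h3 := h1.clog_real (slit_of_half (hhalf s hs))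
    have h4 := ((hofr s).mul (h2.div h1 hMz)).sub h3
    refine (show HasDerivAt (fun s : ℝ => (s : ℂ) * (G1 s / G s) - Complex.log (G s)) _ s
      from h4).congr_deriv ?_
    have hMz' : G s ≠ 0 := hMz
    show 1 * (G1 s / G s) + (s : ℂ) * ((G2 s * G s - G1 s * G1 s) / G s ^ 2) - G1 s / G s = _
    field_simp
    ring
  have hpsi_bd : ∀ s ∈ Set.Icc (0 : ℝ) 1, ‖G2 s / G s - (G1 s / G s) ^ 2‖ ≤ C3 * c := by
    intro s hs
    have hMh := half_le_norm (hhalf s hs)
    have hJ := J_pos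
    have b1 : ‖G2 s / G s‖ ≤ 8 * c * J := by
      rw [norm_div, div_le_iff₀ (by linarith)]
      have := bd2 s hs
      have h0 : 0 ≤ c * J := by positivity
      nlinarith
    have b2 : ‖G1 s / G s‖ ≤ 4 * √c * J := by
      rw [norm_div, div_le_iff₀ (by linarith)]
      have := bd1 s hs
      have h0 : 0 ≤ √c * J := by positivity
      nlinarith
    have b3 : ‖(G1 s / G s) ^ 2‖ ≤ 16 * c * J ^ 2 := by
      rw [norm_pow]
      calc ‖G1 s / G s‖ ^ 2 ≤ (4 * √c * J) ^ 2 := pow_le_pow_left₀ (norm_nonneg _) b2 2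
        _ = 16 * (√c ^ 2) * J ^ 2 := by ring
        _ = 16 * c * J ^ 2 := by rw [Real.sq_sqrt c0]
    refine (norm_sub_le _ _).trans ((add_le_add b1 b3).trans ?_)
    unfold C3; apply le_of_eq; ring
  have hpsi2 : ∀ s ∈ Set.Icc (0 : ℝ) 1,
      ‖(s : ℂ) * (G1 s / G s) - Complex.log (G s)‖ ≤ C3 * c * s ^ 2 := by
    intro s hs
    have h1 := (convex_Icc (0 : ℝ) s).norm_image_sub_le_of_norm_hasDerivWithin_le
      (f := fun s : ℝ => (s : ℂ) * (G1 s / G s) - Complex.log (G s)) (C := s * (C3 * c))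
      (fun t ht => (hpsi t ⟨ht.1, ht.2.trans hs.2⟩).hasDerivWithinAt)
      (fun t ht => by
        rw [norm_mul, Complex.norm_real, Real.norm_eq_abs, abs_of_nonneg ht.1]
        exact mul_le_mul ht.2 (hpsi_bd t ⟨ht.1, ht.2.trans hs.2⟩) (norm_nonneg _) hs.1)
      (Set.left_mem_Icc.2 hs.1) (Set.right_mem_Icc.2 hs.1)
    have e0 : G 0 = 1 := by simp [hG, MM, wc]
    simp only [e0, Complex.ofReal_zero, zero_mul, Complex.log_one, sub_zero, Real.norm_eq_abs,
      abs_of_nonneg hs.1] at h1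
    refine h1.trans (le_of_eq (by ring))
  have hfin := (convex_Ioc (0 : ℝ) 1).norm_image_sub_le_of_norm_hasDerivWithin_le
    (f := fun s : ℝ => TC s c B z)
    (f' := fun s : ℝ => ((s : ℂ) * (G1 s / G s) - Complex.log (G s)) / (s : ℂ) ^ 2)
    (C := C3 * c) (x := m) (y := m')
    (fun s hs => by
      have hs2 : s ∈ Set.Icc (0 : ℝ) 1 := ⟨hs.1.le, hs.2⟩
      have hs' : s ∈ Set.Ioo (-(1/4) : ℝ) (5/4) := ⟨by linarith [hs.1], by linarith [hs.2]⟩
      have hMz := ne_zero_of_half (hhalf s hs2)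
      have hsz : (s : ℂ) ≠ 0 := by exact_mod_cast hs.1.ne'
      have h3 := (hg1 s hs').clog_real (slit_of_half (hhalf s hs2))
      have h4 := ((hofr s).inv hsz).mul h3
      have h5 := h4.const_add (B z)
      have e : (fun s : ℝ => TC s c B z)
          = fun s : ℝ => B z + ((s : ℂ))⁻¹ * Complex.log (MM s c B z) := by
        ext s; simp [TC]
      rw [e]
      refine HasDerivAt.hasDerivWithinAt (HasDerivAt.congr_deriv h5 ?_)
      have hMz' : G s ≠ 0 := hMz
      show -1 / (s : ℂ) ^ 2 * Complex.log (G s) + ((s : ℂ))⁻¹ * (G1 s / G s)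
        = ((s : ℂ) * (G1 s / G s) - Complex.log (G s)) / (s : ℂ) ^ 2
      field_simp
      ring)
    (fun s hs => by
      have hs2 : s ∈ Set.Icc (0 : ℝ) 1 := ⟨hs.1.le, hs.2⟩
      have := hpsi2 s hs2
      rw [norm_div, norm_pow, Complex.norm_real, Real.norm_eq_abs, abs_of_pos hs.1,
        div_le_iff₀ (by have := hs.1; positivity)]
      exact this)
    ⟨ha.m0, ha.m1⟩ ⟨ha2.m0, ha2.m1⟩
  simpa using hfin

end lip

end
end Pool.Agent.LibOS45
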