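import Pool.Agent.LibOS45.Level

/-!
# The function `log cosh` and the nests on the strip `|Im z| < 3/4`
-/

namespace Pool.Agent.LibOS45
open MeasureTheory ProbabilityTheory

noncomputable section

/-- complex `log cosh` -/
def B0 (z : ℂ) : ℂ := Complex.log (Complex.cosh z)

lemma cosh_re (z : ℂ) : (Complex.cosh z).re = Real.cosh z.re * Real.cos z.im := by
  conv_lhs => rw [← Complex.re_add_im z, Complex.cosh_add, Complex.cosh_mul_I, Complex.sinh_mul_I]
  simp [Complex.cosh_ofReal_re, Complex.sinh_ofReal_re, Complex.cos_ofReal_re,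
    Complex.sin_ofReal_re, Complex.cosh_ofReal_im, Complex.sinh_ofReal_im, Complex.cos_ofReal_im,
    Complex.sin_ofReal_im]

lemma cosh_im (z : ℂ) : (Complex.cosh z).im = Real.sinh z.re * Real.sin z.im := by
  conv_lhs => rw [← Complex.re_add_im z, Complex.cosh_add, Complex.cosh_mul_I, Complex.sinh_mul_I]
  simp [Complex.cosh_ofReal_re, Complex.sinh_ofReal_re, Complex.cos_ofReal_re,
    Complex.sin_ofReal_re, Complex.cosh_ofReal_im, Complex.sinh_ofReal_im, Complex.cos_ofReal_im,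
    Complex.sin_ofReal_im]

lemma sinh_re (z : ℂ) : (Complex.sinh z).re = Real.sinh z.re * Real.cos z.im := by
  conv_lhs => rw [← Complex.re_add_im z, Complex.sinh_add, Complex.cosh_mul_I, Complex.sinh_mul_I]
  simp [Complex.cosh_ofReal_re, Complex.sinh_ofReal_re, Complex.cos_ofReal_re,
    Complex.sin_ofReal_re, Complex.cosh_ofReal_im, Complex.sinh_ofReal_im, Complex.cos_ofReal_im,
    Complex.sin_ofReal_im]

lemma sinh_im (z : ℂ) : (Complex.sinh z).im = Real.cosh z.re * Real.sin z.im := by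
  conv_lhs => rw [← Complex.re_add_im z, Complex.sinh_add, Complex.cosh_mul_I, Complex.sinh_mul_I]
  simp [Complex.cosh_ofReal_re, Complex.sinh_ofReal_re, Complex.cos_ofReal_re,
    Complex.sin_ofReal_re, Complex.cosh_ofReal_im, Complex.sinh_ofReal_im, Complex.cos_ofReal_im,
    Complex.sin_ofReal_im]

lemma cosh_nsq (z : ℂ) : ‖Complex.cosh z‖ ^ 2 = Real.sinh z.re ^ 2 + Real.cos z.im ^ 2 := by
  rw [Complex.sq_norm, Complex.normSq_apply, cosh_re, cosh_im]
  have h1 := Real.cosh_sq z.re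
  have h2 := Real.sin_sq_add_cos_sq z.im
  have h3 : Real.sin z.im ^ 2 = 1 - Real.cos z.im ^ 2 := by linarith
  calc _ = Real.cosh z.re ^ 2 * Real.cos z.im ^ 2 + Real.sinh z.re ^ 2 * Real.sin z.im ^ 2 := by
        ring
    _ = _ := by rw [h1, h3]; ring

lemma sinh_nsq (z : ℂ) : ‖Complex.sinh z‖ ^ 2 = Real.sinh z.re ^ 2 + Real.sin z.im ^ 2 := by
  rw [Complex.sq_norm, Complex.normSq_apply, sinh_re, sinh_im]
  have h1 := Real.cosh_sq z.re
  have h2 := Real.sin_sq_add_cos_sq z.im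
  have h3 : Real.cos z.im ^ 2 = 1 - Real.sin z.im ^ 2 := by linarith
  calc _ = Real.cosh z.re ^ 2 * Real.sin z.im ^ 2 + Real.sinh z.re ^ 2 * Real.cos z.im ^ 2 := by
        ring
    _ = _ := by rw [h1, h3]; ring

lemma cos_sq_ge {y : ℝ} (hy : |y| < 3 / 4) : 1 / 2 ≤ Real.cos y ^ 2 := by
  have h1 : Real.cos (2 * y) = 2 * Real.cos y ^ 2 - 1 := Real.cos_two_mul y
  have h2 : 0 ≤ Real.cos (2 * y) := by
    apply Real.cos_nonneg_of_mem_Icc
    have := Real.pi_gt_d2
    have h3 := abs_lt.1 hy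
    constructor <;> linarith [h3.1, h3.2]
  linarith

lemma cos_pos' {y : ℝ} (hy : |y| < 3 / 4) : 0 < Real.cos y := by
  apply Real.cos_pos_of_mem_Ioo
  have := Real.pi_gt_d2
  have h3 := abs_lt.1 hy
  constructor <;> linarith [h3.1, h3.2]

lemma cosh_slit {z : ℂ} (hz : z ∈ St (3 / 4)) : Complex.cosh z ∈ Complex.slitPlane := by
  left
  rw [cosh_re]
  exact mul_pos (Real.cosh_pos _) (cos_pos' hz)

lemma cosh_ne {z : ℂ} (hz : z ∈ St (3 / 4)) : Complex.cosh z ≠ 0 :=
  Complex.slitPlane_ne_zero (cosh_slit hz)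

lemma hasDerivAt_B0 {z : ℂ} (hz : z ∈ St (3 / 4)) :
    HasDerivAt B0 (Complex.sinh z / Complex.cosh z) z :=
  (Complex.hasDerivAt_cosh z).clog (cosh_slit hz)

lemma deriv_B0 {z : ℂ} (hz : z ∈ St (3 / 4)) : deriv B0 z = Complex.sinh z / Complex.cosh z :=
  (hasDerivAt_B0 hz).deriv

lemma hasDerivAt_B0' {z : ℂ} (hz : z ∈ St (3 / 4)) :
    HasDerivAt (deriv B0) (1 / Complex.cosh z ^ 2) z := by
  have heq : deriv B0 =ᶠ[nhds z] fun w => Complex.sinh w / Complex.cosh w := by
    filter_upwards [(isOpen_St _).mem_nhds hz] with w hw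
    exact deriv_B0 hw
  have h1 := (Complex.hasDerivAt_sinh z).div (Complex.hasDerivAt_cosh z) (cosh_ne hz)
  have h2 := h1.congr_of_eventuallyEq heq
  refine h2.congr_deriv ?_
  have h3 := Complex.cosh_sq_sub_sinh_sq z
  congr 1
  rw [← h3]; ring

lemma deriv2_B0 {z : ℂ} (hz : z ∈ St (3 / 4)) :
    deriv (deriv B0) z = 1 / Complex.cosh z ^ 2 := (hasDerivAt_B0' hz).deriv

lemma B0_cl : Cl (3 / 4) 1 2 B0 := by
  refine ⟨fun z hz => (hasDerivAt_B0 hz).differentiableAt.differentiableWithinAt,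
    fun z hz => ?_, fun z hz => ?_⟩
  · rw [deriv_B0 hz, norm_div]
    have h0 : 0 < ‖Complex.cosh z‖ := norm_pos_iff.2 (cosh_ne hz)
    rw [div_le_one h0]
    refine le_of_sq_le_sq ?_ h0.le
    rw [cosh_nsq, sinh_nsq]
    have h1 := cos_sq_ge hz
    have h2 := Real.sin_sq_add_cos_sq z.im
    linarith
  · rw [deriv2_B0 hz, norm_div, norm_one, norm_pow, cosh_nsq]
    have h1 := cos_sq_ge hz
    rw [div_le_iff₀ (by positivity)]
    nlinarith [sq_nonneg (Real.sinh z.re)]

/-- complex nests -/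
def nestC : List (ℝ × ℝ) → ℂ → ℂ
  | [] => B0
  | p :: L => TC p.1 p.2 (nestC L)

/-- total time -/
def tm (L : List (ℝ × ℝ)) : ℝ := (L.map Prod.snd).sum

/-- all the levels are admissible -/
def GoodL (L : List (ℝ × ℝ)) : Prop := ∀ p ∈ L, Adm p.1 p.2

lemma tm_nonneg {L : List (ℝ × ℝ)} (h : GoodL L) : 0 ≤ tm L := by
  unfold tm
  refine List.sum_nonneg fun x hx => ?_
  obtain ⟨p, hp, rfl⟩ := List.mem_map.1 hx
  exact (h p hp).c0

lemma nestC_cl' (L : List (ℝ × ℝ)) (h : GoodL L) (hs : C2 * tm L ≤ 1 / 2) :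
    Cl (3 / 4) (Real.exp (C2 * tm L)) (2 * Real.exp (C2 * tm L)) (nestC L) := by
  induction L with
  | nil => simpa [nestC, tm] using B0_cl
  | cons p L ih =>
    have hL : GoodL L := fun p hp => h p (List.mem_cons_of_mem _ hp)
    have hp : Adm p.1 p.2 := h p List.mem_cons_self
    have et : tm (p :: L) = p.2 + tm L := by simp [tm]
    have hC := C2_pos
    have h1 : C2 * tm L ≤ 1 / 2 := by
      refine le_trans ?_ hs
      rw [et]
      have := hp.c0
      nlinarith [mul_nonneg hC.le this]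
    have h2 := ih hL h1
    have h3 : Real.exp (C2 * tm L) ≤ 2 := by
      have h4 : Real.exp (C2 * tm L) ≤ Real.exp (1 / 2) := Real.exp_le_exp.2 h1
      have h5 : Real.exp (1 / 2) ≤ 2 := by
        have h6 : Real.exp (1 / 2) ^ 2 = Real.exp 1 := by
          rw [← Real.exp_nat_mul]; norm_num
        have h7 := Real.exp_one_lt_d9
        nlinarith [Real.exp_pos (1 / 2)]
      linarith
    have h4 := h2.step h3 (by linarith) hp
    have h5 : 1 + C2 * p.2 ≤ Real.exp (C2 * p.2) := by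
      have := Real.add_one_le_exp (C2 * p.2); linarith
    have h6 : Real.exp (C2 * tm (p :: L)) = Real.exp (C2 * tm L) * Real.exp (C2 * p.2) := by
      rw [et, ← Real.exp_add]; ring_nf
    refine h4.mono ?_ ?_
    · rw [h6]; exact mul_le_mul_of_nonneg_left h5 (Real.exp_pos _).le
    · rw [h6, ← mul_assoc]; exact mul_le_mul_of_nonneg_left h5 (by positivity)

lemma nestC_cl {L : List (ℝ × ℝ)} (h : GoodL L) (hs : C2 * tm L ≤ 1 / 2) :
    Cl (3 / 4) 2 4 (nestC L) := by
  have h3 : Real.exp (C2 * tm L) ≤ 2 := by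
    have h4 : Real.exp (C2 * tm L) ≤ Real.exp (1 / 2) := Real.exp_le_exp.2 hs
    have h5 : Real.exp (1 / 2) ≤ 2 := by
      have h6 : Real.exp (1 / 2) ^ 2 = Real.exp 1 := by
        rw [← Real.exp_nat_mul]; norm_num
      have h7 := Real.exp_one_lt_d9
      nlinarith [Real.exp_pos (1 / 2)]
    linarith
  exact (nestC_cl' L h hs).mono h3 (by linarith)

lemma nestC_close (L : List (ℝ × ℝ)) (h : GoodL L) (hs : C2 * tm L ≤ 1 / 2) {z : ℂ}
    (hz : z ∈ St (3 / 4)) : ‖nestC L z - B0 z‖ ≤ 2 * C1 * tm L := by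
  induction L with
  | nil => simp [nestC, tm]
  | cons p L ih =>
    have hL : GoodL L := fun p hp => h p (List.mem_cons_of_mem _ hp)
    have hp : Adm p.1 p.2 := h p List.mem_cons_self
    have et : tm (p :: L) = p.2 + tm L := by simp [tm]
    have hC := C2_pos
    have h1 : C2 * tm L ≤ 1 / 2 := by
      refine le_trans ?_ hs
      rw [et]
      have := hp.c0
      nlinarith [mul_nonneg hC.le this]
    have h2 := ih hL h1
    have h3 := TC_close (nestC_cl hL h1) le_rfl le_rfl hz hp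
    have e : nestC (p :: L) z - B0 z = (TC p.1 p.2 (nestC L) z - nestC L z)
        + (nestC L z - B0 z) := by simp [nestC]
    rw [e, et]
    refine (norm_add_le _ _).trans ?_
    linarith

/-! ### reality and parity -/

lemma TC_real {m c : ℝ} {B : ℂ → ℂ} {b : ℝ → ℝ} (hB : Cl (3 / 4) 2 4 B)
    (hb : ∀ y : ℝ, B y = (b y : ℂ)) (ha : Adm m c) (y : ℝ) :
    TC m c B y = (TT m c b y : ℂ) := by
  obtain ⟨m0, m1, c0, c1, cs⟩ := ha
  have hy : (y : ℂ) ∈ St (3 / 4) := by simp [St]
  have e1 : MM m c B y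
      = ((∫ g, Real.exp (m * (b (y + √c * g) - b y)) ∂γ : ℝ) : ℂ) := by
    rw [← integral_complex_ofReal]
    unfold MM
    refine integral_congr_ae (Filter.Eventually.of_forall fun g => ?_)
    simp only [wc, hh]
    rw [← Complex.ofReal_add, hb, hb]
    push_cast; rfl
  have hhalf := MM_half hB le_rfl le_rfl hy m0.le m1 c0 c1 cs
  have hpos : 0 < ∫ g, Real.exp (m * (b (y + √c * g) - b y)) ∂γ := by
    rw [e1, ← Complex.ofReal_one, ← Complex.ofReal_sub, Complex.norm_real] at hhalf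
    have := (abs_le.1 hhalf).1
    linarith
  have e2 : ∫ g, Real.exp (m * b (y + √c * g)) ∂(gaussianReal 0 1)
      = Real.exp (m * b y) * ∫ g, Real.exp (m * (b (y + √c * g) - b y)) ∂γ := by
    rw [← integral_const_mul]
    refine integral_congr_ae (Filter.Eventually.of_forall fun g => ?_)
    simp only
    rw [← Real.exp_add]; ring_nf
  unfold TC TT
  rw [e1, e2, Real.log_mul (Real.exp_pos _).ne' hpos.ne', Real.log_exp, hb,
    ← Complex.ofReal_log hpos.le]
  have hm : (m : ℂ) ≠ 0 := by exact_mod_cast m0.ne'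
  push_cast
  field_simp

lemma nestC_real (L : List (ℝ × ℝ)) (h : GoodL L) (hs : C2 * tm L ≤ 1 / 2) (y : ℝ) :
    nestC L y = (nest L y : ℂ) := by
  induction L generalizing y with
  | nil =>
    simp only [nestC, nest, B0]
    rw [← Complex.ofReal_cosh, Complex.ofReal_log (Real.cosh_pos y).le]
  | cons p L ih =>
    have hL : GoodL L := fun p hp => h p (List.mem_cons_of_mem _ hp)
    have hp : Adm p.1 p.2 := h p List.mem_cons_self
    have et : tm (p :: L) = p.2 + tm L := by simp [tm]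
    have hC := C2_pos
    have h1 : C2 * tm L ≤ 1 / 2 := by
      refine le_trans ?_ hs
      rw [et]
      have := hp.c0
      nlinarith [mul_nonneg hC.le this]
    exact TC_real (nestC_cl hL h1) (fun y => ih hL h1 y) hp y

lemma St_neg {r : ℝ} {z : ℂ} (hz : z ∈ St r) : -z ∈ St r := by
  simpa [St] using hz

lemma int_neg_gauss (f : ℝ → ℂ) : ∫ g, f (-g) ∂γ = ∫ g, f g ∂γ := by
  have h1 : (gaussianReal 0 1).map (fun x : ℝ => -x) = gaussianReal 0 1 := by
    rw [gaussianReal_map_neg]; simp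
  have h2 : MeasurableEmbedding (fun x : ℝ => -x) := (MeasurableEquiv.neg ℝ).measurableEmbedding
  calc ∫ g, f (-g) ∂γ = ∫ g, f g ∂((gaussianReal 0 1).map (fun x : ℝ => -x)) := by
        rw [h2.integral_map]
    _ = ∫ g, f g ∂γ := by rw [h1]

lemma TC_even {m c : ℝ} {B : ℂ → ℂ} {r : ℝ} (he : ∀ z ∈ St r, B (-z) = B z) {z : ℂ}
    (hz : z ∈ St r) : TC m c B (-z) = TC m c B z := by
  unfold TC
  have : MM m c B (-z) = MM m c B z := by
    unfold MM
    rw [← int_neg_gauss]
    refine integral_congr_ae (Filter.Eventually.of_forall fun g => ?_)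
    simp only [wc]
    have e : -z + hh c (-g) = -(z + hh c g) := by unfold hh; push_cast; ring
    rw [e, he _ (shift_mem hz c g), he z hz]
  rw [this, he z hz]

lemma nestC_even (L : List (ℝ × ℝ)) : ∀ z ∈ St (3 / 4), nestC L (-z) = nestC L z := by
  induction L with
  | nil => intro z _; simp [nestC, B0]
  | cons p L ih => intro z hz; exact TC_even ih hz

end
end Pool.Agent.LibOS45
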