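import Pool.Agent.LibOS45.Var2
import Pool.Agent.LibMP0f946f.Base

/-!
# Perturbations of a nearly optimal order parameter
-/

open MeasureTheory ProbabilityTheory

namespace Pool.Agent.LibOS45

noncomputable section

/-- `∑ m_j (Q(t_j) - Q(t_{j-1}))` for a list of pairs `(m_j, t_j - t_{j-1})`, starting at time `s` -/
noncomputable def penQ (Q : ℝ → ℝ) : ℝ → List (ℝ × ℝ) → ℝ
  | _, [] => 0
  | s, p :: L => p.1 * (Q (s + p.2) - Q s) + penQ Q (s + p.2) L

/-- the functional on lists of pairs (level, time), outermost first -/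
noncomputable def PfQ (Q : ℝ → ℝ) (L : List (ℝ × ℝ)) : ℝ :=
  Pool.Agent.OS.tn L Pool.Agent.OS.lc 0 - (1 / 2) * penQ Q 0 L

lemma tn_eq (L : List (ℝ × ℝ)) (h : ∀ p ∈ L, 0 < p.1) :
    Pool.Agent.OS.tn L Pool.Agent.OS.lc = nest L := by
  induction L with
  | nil => rfl
  | cons p L ih =>
    have hp := h p List.mem_cons_self
    have ih' := ih fun p hp => h p (List.mem_cons_of_mem _ hp)
    ext y
    simp only [Pool.Agent.OS.tn, nest, TT, Pool.Agent.OS.T, Pool.Agent.OS.Zt]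
    rw [if_neg hp.ne', ih', one_div]
    congr 3
    ext g
    rw [smul_eq_mul, mul_comm g]

lemma penQ_append (Q : ℝ → ℝ) (L M : List (ℝ × ℝ)) (s : ℝ) :
    penQ Q s (L ++ M) = penQ Q s L + penQ Q (s + tm L) M := by
  induction L generalizing s with
  | nil => simp [penQ, tm]
  | cons p L ih =>
    simp only [List.cons_append, penQ, ih, tm, List.map_cons, List.sum_cons]
    rw [add_assoc s]; ring

/-- the list of a configuration -/
def cl (x c : ℕ → ℝ) (n : ℕ) : List (ℝ × ℝ) := (List.range n).map fun i => (x i, c i)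

lemma cl_succ (x c : ℕ → ℝ) (n : ℕ) : cl x c (n + 1) = cl x c n ++ [(x n, c n)] := by
  simp [cl, List.range_succ]

lemma tm_cl (x c : ℕ → ℝ) (n : ℕ) : tm (cl x c n) = tt c n := by
  induction n with
  | zero => simp [cl, tm, tt]
  | succ n ih =>
    rw [cl_succ, tt_succ, ← ih]; simp [tm]

lemma penQ_cl (Q : ℝ → ℝ) (x c : ℕ → ℝ) (n : ℕ) :
    penQ Q 0 (cl x c n) = ∑ i ∈ Finset.range n, x i * (Q (tt c (i + 1)) - Q (tt c i)) := by
  induction n with
  | zero => simp [cl, penQ]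
  | succ n ih =>
    rw [cl_succ, penQ_append, tm_cl, ih, Finset.sum_range_succ]
    simp [penQ, tt_succ]

lemma cl_tail (x c : ℕ → ℝ) (n : ℕ) : cl x c n = tail x c n 0 := by
  simp [cl, tail, List.range_eq_range']

/-- data of a nearly optimal configuration -/
structure NO (T : ℝ) (Q : ℝ → ℝ) (th q1 F ν : ℝ) (n : ℕ) (c x : ℕ → ℝ) : Prop where
  hT0 : 0 ≤ T
  hT1 : 24 * KK * T ≤ 1
  hT2 : C2 * T ≤ 1 / 2
  hT3 : C1 * T ≤ 1 / 2
  hth0 : 0 ≤ th
  hth1 : th ≤ 1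
  hq0 : 0 ≤ q1
  hq1 : q1 ≤ 1
  hQ : ∀ s t, 0 ≤ s → s ≤ t → t ≤ T → |Q t - Q s - q1 / 2 * (t ^ 2 - s ^ 2)| ≤ th * t ^ 3 * (t - s)
  hν0 : 0 ≤ ν
  hν1 : ν ≤ 1
  hc : ∀ i < n, 0 < c i
  hcν : ∀ i < n, √(c i) ≤ ν
  htt : tt c n = T
  hx0 : ∀ i < n, 0 < x i
  hx1 : ∀ i < n, x i ≤ 1
  hmono : ∀ i j, i ≤ j → j < n → x i ≤ x j
  hU : ∀ L : List (ℝ × ℝ), (∀ p ∈ L, 0 < p.1 ∧ p.1 ≤ 1 ∧ 0 < p.2) →
      L.Pairwise (fun p r => p.1 ≤ r.1) → (L.map Prod.snd).sum = T → F ≤ PfQ Q L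
  hL : PfQ Q (cl x c n) ≤ F + ν

section
variable {T : ℝ} {Q : ℝ → ℝ} {th q1 F ν : ℝ} {n : ℕ} {c x : ℕ → ℝ}

/-- admissible levels -/
structure Lv (n : ℕ) (x : ℕ → ℝ) : Prop where
  x0 : ∀ i < n, 0 < x i
  x1 : ∀ i < n, x i ≤ 1
  mono : ∀ i j, i ≤ j → j < n → x i ≤ x j

lemma NO.lv (h : NO T Q th q1 F ν n c x) : Lv n x := ⟨h.hx0, h.hx1, h.hmono⟩

lemma NO.cT (h : NO T Q th q1 F ν n c x) {i : ℕ} (hi : i < n) : c i ≤ T := by
  rw [← h.htt]
  have h1 := tt_mono (c := c) (n := n) (fun i hi => (h.hc i hi).le) (show i + 1 ≤ n from hi) le_rfl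
  have h2 := tt_nonneg (c := c) (n := n) (fun i hi => (h.hc i hi).le) hi.le
  rw [tt_succ] at h1
  linarith

lemma NO.T_le (h : NO T Q th q1 F ν n c x) : T ≤ 1 := by
  have := h.hT1; have := KK_pos; have := h.hT0
  nlinarith

lemma NO.cfg (h : NO T Q th q1 F ν n c x) {x' : ℕ → ℝ} (hx : Lv n x') : Cfg n c x' := by
  refine ⟨fun i hi => ⟨hx.x0 i hi, hx.x1 i hi, (h.hc i hi).le, (h.cT hi).trans h.T_le, ?_⟩, ?_⟩
  · exact (mul_le_mul_of_nonneg_left (h.cT hi) C1_pos.le).trans h.hT3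
  · have e : ∑ i ∈ Finset.Ico 0 n, c i = tt c n := by rw [tt, Finset.range_eq_Ico]
    rw [e, h.htt]; exact h.hT2

lemma NO.sy (h : NO T Q th q1 F ν n c x) {x' : ℕ → ℝ} (hx : Lv n x') :
    SY KK ν n c x' (aa x' c n) :=
  ⟨(h.cfg hx).sq, KK_pos, fun i hi => (h.hc i hi).le, h.hcν, h.hν0, h.hν1,
    fun i hi => (hx.x0 i hi).le, hx.x1, by rw [h.htt]; exact h.hT1⟩

lemma NO.pf (h : NO T Q th q1 F ν n c x) {x' : ℕ → ℝ} (hx : Lv n x') :
    PfQ Q (cl x' c n) = aa x' c n 0 0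
      - 1 / 2 * ∑ i ∈ Finset.range n, x' i * (Q (tt c (i + 1)) - Q (tt c i)) := by
  unfold PfQ
  rw [penQ_cl, tn_eq, cl_tail, aa_zero (h.cfg hx) (Nat.zero_le n)]
  intro p hp
  unfold cl at hp
  obtain ⟨i, hi, rfl⟩ := List.mem_map.1 hp
  exact hx.x0 i (List.mem_range.1 hi)

lemma NO.lower (h : NO T Q th q1 F ν n c x) {x' : ℕ → ℝ} (hx : Lv n x') :
    F ≤ PfQ Q (cl x' c n) := by
  refine h.hU _ (fun p hp => ?_) ?_ ?_
  · unfold cl at hp
    obtain ⟨i, hi, rfl⟩ := List.mem_map.1 hp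
    have hi' := List.mem_range.1 hi
    exact ⟨hx.x0 i hi', hx.x1 i hi', h.hc i hi'⟩
  · unfold cl
    rw [List.pairwise_map]
    have := List.pairwise_lt_range (n := n)
    refine List.Pairwise.imp_of_mem ?_ this
    intro i j hi hj hij
    exact hx.mono i j hij.le (List.mem_range.1 hj)
  · have := tm_cl x' c n
    unfold tm at this
    rw [this, h.htt]

/-- density of the linear functional in a cell -/
def hc' (Q : ℝ → ℝ) (c x : ℕ → ℝ) (n i : ℕ) : ℝ :=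
  c i * Gq c x (aa x c n) (i + 1) - (Q (tt c (i + 1)) - Q (tt c i))

/-- near optimality and the first variation -/
theorem master : ∃ C, 0 ≤ C ∧ ∀ {T : ℝ} {Q : ℝ → ℝ} {th q1 F ν : ℝ} {n : ℕ} {c x : ℕ → ℝ},
    NO T Q th q1 F ν n c x → ∀ {x' : ℕ → ℝ}, Lv n x' → ∀ {J : ℕ}, J ≤ n →
    (∀ i, J ≤ i → i < n → x' i = x i) →
    -(C * (tt c J ^ 4 * DD x x' c n 0 + DD x x' c n 0 ^ 2 + ν))
      ≤ ∑ i ∈ Finset.range J, (x' i - x i) * hc' Q c x n i := by
  obtain ⟨C, hC, hC'⟩ := Gx_Gq KK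
  refine ⟨2 + 400 * KK ^ 2 + C, by positivity, fun {T Q th q1 F ν n c x} h {x'} hx' {J} hJ hJx => ?_⟩
  have s := h.sy h.lv
  have s' := h.sy hx'
  have v := variation s s' (fun k hk j hj => (h.cfg h.lv).lip (h.cfg hx') hk hj) hJ hJx
  have p := h.pf h.lv
  have p' := h.pf hx'
  have l := h.lower hx'
  have u := h.hL
  rw [p'] at l
  rw [p] at u
  set D := DD x x' c n 0
  have hc0 : ∀ i < n, 0 ≤ c i := fun i hi => (h.hc i hi).le
  have hD0 : 0 ≤ D := DD_nonneg hc0 0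
  have hν := h.hν0
  have hJ0 := s.tt0 hJ
  -- the sums of `Q`
  have e1 : ∑ i ∈ Finset.range n, x' i * (Q (tt c (i + 1)) - Q (tt c i))
      - ∑ i ∈ Finset.range n, x i * (Q (tt c (i + 1)) - Q (tt c i))
      = ∑ i ∈ Finset.range J, (x' i - x i) * (Q (tt c (i + 1)) - Q (tt c i)) := by
    rw [← Finset.sum_sub_distrib]
    have hsub : Finset.range J ⊆ Finset.range n := Finset.range_subset_range.2 hJ
    rw [← Finset.sum_subset hsub]
    · exact Finset.sum_congr rfl fun i _ => by ring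
    · intro i hi hi2
      have h1 := Finset.mem_range.1 hi
      have h2 : J ≤ i := by
        by_contra hcon
        exact hi2 (Finset.mem_range.2 (by omega))
      rw [hJx i h2 h1]; ring
  have e2 : ∑ i ∈ Finset.range J, (x' i - x i) * hc' Q c x n i
      = ∑ i ∈ Finset.range J, c i * (x' i - x i) * Gx c x (aa x c n) i
        - ∑ i ∈ Finset.range J, (x' i - x i) * (Q (tt c (i + 1)) - Q (tt c i))
        - ∑ i ∈ Finset.range J, c i * (x' i - x i)
          * (Gx c x (aa x c n) i - Gq c x (aa x c n) (i + 1)) := by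
    rw [← Finset.sum_sub_distrib, ← Finset.sum_sub_distrib]
    refine Finset.sum_congr rfl fun i _ => ?_
    unfold hc'; ring
  have e3 : |∑ i ∈ Finset.range J, c i * (x' i - x i)
          * (Gx c x (aa x c n) i - Gq c x (aa x c n) (i + 1))| ≤ C * ν := by
    refine (Finset.abs_sum_le_sum_abs _ _).trans ?_
    have hb : ∀ i ∈ Finset.range J, |c i * (x' i - x i)
          * (Gx c x (aa x c n) i - Gq c x (aa x c n) (i + 1))| ≤ c i * (C * ν) := by
      intro i hi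
      have hin : i < n := (Finset.mem_range.1 hi).trans_le hJ
      have h1 := hC' s i hin
      have h2 : |x' i - x i| ≤ 1 := by
        have a1 := (hx'.x0 i hin).le; have a2 := hx'.x1 i hin
        have a3 := (h.hx0 i hin).le; have a4 := h.hx1 i hin
        rw [abs_le]; constructor <;> linarith
      have h3 : |c i| ≤ c i := by rw [abs_of_nonneg (hc0 i hin)]
      refine (am (am h3 h2) h1).trans (le_of_eq (by ring))
    refine (Finset.sum_le_sum hb).trans ?_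
    rw [← Finset.sum_mul]
    have h1 : ∑ i ∈ Finset.range J, c i = tt c J := rfl
    rw [h1]
    have h2 := s.tt1 hJ
    have h3 : 0 ≤ C * ν := by positivity
    nlinarith
  have v2 := (abs_le.1 v).2
  have e4 := (abs_le.1 e3).2
  have w1 : 0 ≤ tt c J ^ 4 * D := by positivity
  have w2 : 0 ≤ D ^ 2 := sq_nonneg D
  have hK := KK_pos
  have w3 : 0 ≤ 400 * KK ^ 2 := by positivity
  rw [e2]
  nlinarith [mul_nonneg hC w1, mul_nonneg hC w2]

end

end
end Pool.Agent.LibOS45
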