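import Pool.Agent.LibOS45.Coef

/-!
# The sequences of Taylor coefficients of a nest
-/

namespace Pool.Agent.LibOS45
open MeasureTheory ProbabilityTheory

noncomputable section

/-- inner part of the nest, from the cell `j` on -/
def tail (x c : ℕ → ℝ) (n j : ℕ) : List (ℝ × ℝ) :=
  (List.range' j (n - j)).map fun i => (x i, c i)

lemma tail_end (x c : ℕ → ℝ) (n : ℕ) : tail x c n n = [] := by simp [tail]

lemma tail_succ (x c : ℕ → ℝ) {n j : ℕ} (h : j < n) :
    tail x c n j = (x j, c j) :: tail x c n (j + 1) := by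
  unfold tail
  obtain ⟨k, hk⟩ : ∃ k, n - j = k + 1 := ⟨n - j - 1, by omega⟩
  have h2 : n - (j + 1) = k := by omega
  rw [hk, h2, List.range'_succ]
  simp

lemma tm_tail (x c : ℕ → ℝ) (n : ℕ) : ∀ k j, n - j = k → j ≤ n →
    tm (tail x c n j) = ∑ i ∈ Finset.Ico j n, c i := by
  intro k
  induction k with
  | zero =>
    intro j h1 h2
    have : j = n := by omega
    subst this
    simp [tail_end, tm]
  | succ k ih =>
    intro j h1 h2
    have hj : j < n := by omega
    rw [tail_succ x c hj, Finset.sum_eq_sum_Ico_succ_bot hj]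
    have := ih (j + 1) (by omega) (by omega)
    simp only [tm, List.map_cons, List.sum_cons] at *
    rw [this]

/-- admissible configuration -/
structure Cfg (n : ℕ) (c x : ℕ → ℝ) : Prop where
  adm : ∀ i < n, Adm (x i) (c i)
  tot : C2 * ∑ i ∈ Finset.Ico 0 n, c i ≤ 1 / 2

lemma Cfg.c0 {n : ℕ} {c x : ℕ → ℝ} (h : Cfg n c x) {i : ℕ} (hi : i < n) : 0 ≤ c i := (h.adm i hi).c0

lemma Cfg.good {n : ℕ} {c x : ℕ → ℝ} (h : Cfg n c x) (j : ℕ) : GoodL (tail x c n j) := by
  intro p hp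
  unfold tail at hp
  obtain ⟨i, hi, rfl⟩ := List.mem_map.1 hp
  have := List.mem_range'.1 hi
  obtain ⟨l, hl, rfl⟩ := this
  exact h.adm _ (by omega)

lemma Cfg.tm_le {n : ℕ} {c x : ℕ → ℝ} (h : Cfg n c x) {j : ℕ} (hj : j ≤ n) :
    tm (tail x c n j) ≤ ∑ i ∈ Finset.Ico 0 n, c i := by
  rw [tm_tail x c n _ j rfl hj]
  refine Finset.sum_le_sum_of_subset_of_nonneg (Finset.Ico_subset_Ico (by omega) le_rfl)
    fun i hi _ => h.c0 (Finset.mem_Ico.1 hi).2

lemma Cfg.small {n : ℕ} {c x : ℕ → ℝ} (h : Cfg n c x) {j : ℕ} (hj : j ≤ n) :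
    C2 * tm (tail x c n j) ≤ 1 / 2 :=
  (mul_le_mul_of_nonneg_left (h.tm_le hj) C2_pos.le).trans h.tot

lemma Cfg.fn {n : ℕ} {c x : ℕ → ℝ} (h : Cfg n c x) {j : ℕ} (hj : j ≤ n) :
    Fn (nestC (tail x c n j)) :=
  ⟨nestC_cl (h.good j) (h.small hj), fun y => by
    rw [nestC_real _ (h.good j) (h.small hj)]; simp, nestC_even _⟩

/-- the coefficients -/
def aa (x c : ℕ → ℝ) (n : ℕ) (k j : ℕ) : ℝ := cf k (nestC (tail x c n j))

lemma aa_zero {n : ℕ} {c x : ℕ → ℝ} (h : Cfg n c x) {j : ℕ} (hj : j ≤ n) :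
    aa x c n 0 j = nest (tail x c n j) 0 := by
  unfold aa cf
  simp only [mul_zero, iteratedDeriv_zero]
  rw [← Complex.ofReal_zero, nestC_real _ (h.good j) (h.small hj)]
  simp

/-- distance of two configurations, from the cell `j` on -/
def DD (x x' c : ℕ → ℝ) (n j : ℕ) : ℝ := ∑ i ∈ Finset.Ico j n, c i * |x' i - x i|

lemma nest_lip {n : ℕ} {c x x' : ℕ → ℝ} (h : Cfg n c x) (h' : Cfg n c x') :
    ∀ k j, n - j = k → j ≤ n → ∀ z ∈ St (3 / 4),
      ‖nestC (tail x' c n j) z - nestC (tail x c n j) z‖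
        ≤ C3 * Real.exp (C2 * tm (tail x c n j)) * DD x x' c n j := by
  intro k
  induction k with
  | zero =>
    intro j h1 h2 z _
    have : j = n := by omega
    subst this
    simp [tail_end, DD]
  | succ k ih =>
    intro j h1 h2 z hz
    have hj : j < n := by omega
    have hj1 : j + 1 ≤ n := hj
    have hI := ih (j + 1) (by omega) (by omega)
    set δ := C3 * Real.exp (C2 * tm (tail x c n (j + 1))) * DD x x' c n (j + 1) with hδ
    have f := (h.fn hj1).cl
    have f' := (h'.fn hj1).cl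
    have a := h.adm j hj
    have a' := h'.adm j hj
    have l1 := TC_lip f f' hI hz a'
    have l2 := TC_lip_m f hz a a'
    have hC3 := C3_pos
    have hC2 := C2_pos
    have hC1 := C1_pos
    have hc0 := a.c0
    have hD0 : 0 ≤ DD x x' c n (j + 1) := Finset.sum_nonneg fun i hi =>
      mul_nonneg (h.c0 (Finset.mem_Ico.1 hi).2) (abs_nonneg _)
    have hδ0 : 0 ≤ δ := by positivity
    rw [tail_succ x c hj, tail_succ x' c hj]
    simp only [nestC]
    have e : TC (x' j) (c j) (nestC (tail x' c n (j + 1))) z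
        - TC (x j) (c j) (nestC (tail x c n (j + 1))) z
        = (TC (x' j) (c j) (nestC (tail x' c n (j + 1))) z
          - TC (x' j) (c j) (nestC (tail x c n (j + 1))) z)
          + (TC (x' j) (c j) (nestC (tail x c n (j + 1))) z
          - TC (x j) (c j) (nestC (tail x c n (j + 1))) z) := by ring
    rw [e]
    refine (norm_add_le _ _).trans ((add_le_add l1 l2).trans ?_)
    have et : tm ((x j, c j) :: tail x c n (j + 1)) = c j + tm (tail x c n (j + 1)) := by
      simp [tm]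
    have eD : DD x x' c n j = c j * |x' j - x j| + DD x x' c n (j + 1) := by
      unfold DD; rw [Finset.sum_eq_sum_Ico_succ_bot hj]
    have eE : Real.exp (C2 * tm ((x j, c j) :: tail x c n (j + 1)))
        = Real.exp (C2 * tm (tail x c n (j + 1))) * Real.exp (C2 * c j) := by
      rw [et, ← Real.exp_add]; ring_nf
    rw [eE, eD]
    have hJ := J_pos
    have g1 : 1 + 4 * C1 * c j ≤ Real.exp (C2 * c j) := by
      have h1 := Real.add_one_le_exp (C2 * c j)
      have h2 : 4 * C1 * c j ≤ C2 * c j := by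
        refine mul_le_mul_of_nonneg_right ?_ hc0
        unfold C2; linarith only [hJ, sq_nonneg J, hC1]
      linarith
    have g2 : 1 ≤ Real.exp (C2 * tm (tail x c n (j + 1))) * Real.exp (C2 * c j) := by
      have h1 : 1 ≤ Real.exp (C2 * tm (tail x c n (j + 1))) :=
        Real.one_le_exp (mul_nonneg hC2.le (tm_nonneg (h.good _)))
      have h2 : 1 ≤ Real.exp (C2 * c j) := Real.one_le_exp (mul_nonneg hC2.le hc0)
      exact one_le_mul_of_one_le_of_one_le h1 h2
    have p1 : δ * (1 + 4 * C1 * c j) ≤ δ * Real.exp (C2 * c j) :=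
      mul_le_mul_of_nonneg_left g1 hδ0
    have p2 : C3 * c j * |x' j - x j| ≤ C3 * (Real.exp (C2 * tm (tail x c n (j + 1)))
        * Real.exp (C2 * c j)) * (c j * |x' j - x j|) := by
      have h0 : 0 ≤ C3 * (c j * |x' j - x j|) := by positivity
      have h9 := mul_le_mul_of_nonneg_left g2 h0; linarith only [h9]
    calc _ ≤ δ * Real.exp (C2 * c j) + C3 * (Real.exp (C2 * tm (tail x c n (j + 1)))
        * Real.exp (C2 * c j)) * (c j * |x' j - x j|) := add_le_add p1 p2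
      _ = _ := by rw [hδ]; ring

lemma exp_le_two {s : ℝ} (h : s ≤ 1 / 2) : Real.exp s ≤ 2 := by
  have h4 : Real.exp s ≤ Real.exp (1 / 2) := Real.exp_le_exp.2 h
  have h5 : Real.exp (1 / 2) ≤ 2 := by
    have h6 : Real.exp (1 / 2) ^ 2 = Real.exp 1 := by
      rw [← Real.exp_nat_mul]; norm_num
    have h7 := Real.exp_one_lt_d9
    nlinarith [Real.exp_pos (1 / 2)]
  linarith

/-- the universal constant -/
def KK : ℝ := C4 + 2 * 5040 * 4 ^ 7 + 40320 * 4 ^ 8 * (2 * C3 + 2 * C1) + 1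

/-- abstract sequences -/
structure SQ (K : ℝ) (n : ℕ) (c x : ℕ → ℝ) (a : ℕ → ℕ → ℝ) : Prop where
  bd : ∀ k j, 1 ≤ k → k ≤ 4 → j ≤ n → |a k j| ≤ K
  rc : ∀ k j, k ≤ 3 → j < n → |a k j - a k (j + 1) - (c j / 2) *
    (a (k + 1) (j + 1) + x j * QQ k (fun i => a i (j + 1)))| ≤ K * (c j * √(c j))
  cl1 : ∀ j, j ≤ n → |a 1 j - 1| ≤ K * ∑ i ∈ Finset.Ico 0 n, c i
  cl2 : ∀ j, j ≤ n → |a 2 j + 2| ≤ K * ∑ i ∈ Finset.Ico 0 n, c i

lemma KK_pos : 1 ≤ KK := by
  unfold KK
  have := C4_pos; have := C3_pos; have := C1_pos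
  nlinarith

theorem Cfg.sq {n : ℕ} {c x : ℕ → ℝ} (h : Cfg n c x) : SQ KK n c x (aa x c n) := by
  have p4 := C4_pos
  have p3 := C3_pos
  have p1 := C1_pos
  have hsum : 0 ≤ ∑ i ∈ Finset.Ico 0 n, c i := Finset.sum_nonneg fun i hi =>
    h.c0 (Finset.mem_Ico.1 hi).2
  have hclose : ∀ k ≤ 4, ∀ j ≤ n, |aa x c n k j - cf k B0| ≤ KK * ∑ i ∈ Finset.Ico 0 n, c i := by
    intro k hk j hj
    have h1 := cf_sub_le B0_fn (h.fn hj) (δ := 2 * C1 * ∑ i ∈ Finset.Ico 0 n, c i)
      (fun z hz => (nestC_close _ (h.good j) (h.small hj) hz).trans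
        (mul_le_mul_of_nonneg_left (h.tm_le hj) (by positivity))) k hk
    refine h1.trans ?_
    have : 40320 * 4 ^ 8 * (2 * C1) ≤ KK := by unfold KK; nlinarith
    calc 40320 * 4 ^ 8 * (2 * C1 * ∑ i ∈ Finset.Ico 0 n, c i)
        = (40320 * 4 ^ 8 * (2 * C1)) * ∑ i ∈ Finset.Ico 0 n, c i := by ring
      _ ≤ _ := mul_le_mul_of_nonneg_right this hsum
  refine ⟨fun k j h1 h4 hj => ?_, fun k j hk hj => ?_, fun j hj => ?_, fun j hj => ?_⟩
  · refine ((h.fn hj).bound k h1 h4).trans ?_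
    unfold KK; nlinarith
  · have hj1 : j + 1 ≤ n := hj
    have ha := h.adm j hj
    have e : aa x c n k j = cf k (TC (x j) (c j) (nestC (tail x c n (j + 1)))) := by
      unfold aa; rw [tail_succ x c hj]; rfl
    have hcl : Cl (3 / 4) 2 4 (TC (x j) (c j) (nestC (tail x c n (j + 1)))) := by
      have := (h.fn hj.le).cl
      rw [tail_succ x c hj] at this
      exact this
    rw [e]
    refine (cf_step (h.fn hj1) ha hcl k hk).trans ?_
    refine mul_le_mul_of_nonneg_right ?_ (mul_nonneg ha.c0 (Real.sqrt_nonneg _))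
    unfold KK; nlinarith
  · have := hclose 1 (by norm_num) j hj
    rwa [cf1_B0] at this
  · have := hclose 2 (by norm_num) j hj
    rw [cf2_B0] at this
    simpa using this

theorem Cfg.lip {n : ℕ} {c x x' : ℕ → ℝ} (h : Cfg n c x) (h' : Cfg n c x') {k j : ℕ}
    (hk : k ≤ 4) (hj : j ≤ n) :
    |aa x' c n k j - aa x c n k j| ≤ KK * DD x x' c n j := by
  have p4 := C4_pos
  have p3 := C3_pos
  have p1 := C1_pos
  have hD0 : 0 ≤ DD x x' c n j := Finset.sum_nonneg fun i hi =>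
      mul_nonneg (h.c0 (Finset.mem_Ico.1 hi).2) (abs_nonneg _)
  have h1 := cf_sub_le (h.fn hj) (h'.fn hj) (δ := 2 * C3 * DD x x' c n j) (fun z hz => by
    refine (nest_lip h h' _ j rfl hj z hz).trans ?_
    have := exp_le_two (h.small hj)
    have h0 : 0 ≤ C3 * DD x x' c n j := by positivity
    have h9 := mul_le_mul_of_nonneg_left this h0; linarith only [h9]) k hk
  refine h1.trans ?_
  have : 40320 * 4 ^ 8 * (2 * C3) ≤ KK := by unfold KK; nlinarith
  calc 40320 * 4 ^ 8 * (2 * C3 * DD x x' c n j)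
      = (40320 * 4 ^ 8 * (2 * C3)) * DD x x' c n j := by ring
    _ ≤ _ := mul_le_mul_of_nonneg_right this hD0

end
end Pool.Agent.LibOS45
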