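import Pool.Agent.LibOS45.Base

/-!
# The recursion on a strip: one level
-/

namespace Pool.Agent.LibOS45
open MeasureTheory ProbabilityTheory

noncomputable section

/-- open horizontal strip -/
def St (r : ℝ) : Set ℂ := {z | |z.im| < r}

lemma isOpen_St (r : ℝ) : IsOpen (St r) := by
  unfold St; exact isOpen_lt (by fun_prop) continuous_const

lemma convex_St (r : ℝ) : Convex ℝ (St r) := by
  have : St r = Complex.imLm ⁻¹' Metric.ball (0 : ℝ) r := by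
    ext z; simp [St]
  rw [this]
  exact (convex_ball (0 : ℝ) r).linear_preimage Complex.imLm

lemma St_add {r : ℝ} {z : ℂ} (hz : z ∈ St r) (x : ℝ) : z + (x : ℂ) ∈ St r := by
  simpa [St] using hz

/-- the class of functions -/
structure Cl (r N1 N2 : ℝ) (B : ℂ → ℂ) : Prop where
  diff : DifferentiableOn ℂ B (St r)
  b1 : ∀ z ∈ St r, ‖deriv B z‖ ≤ N1
  b2 : ∀ z ∈ St r, ‖deriv (deriv B) z‖ ≤ N2

lemma Cl.mono {r N1 N2 N1' N2' : ℝ} {B : ℂ → ℂ} (h : Cl r N1 N2 B) (h1 : N1 ≤ N1')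
    (h2 : N2 ≤ N2') : Cl r N1' N2' B :=
  ⟨h.diff, fun z hz => (h.b1 z hz).trans h1, fun z hz => (h.b2 z hz).trans h2⟩

lemma Cl.diffAt {r N1 N2 : ℝ} {B : ℂ → ℂ} (h : Cl r N1 N2 B) {z : ℂ} (hz : z ∈ St r) :
    DifferentiableAt ℂ B z := h.diff.differentiableAt ((isOpen_St r).mem_nhds hz)

lemma Cl.diff' {r N1 N2 : ℝ} {B : ℂ → ℂ} (h : Cl r N1 N2 B) :
    DifferentiableOn ℂ (deriv B) (St r) := h.diff.deriv (isOpen_St r)

lemma Cl.diff'' {r N1 N2 : ℝ} {B : ℂ → ℂ} (h : Cl r N1 N2 B) :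
    DifferentiableOn ℂ (deriv (deriv B)) (St r) := h.diff'.deriv (isOpen_St r)

lemma Cl.diffAt' {r N1 N2 : ℝ} {B : ℂ → ℂ} (h : Cl r N1 N2 B) {z : ℂ} (hz : z ∈ St r) :
    DifferentiableAt ℂ (deriv B) z := h.diff'.differentiableAt ((isOpen_St r).mem_nhds hz)

lemma Cl.inc {r N1 N2 : ℝ} {B : ℂ → ℂ} (h : Cl r N1 N2 B) {z : ℂ} (hz : z ∈ St r) (x : ℝ) :
    ‖B (z + x) - B z‖ ≤ N1 * |x| := by
  have := (convex_St r).norm_image_sub_le_of_norm_deriv_le (fun w hw => h.diffAt hw) h.b1 hz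
    (St_add hz x)
  simpa using this

lemma Cl.inc' {r N1 N2 : ℝ} {B : ℂ → ℂ} (h : Cl r N1 N2 B) {z w : ℂ} (hz : z ∈ St r)
    (hw : w ∈ St r) : ‖deriv B w - deriv B z‖ ≤ N2 * ‖w - z‖ :=
  (convex_St r).norm_image_sub_le_of_norm_deriv_le (fun w hw => h.diffAt' hw) h.b2 hz hw

lemma Cl.N1_nonneg {r N1 N2 : ℝ} {B : ℂ → ℂ} (h : Cl r N1 N2 B) {z : ℂ} (hz : z ∈ St r) :
    0 ≤ N1 := (norm_nonneg _).trans (h.b1 z hz)

lemma Cl.N2_nonneg {r N1 N2 : ℝ} {B : ℂ → ℂ} (h : Cl r N1 N2 B) {z : ℂ} (hz : z ∈ St r) :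
    0 ≤ N2 := (norm_nonneg _).trans (h.b2 z hz)

lemma Cl.inc2 {r N1 N2 : ℝ} {B : ℂ → ℂ} (h : Cl r N1 N2 B) {z : ℂ} (hz : z ∈ St r) (x : ℝ) :
    ‖B (z + x) - B z - deriv B z * x‖ ≤ N2 * |x| ^ 2 := by
  have hcv : Convex ℝ (St r ∩ Metric.closedBall z |x|) :=
    (convex_St r).inter (convex_closedBall _ _)
  have hd : ∀ w ∈ St r ∩ Metric.closedBall z |x|,
      DifferentiableAt ℂ (fun w => B w - deriv B z * w) w := fun w hw =>
    (h.diffAt hw.1).sub (by fun_prop)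
  have hb : ∀ w ∈ St r ∩ Metric.closedBall z |x|,
      ‖deriv (fun w => B w - deriv B z * w) w‖ ≤ N2 * |x| := by
    intro w hw
    have : deriv (fun w => B w - deriv B z * w) w = deriv B w - deriv B z := by
      have h1 : HasDerivAt (fun w => B w - deriv B z * w) (deriv B w - deriv B z * 1) w :=
        (h.diffAt hw.1).hasDerivAt.sub ((hasDerivAt_id w).const_mul (deriv B z))
      rw [h1.deriv, mul_one]
    rw [this]
    refine (h.inc' hz hw.1).trans ?_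
    have h2 : ‖w - z‖ ≤ |x| := by simpa [dist_eq_norm] using hw.2
    exact mul_le_mul_of_nonneg_left h2 (h.N2_nonneg hz)
  have hz' : z ∈ St r ∩ Metric.closedBall z |x| := ⟨hz, by simp⟩
  have hx' : z + x ∈ St r ∩ Metric.closedBall z |x| := ⟨St_add hz x, by simp [dist_eq_norm]⟩
  have := hcv.norm_image_sub_le_of_norm_deriv_le hd hb hz' hx'
  have e : B (z + x) - deriv B z * (z + x) - (B z - deriv B z * z)
      = B (z + x) - B z - deriv B z * x := by ring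
  rw [e] at this
  refine this.trans ?_
  have : ‖z + (x : ℂ) - z‖ = |x| := by simp
  rw [this]; apply le_of_eq; ring

/-- the gaussian increment -/
def hh (c g : ℝ) : ℂ := ((√c * g : ℝ) : ℂ)

lemma hh_cont (c : ℝ) : Continuous (hh c) := by unfold hh; fun_prop

lemma norm_hh (c g : ℝ) : ‖hh c g‖ = √c * |g| := by
  unfold hh; rw [Complex.norm_real, Real.norm_eq_abs, abs_mul, abs_of_nonneg (Real.sqrt_nonneg c)]

lemma abs_sg (c g : ℝ) : |√c * g| = √c * |g| := by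
  rw [abs_mul, abs_of_nonneg (Real.sqrt_nonneg c)]

lemma sg_le {c : ℝ} (hc : c ≤ 1) (g : ℝ) : √c * |g| ≤ |g| := by
  have : √c ≤ 1 := Real.sqrt_le_one.2 hc
  have h0 := abs_nonneg g
  nlinarith

lemma shift_mem {r : ℝ} {z : ℂ} (hz : z ∈ St r) (c g : ℝ) : z + hh c g ∈ St r := St_add hz _

lemma cont_shift {r : ℝ} {φ : ℂ → ℂ} (hφ : ContinuousOn φ (St r)) {z : ℂ} (hz : z ∈ St r)
    (c : ℝ) : Continuous (fun g : ℝ => φ (z + hh c g)) := by
  have h1 : Continuous (fun g : ℝ => z + hh c g) := continuous_const.add (hh_cont c)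
  exact hφ.comp_continuous h1 (fun g => shift_mem hz c g)

/-- the exponent -/
def wc (m c : ℝ) (B : ℂ → ℂ) (z : ℂ) (g : ℝ) : ℂ := (m : ℂ) * (B (z + hh c g) - B z)

lemma wc_cont {r N1 N2 : ℝ} {B : ℂ → ℂ} (h : Cl r N1 N2 B) {z : ℂ} (hz : z ∈ St r) (m c : ℝ) :
    Continuous (wc m c B z) := by
  unfold wc
  exact continuous_const.mul ((cont_shift h.diff.continuousOn hz c).sub continuous_const)

/-- normalization -/
def MM (m c : ℝ) (B : ℂ → ℂ) (z : ℂ) : ℂ := ∫ g, Complex.exp (wc m c B z g) ∂γ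

/-- complex one-level map -/
def TC (m c : ℝ) (B : ℂ → ℂ) (z : ℂ) : ℂ := B z + (1 / (m : ℂ)) * Complex.log (MM m c B z)

section one
variable {r N1 N2 m c : ℝ} {B : ℂ → ℂ} {z : ℂ}

lemma norm_wc_le (h : Cl r N1 N2 B) (hN1 : N1 ≤ 2) (hz : z ∈ St r) (hm : 0 ≤ m) (g : ℝ) :
    ‖wc m c B z g‖ ≤ m * (2 * (√c * |g|)) := by
  unfold wc
  rw [norm_mul, Complex.norm_real, Real.norm_eq_abs, abs_of_nonneg hm]
  refine mul_le_mul_of_nonneg_left ?_ hm
  have h1 := h.inc hz (√c * g)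
  rw [abs_sg] at h1
  refine h1.trans (mul_le_mul_of_nonneg_right hN1 (by positivity))

lemma norm_wc_le' (h : Cl r N1 N2 B) (hN1 : N1 ≤ 2) (hz : z ∈ St r) (hm : 0 ≤ m) (hm1 : m ≤ 1)
    (hc : c ≤ 1) (g : ℝ) : ‖wc m c B z g‖ ≤ 2 * |g| := by
  refine (norm_wc_le h hN1 hz hm g).trans ?_
  have h1 := sg_le hc g
  have h2 : 0 ≤ √c * |g| := by positivity
  nlinarith

lemma norm_cexp_le (h : Cl r N1 N2 B) (hN1 : N1 ≤ 2) (hz : z ∈ St r) (hm : 0 ≤ m) (hm1 : m ≤ 1)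
    (hc : c ≤ 1) (g : ℝ) : ‖Complex.exp (wc m c B z g)‖ ≤ Real.exp (2 * |g|) := by
  refine (Complex.norm_exp_le_exp_norm _).trans ?_
  exact Real.exp_le_exp.2 (norm_wc_le' h hN1 hz hm hm1 hc g)

lemma cexp_cont (h : Cl r N1 N2 B) (hz : z ∈ St r) :
    Continuous (fun g => Complex.exp (wc m c B z g)) := (wc_cont h hz m c).cexp

/-- general domination -/
lemma dom_le {φ : ℝ → ℂ} {P : ℝ} (k : ℕ) (hk : k ≤ 6) (hP : 0 ≤ P)
    (h : Cl r N1 N2 B) (hN1 : N1 ≤ 2) (hz : z ∈ St r) (hm : 0 ≤ m) (hm1 : m ≤ 1)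
    (hc : c ≤ 1) (hφ : ∀ g, ‖φ g‖ ≤ P * |g| ^ k) (g : ℝ) :
    ‖φ g * Complex.exp (wc m c B z g)‖ ≤ P * W g := by
  rw [norm_mul]
  calc ‖φ g‖ * ‖Complex.exp (wc m c B z g)‖ ≤ (P * |g| ^ k) * Real.exp (2 * |g|) :=
        mul_le_mul (hφ g) (norm_cexp_le h hN1 hz hm hm1 hc g) (norm_nonneg _) (by positivity)
    _ = P * (|g| ^ k * Real.exp (2 * |g|)) := by ring
    _ ≤ P * W g := mul_le_mul_of_nonneg_left (le_W hk (by norm_num) g) hP

lemma cexp_int (h : Cl r N1 N2 B) (hN1 : N1 ≤ 2) (hz : z ∈ St r) (hm : 0 ≤ m) (hm1 : m ≤ 1)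
    (hc : c ≤ 1) : Integrable (fun g => Complex.exp (wc m c B z g)) γ := by
  refine int_of_W (C := 1) (cexp_cont h hz) fun g => ?_
  have := dom_le (φ := fun _ => 1) (P := 1) 0 (by norm_num) (by norm_num) h hN1 hz hm hm1 hc
    (fun g => by simp) g
  simpa using this

lemma wc_int (h : Cl r N1 N2 B) (hN1 : N1 ≤ 2) (hz : z ∈ St r) (hm : 0 ≤ m) (hm1 : m ≤ 1)
    (hc : c ≤ 1) : Integrable (wc m c B z) γ := by
  refine int_of_W (C := 2) (wc_cont h hz m c) fun g => ?_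
  refine (norm_wc_le' h hN1 hz hm hm1 hc g).trans ?_
  have := le_W (k := 1) (by norm_num) (s := 0) (by norm_num) g
  simp only [pow_one, zero_mul, Real.exp_zero, mul_one] at this
  linarith

/-- the constant -/
def C1 : ℝ := 4 + 4 * J

lemma C1_pos : 0 < C1 := by unfold C1; have := J_pos; linarith

lemma int_wc_le (h : Cl r N1 N2 B) (hN1 : N1 ≤ 2) (hN2 : N2 ≤ 4) (hz : z ∈ St r) (hm : 0 ≤ m)
    (hm1 : m ≤ 1) (hc0 : 0 ≤ c) (hc : c ≤ 1) : ‖∫ g, wc m c B z g ∂γ‖ ≤ 4 * m * c := by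
  have hi1 : Integrable (fun g : ℝ => (√c * g) ^ 2) γ := by
    by_contra hcon
    have h1 := integral_undef hcon
    rw [int_h_sq hc0] at h1
    subst h1
    simp at hcon
  have hh1 : Integrable (fun g : ℝ => (m : ℂ) * deriv B z * hh c g) γ := by
    refine int_of_W (C := m * ‖deriv B z‖) (continuous_const.mul (hh_cont c)) fun g => ?_
    rw [norm_mul, norm_mul, norm_hh, Complex.norm_real, Real.norm_eq_abs, abs_of_nonneg hm]
    refine mul_le_mul_of_nonneg_left ?_ (by positivity)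
    have := le_W (k := 1) (by norm_num) (s := 0) (by norm_num) g
    simp only [pow_one, zero_mul, Real.exp_zero, mul_one] at this
    exact (sg_le hc g).trans this
  have e : ∫ g, wc m c B z g ∂γ = ∫ g, (wc m c B z g - (m : ℂ) * deriv B z * hh c g) ∂γ := by
    rw [integral_sub (wc_int h hN1 hz hm hm1 hc) hh1]
    have : ∫ g, (m : ℂ) * deriv B z * hh c g ∂γ = 0 := by
      rw [integral_const_mul]; unfold hh; rw [int_h, mul_zero]
    rw [this, sub_zero]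
  rw [e]
  have hb : ∀ g : ℝ, ‖wc m c B z g - (m : ℂ) * deriv B z * hh c g‖ ≤ 4 * m * (√c * g) ^ 2 := by
    intro g
    have e2 : wc m c B z g - (m : ℂ) * deriv B z * hh c g
        = (m : ℂ) * (B (z + hh c g) - B z - deriv B z * hh c g) := by unfold wc; ring
    rw [e2, norm_mul, Complex.norm_real, Real.norm_eq_abs, abs_of_nonneg hm]
    have h1 := h.inc2 hz (√c * g)
    rw [sq_abs] at h1
    have h2 : N2 * (√c * g) ^ 2 ≤ 4 * (√c * g) ^ 2 :=
      mul_le_mul_of_nonneg_right hN2 (sq_nonneg _)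
    have h3 := mul_le_mul_of_nonneg_left (h1.trans h2) hm
    unfold hh
    calc _ ≤ _ := h3
      _ = _ := by ring
  refine (norm_integral_le_of_norm_le (hi1.const_mul (4 * m))
    (Filter.Eventually.of_forall hb)).trans ?_
  rw [integral_const_mul, int_h_sq hc0]

lemma sq_bd (h : Cl r N1 N2 B) (hN1 : N1 ≤ 2) (hz : z ∈ St r) (hm : 0 ≤ m)
    (hm1 : m ≤ 1) (hc0 : 0 ≤ c) (hc : c ≤ 1) (g : ℝ) :
    ‖wc m c B z g‖ ^ 2 * Real.exp ‖wc m c B z g‖ ≤ 4 * m * c * W g := by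
  have h1 := norm_wc_le h hN1 hz hm (c := c) g
  have h2 := norm_wc_le' h hN1 hz hm hm1 hc g
  have h3 : ‖wc m c B z g‖ ^ 2 ≤ 4 * m * c * |g| ^ 2 := by
    calc ‖wc m c B z g‖ ^ 2 ≤ (m * (2 * (√c * |g|))) ^ 2 :=
          pow_le_pow_left₀ (norm_nonneg _) h1 2
      _ = m * (m * 4 * (√c ^ 2) * |g| ^ 2) := by ring
      _ = m * (m * 4 * c * |g| ^ 2) := by rw [Real.sq_sqrt hc0]
      _ ≤ 1 * (m * 4 * c * |g| ^ 2) :=
          mul_le_mul_of_nonneg_right hm1 (by positivity)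
      _ = 4 * m * c * |g| ^ 2 := by ring
  calc ‖wc m c B z g‖ ^ 2 * Real.exp ‖wc m c B z g‖
      ≤ (4 * m * c * |g| ^ 2) * Real.exp (2 * |g|) :=
        mul_le_mul h3 (Real.exp_le_exp.2 h2) (Real.exp_pos _).le (by positivity)
    _ = (4 * m * c) * (|g| ^ 2 * Real.exp (2 * |g|)) := by ring
    _ ≤ (4 * m * c) * W g :=
        mul_le_mul_of_nonneg_left (le_W (by norm_num) (by norm_num) g) (by positivity)

lemma exp_sub_le (w : ℂ) : ‖Complex.exp w - 1 - w‖ ≤ ‖w‖ ^ 2 * Real.exp ‖w‖ := by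
  have := Complex.norm_exp_sub_sum_le_norm_mul_exp w 2
  simpa [Finset.sum_range_succ, sub_sub] using this

lemma MM_sub_one_le (h : Cl r N1 N2 B) (hN1 : N1 ≤ 2) (hN2 : N2 ≤ 4) (hz : z ∈ St r)
    (hm : 0 ≤ m) (hm1 : m ≤ 1) (hc0 : 0 ≤ c) (hc : c ≤ 1) :
    ‖MM m c B z - 1‖ ≤ C1 * m * c := by
  have hi := cexp_int h hN1 hz hm hm1 hc (c := c)
  have hw := wc_int h hN1 hz hm hm1 hc (c := c)
  have e : MM m c B z - 1 = (∫ g, (Complex.exp (wc m c B z g) - 1 - wc m c B z g) ∂γ)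
      + ∫ g, wc m c B z g ∂γ := by
    have hI1 : Integrable (fun g => Complex.exp (wc m c B z g) - 1) γ :=
      hi.sub (integrable_const _)
    have hI2 : Integrable (fun g => Complex.exp (wc m c B z g) - 1 - wc m c B z g) γ :=
      hI1.sub hw
    rw [← integral_add hI2 hw]
    simp only [sub_add_cancel]
    rw [integral_sub hi (integrable_const _)]
    simp [MM]
  rw [e]
  have h1 : ‖∫ g, (Complex.exp (wc m c B z g) - 1 - wc m c B z g) ∂γ‖ ≤ (4 * m * c) * J :=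
    norm_int_le_W fun g => (exp_sub_le _).trans (sq_bd h hN1 hz hm hm1 hc0 hc g)
  have h2 := int_wc_le h hN1 hN2 hz hm hm1 hc0 hc
  refine (norm_add_le _ _).trans ?_
  unfold C1
  nlinarith

lemma real_exp_le (s : ℝ) : Real.exp s ≤ 1 + s + |s| ^ 2 * Real.exp |s| := by
  have h := exp_sub_le (s : ℂ)
  have e : Complex.exp (s : ℂ) - 1 - s = ((Real.exp s - 1 - s : ℝ) : ℂ) := by push_cast; ring
  rw [e, Complex.norm_real, Complex.norm_real, Real.norm_eq_abs, Real.norm_eq_abs] at h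
  have := le_abs_self (Real.exp s - 1 - s)
  linarith

lemma int_norm_cexp_le (h : Cl r N1 N2 B) (hN1 : N1 ≤ 2) (hN2 : N2 ≤ 4) (hz : z ∈ St r)
    (hm : 0 ≤ m) (hm1 : m ≤ 1) (hc0 : 0 ≤ c) (hc : c ≤ 1) :
    ∫ g, ‖Complex.exp (wc m c B z g)‖ ∂γ ≤ 1 + C1 * m * c := by
  have hi := cexp_int h hN1 hz hm hm1 hc (c := c)
  have hw := wc_int h hN1 hz hm hm1 hc (c := c)
  have hre : Integrable (fun g => (wc m c B z g).re) γ := hw.re
  have hb : ∀ g, ‖Complex.exp (wc m c B z g)‖ ≤ 1 + (wc m c B z g).re + 4 * m * c * W g := by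
    intro g
    rw [Complex.norm_exp]
    refine (real_exp_le _).trans ?_
    have h1 : |(wc m c B z g).re| ≤ ‖wc m c B z g‖ := Complex.abs_re_le_norm _
    have h2 : |(wc m c B z g).re| ^ 2 * Real.exp |(wc m c B z g).re|
        ≤ ‖wc m c B z g‖ ^ 2 * Real.exp ‖wc m c B z g‖ :=
      mul_le_mul (pow_le_pow_left₀ (abs_nonneg _) h1 2) (Real.exp_le_exp.2 h1)
        (Real.exp_pos _).le (by positivity)
    have h3 := sq_bd h hN1 hz hm hm1 hc0 hc g
    linarith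
  have hI : Integrable (fun g => 1 + (wc m c B z g).re + 4 * m * c * W g) γ :=
    ((integrable_const _).add hre).add (W_int.const_mul _)
  refine (integral_mono hi.norm hI hb).trans ?_
  have e1 : ∫ g, (1 + (wc m c B z g).re + 4 * m * c * W g) ∂γ
      = 1 + (∫ g, wc m c B z g ∂γ).re + 4 * m * c * J := by
    have hI1 : Integrable (fun g => 1 + (wc m c B z g).re) γ := (integrable_const _).add hre
    rw [integral_add hI1 (W_int.const_mul _),
      integral_add (integrable_const _) hre, integral_const_mul]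
    have : ∫ g, (wc m c B z g).re ∂γ = (∫ g, wc m c B z g ∂γ).re := by
      have := integral_re hw
      simpa using this
    rw [this]; simp [J]
  rw [e1]
  have h2 := int_wc_le h hN1 hN2 hz hm hm1 hc0 hc
  have h3 := (Complex.re_le_norm (∫ g, wc m c B z g ∂γ)).trans h2
  unfold C1
  nlinarith

end one

end
end Pool.Agent.LibOS45
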