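import Pool.Agent.LibOS45.Pert
import Pool.Agent.LibOS45.Expand

/-!
# The three perturbations
-/

open MeasureTheory ProbabilityTheory

namespace Pool.Agent.LibOS45

noncomputable section

section
variable {T : ℝ} {Q : ℝ → ℝ} {th q1 F ν : ℝ} {n : ℕ} {c x : ℕ → ℝ}

lemma sum_hc (Q : ℝ → ℝ) (c x : ℕ → ℝ) (n J : ℕ) :
    ∑ i ∈ Finset.range J, hc' Q c x n i
      = Hq c x (aa x c n) J - (Q (tt c J) - Q 0) := by
  unfold hc' Hq
  rw [Finset.sum_sub_distrib, Finset.sum_range_sub (fun i => Q (tt c i)), tt_zero]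

lemma NO.c0 (h : NO T Q th q1 F ν n c x) : ∀ i < n, 0 ≤ c i := fun i hi => (h.hc i hi).le

lemma NO.tJ (h : NO T Q th q1 F ν n c x) {J : ℕ} (hJ : J ≤ n) :
    0 ≤ tt c J ∧ tt c J ≤ T ∧ tt c J ≤ 1 := by
  have h1 := (h.sy h.lv).tt0 hJ
  have h2 : tt c J ≤ T := by
    rw [← h.htt]; exact tt_mono h.c0 hJ le_rfl
  exact ⟨h1, h2, h2.trans h.T_le⟩

lemma NO.Q0 (h : NO T Q th q1 F ν n c x) {J : ℕ} (hJ : J ≤ n) :
    |Q (tt c J) - Q 0 - q1 / 2 * tt c J ^ 2| ≤ th * tt c J ^ 4 := by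
  obtain ⟨t0, t1, t2⟩ := h.tJ hJ
  have := h.hQ 0 (tt c J) le_rfl t0 t1
  refine le_trans (le_of_eq ?_) (this.trans (le_of_eq ?_))
  · congr 1; ring
  · ring

/-- move mass from the atom at zero to the right -/
theorem pert1 : ∃ C, 0 ≤ C ∧ ∀ {T : ℝ} {Q : ℝ → ℝ} {th q1 F ν : ℝ} {n : ℕ} {c x : ℕ → ℝ},
    NO T Q th q1 F ν n c x → ∀ {e : ℝ}, 0 < e → e ≤ 1 → (∀ i < n, 2 * e ≤ x i) → ∀ {J : ℕ},
    J ≤ n → (aa x c n 1 0 ^ 2 - q1) * tt c J ^ 2 ≤ C * (tt c J ^ 3 + e * tt c J ^ 2 + ν / e) := by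
  obtain ⟨C, hC, hC'⟩ := master
  obtain ⟨D, hD, hD'⟩ := crude_Hq KK
  refine ⟨2 * C + 2 * D + 2, by positivity, fun {T Q th q1 F ν n c x} h {e} he he1 hx {J} hJ => ?_⟩
  set x' : ℕ → ℝ := fun i => if i < J then x i - e else x i with hx'
  have hlv : Lv n x' := by
    refine ⟨fun i hi => ?_, fun i hi => ?_, fun i j hij hj => ?_⟩
    · have := hx i hi
      simp only [hx']; split_ifs
      · linarith
      · linarith
    · have := h.hx1 i hi
      simp only [hx']; split_ifs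
      · linarith
      · linarith
    · have := h.hmono i j hij hj
      simp only [hx']
      by_cases h1 : j < J
      · rw [if_pos h1, if_pos (by omega)]; linarith
      · rw [if_neg h1]; split_ifs
        · linarith
        · linarith
  have m := hC' h hlv hJ (fun i hi hin => by simp only [hx']; rw [if_neg (by omega)])
  have hsum : ∑ i ∈ Finset.range J, (x' i - x i) * hc' Q c x n i
      = -e * (Hq c x (aa x c n) J - (Q (tt c J) - Q 0)) := by
    rw [← sum_hc, Finset.mul_sum]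
    refine Finset.sum_congr rfl fun i hi => ?_
    have := Finset.mem_range.1 hi
    simp only [hx']; rw [if_pos this]; ring
  have hDD : DD x x' c n 0 ≤ e * tt c J := by
    unfold DD tt
    rw [Finset.mul_sum]
    have hsub : Finset.range J ⊆ Finset.Ico 0 n := by
      rw [← Finset.range_eq_Ico]; exact Finset.range_subset_range.2 hJ
    rw [← Finset.sum_subset hsub]
    · refine le_of_eq (Finset.sum_congr rfl fun i hi => ?_)
      have := Finset.mem_range.1 hi
      simp only [hx']; rw [if_pos this]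
      rw [show x i - e - x i = -e by ring, abs_neg, abs_of_pos he]; ring
    · intro i hi hi2
      have : ¬ i < J := fun hcon => hi2 (Finset.mem_range.2 hcon)
      simp only [hx']; rw [if_neg this]; simp
  have hDD0 := DD_nonneg (x := x) (x' := x') h.c0 0
  rw [hsum] at m
  obtain ⟨t0, tT, t1⟩ := h.tJ hJ
  have hs := h.sy h.lv
  have cr := (abs_le.1 (hD' hs J hJ)).1
  have hQ := (abs_le.1 (h.Q0 hJ)).2
  have hν := h.hν0
  set t := tt c J
  set H := Hq c x (aa x c n) J
  have d1 : DD x x' c n 0 ^ 2 ≤ (e * t) ^ 2 := pow_le_pow_left₀ hDD0 hDD 2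
  have d2 : t ^ 4 * DD x x' c n 0 ≤ t ^ 4 * (e * t) := mul_le_mul_of_nonneg_left hDD (by positivity)
  have m2 : e * (H - (Q t - Q 0)) ≤ C * (t ^ 4 * (e * t) + (e * t) ^ 2 + ν) := by
    have : C * (t ^ 4 * DD x x' c n 0 + DD x x' c n 0 ^ 2 + ν)
        ≤ C * (t ^ 4 * (e * t) + (e * t) ^ 2 + ν) := mul_le_mul_of_nonneg_left (by linarith) hC
    linarith
  have m3 : H - (Q t - Q 0) ≤ C * (t ^ 5 + e * t ^ 2 + ν / e) := by
    have e1 : C * (t ^ 4 * (e * t) + (e * t) ^ 2 + ν) = e * (C * (t ^ 5 + e * t ^ 2 + ν / e)) := by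
      field_simp
    rw [e1] at m2
    exact le_of_mul_le_mul_left m2 he
  have p5 : t ^ 5 ≤ t ^ 3 := pow_le_pow_of_le_one t0 t1 (by norm_num)
  have p4 : t ^ 4 ≤ t ^ 3 := pow_le_pow_of_le_one t0 t1 (by norm_num)
  have pν : ν ≤ ν / e := by rw [le_div_iff₀ he]; have h9 := mul_le_mul_of_nonneg_left he1 hν; linarith only [h9]
  have pν0 : 0 ≤ ν / e := by positivity
  have pt : 0 ≤ t ^ 3 := by positivity
  have pe : 0 ≤ e * t ^ 2 := by positivity
  have q4 : th * t ^ 4 ≤ t ^ 3 := by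
    have := h.hth1; have := h.hth0
    have h9 := mul_le_mul_of_nonneg_right h.hth1 (pow_nonneg t0 4); linarith only [h9, p4]
  have c1 : C * (t ^ 5 + e * t ^ 2 + ν / e) ≤ C * (t ^ 3 + e * t ^ 2 + ν / e) :=
    mul_le_mul_of_nonneg_left (by linarith) hC
  have c2 : D * (t ^ 3 + ν) ≤ D * (t ^ 3 + e * t ^ 2 + ν / e) :=
    mul_le_mul_of_nonneg_left (by linarith) hD
  linarith only [m3, cr, hQ, q4, c1, c2, pt, pe, pν0, p4]

/-- size of the density in a cell -/
theorem hc_bd : ∃ C, 0 ≤ C ∧ ∀ {T : ℝ} {Q : ℝ → ℝ} {th q1 F ν : ℝ} {n : ℕ} {c x : ℕ → ℝ},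
    NO T Q th q1 F ν n c x → ∀ i < n, |hc' Q c x n i| ≤ C * c i := by
  obtain ⟨D, hD, hD'⟩ := crude_Gq KK
  refine ⟨KK ^ 2 + 2 * D + 2, by positivity, fun {T Q th q1 F ν n c x} h i hi => ?_⟩
  have hs := h.sy h.lv
  have hi1 : i + 1 ≤ n := hi
  have g := hD' hs (i + 1) hi1
  obtain ⟨t0, tT, t1⟩ := h.tJ hi1
  obtain ⟨s0, sT, s1⟩ := h.tJ hi.le
  have hc0 := h.c0 i hi
  have hst : tt c i ≤ tt c (i + 1) := by rw [tt_succ]; linarith
  have q := h.hQ (tt c i) (tt c (i + 1)) s0 hst tT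
  have hd : tt c (i + 1) - tt c i = c i := by rw [tt_succ]; ring
  rw [hd] at q
  have g0 := hs.g0_bd
  have hν0 := h.hν0
  have hν1 := h.hν1
  have gb : |Gq c x (aa x c n) (i + 1)| ≤ KK ^ 2 + 2 * D := by
    have e : Gq c x (aa x c n) (i + 1) = aa x c n 1 0 ^ 2 * tt c (i + 1)
      + (Gq c x (aa x c n) (i + 1) - aa x c n 1 0 ^ 2 * tt c (i + 1)) := by ring
    rw [e]
    have n1 : |tt c (i + 1)| ≤ 1 := by rw [abs_of_nonneg t0]; exact t1
    refine (abs_add_le _ _).trans ((add_le_add (am g0 n1) g).trans ?_)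
    have : tt c (i + 1) ^ 2 ≤ 1 := pow_le_one₀ t0 t1
    have h9 := mul_le_mul_of_nonneg_left (add_le_add this hν1) hD; linarith only [h9]
  have qb : |Q (tt c (i + 1)) - Q (tt c i)| ≤ 2 * c i := by
    have e : Q (tt c (i + 1)) - Q (tt c i) = (Q (tt c (i + 1)) - Q (tt c i)
      - q1 / 2 * (tt c (i + 1) ^ 2 - tt c i ^ 2)) + q1 / 2 * (tt c (i + 1) ^ 2 - tt c i ^ 2) := by
      ring
    rw [e]
    refine (abs_add_le _ _).trans ?_
    have h1 : th * tt c (i + 1) ^ 3 * c i ≤ c i := by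
      have : th * tt c (i + 1) ^ 3 ≤ 1 := by
        have h1 := h.hth1; have h0 := h.hth0
        have : tt c (i + 1) ^ 3 ≤ 1 := pow_le_one₀ t0 t1
        have : 0 ≤ tt c (i + 1) ^ 3 := pow_nonneg t0 3
        exact mul_le_one₀ h1 (pow_nonneg t0 3) (pow_le_one₀ t0 t1)
      exact mul_le_of_le_one_left hc0 this
    have h2 : |q1 / 2 * (tt c (i + 1) ^ 2 - tt c i ^ 2)| ≤ c i := by
      have e2 : tt c (i + 1) ^ 2 - tt c i ^ 2 = c i * (tt c (i + 1) + tt c i) := by
        rw [← hd]; ring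
      rw [e2, abs_of_nonneg (by have := h.hq0; positivity)]
      have h1 := h.hq1; have h0 := h.hq0
      have h3 : q1 / 2 * (tt c (i + 1) + tt c i) ≤ 1 := by have := mul_le_mul_of_nonneg_left (add_le_add t1 s1) h0; linarith only [this, h1]
      have := mul_le_mul_of_nonneg_left h3 hc0; linarith only [this]
    linarith
  unfold hc'
  refine (abs_sub _ _).trans ?_
  have n2 : |c i| ≤ c i := by rw [abs_of_nonneg hc0]
  have := am n2 gb
  linarith

/-- move mass near a point of the support to zero -/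
theorem pert2 : ∃ C, 0 ≤ C ∧ ∀ {T : ℝ} {Q : ℝ → ℝ} {th q1 F ν : ℝ} {n : ℕ} {c x : ℕ → ℝ},
    NO T Q th q1 F ν n c x → ∀ {e X : ℝ}, 0 < e → e ≤ 1 → X ≤ 1 → ∀ {I J : ℕ}, I ≤ J → J ≤ n →
    (∀ i < I, x i + e ≤ X) → (∀ i < n, J ≤ i → X ≤ x i) →
    1 / 2 * q1 * tt c I ^ 2 - th * tt c I ^ 4
      - C * (tt c J ^ 5 + e + (tt c J - tt c I) + ν / e) ≤ Hq c x (aa x c n) I := by
  obtain ⟨C, hC, hC'⟩ := master
  obtain ⟨D, hD, hD'⟩ := hc_bd
  refine ⟨C + D, by positivity, fun {T Q th q1 F ν n c x} h {e X} he he1 hX {I J} hIJ hJ hxI hxJ => ?_⟩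
  set x' : ℕ → ℝ := fun i => max (x i) (min (x i + e) X) with hx'
  have hlv : Lv n x' := by
    refine ⟨fun i hi => lt_of_lt_of_le (h.hx0 i hi) (le_max_left _ _),
      fun i hi => max_le (h.hx1 i hi) ((min_le_right _ _).trans hX), fun i j hij hj => ?_⟩
    have := h.hmono i j hij hj
    exact max_le_max this (min_le_min (by linarith) le_rfl)
  have hJx : ∀ i, J ≤ i → i < n → x' i = x i := fun i hi hin => by
    simp only [hx']
    exact max_eq_left ((min_le_right _ _).trans (hxJ i hin hi))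
  have m := hC' h hlv hJ hJx
  have hd0 : ∀ i, 0 ≤ x' i - x i := fun i => by
    simp only [hx']; linarith [le_max_left (x i) (min (x i + e) X)]
  have hd1 : ∀ i, x' i - x i ≤ e := fun i => by
    simp only [hx']
    have : max (x i) (min (x i + e) X) ≤ x i + e :=
      max_le (by linarith) (min_le_left _ _)
    linarith
  have hdI : ∀ i < I, x' i - x i = e := fun i hi => by
    simp only [hx']
    rw [min_eq_left (hxI i hi), max_eq_right (by linarith)]; ring
  have hI : I ≤ n := hIJ.trans hJ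
  obtain ⟨t0, tT, t1⟩ := h.tJ hJ
  obtain ⟨s0, sT, s1⟩ := h.tJ hI
  have hsum : ∑ i ∈ Finset.range J, (x' i - x i) * hc' Q c x n i
      ≤ e * (Hq c x (aa x c n) I - (Q (tt c I) - Q 0)) + e * (D * (tt c J - tt c I)) := by
    rw [← Finset.sum_range_add_sum_Ico _ hIJ]
    refine add_le_add ?_ ?_
    · rw [← sum_hc, Finset.mul_sum]
      refine le_of_eq (Finset.sum_congr rfl fun i hi => ?_)
      rw [hdI i (Finset.mem_range.1 hi)]
    · have hb : ∀ i ∈ Finset.Ico I J, (x' i - x i) * hc' Q c x n i ≤ e * (D * c i) := by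
        intro i hi
        have hin : i < n := (Finset.mem_Ico.1 hi).2.trans_le hJ
        have h1 := hD' h i hin
        have h2 : |x' i - x i| ≤ e := by rw [abs_of_nonneg (hd0 i)]; exact hd1 i
        exact (le_abs_self _).trans (am h2 h1)
      refine (Finset.sum_le_sum hb).trans (le_of_eq ?_)
      rw [← Finset.mul_sum, ← Finset.mul_sum]
      have e1 : ∑ i ∈ Finset.Ico I J, c i = tt c J - tt c I := by
        unfold tt; rw [Finset.sum_Ico_eq_sub _ hIJ]
      rw [e1]
  have hDD : DD x x' c n 0 ≤ e * tt c J := by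
    unfold DD tt
    rw [Finset.mul_sum]
    have hsub : Finset.range J ⊆ Finset.Ico 0 n := by
      rw [← Finset.range_eq_Ico]; exact Finset.range_subset_range.2 hJ
    rw [← Finset.sum_subset hsub]
    · refine Finset.sum_le_sum fun i hi => ?_
      have hin : i < n := (Finset.mem_range.1 hi).trans_le hJ
      rw [abs_of_nonneg (hd0 i), mul_comm]
      exact mul_le_mul_of_nonneg_right (hd1 i) (h.c0 i hin)
    · intro i hi hi2
      have : ¬ i < J := fun hcon => hi2 (Finset.mem_range.2 hcon)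
      rw [hJx i (by omega) (Finset.mem_Ico.1 hi).2]; simp
  have hDD0 := DD_nonneg (x := x) (x' := x') h.c0 0
  have hQ := (abs_le.1 (h.Q0 hI)).1
  have hν := h.hν0
  set t := tt c J
  set s := tt c I
  set H := Hq c x (aa x c n) I
  have d1 : DD x x' c n 0 ^ 2 ≤ (e * t) ^ 2 := pow_le_pow_left₀ hDD0 hDD 2
  have d2 : t ^ 4 * DD x x' c n 0 ≤ t ^ 4 * (e * t) := mul_le_mul_of_nonneg_left hDD (by positivity)
  have m2 : -(C * (t ^ 4 * (e * t) + (e * t) ^ 2 + ν)) ≤ e * (H - (Q s - Q 0) + D * (t - s)) := by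
    have : C * (t ^ 4 * DD x x' c n 0 + DD x x' c n 0 ^ 2 + ν)
        ≤ C * (t ^ 4 * (e * t) + (e * t) ^ 2 + ν) := mul_le_mul_of_nonneg_left (by linarith) hC
    linarith
  have m3 : -(C * (t ^ 5 + e * t ^ 2 + ν / e)) ≤ H - (Q s - Q 0) + D * (t - s) := by
    have e1 : -(C * (t ^ 4 * (e * t) + (e * t) ^ 2 + ν))
        = e * (-(C * (t ^ 5 + e * t ^ 2 + ν / e))) := by
      field_simp
    rw [e1] at m2
    exact le_of_mul_le_mul_left m2 he
  have pe : e * t ^ 2 ≤ e := by
    have : t ^ 2 ≤ 1 := pow_le_one₀ t0 t1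
    exact mul_le_of_le_one_right he.le this
  have hts : 0 ≤ t - s := by
    have := tt_mono h.c0 hIJ hJ
    linarith
  have pν0 : 0 ≤ ν / e := by positivity
  have pt : 0 ≤ t ^ 5 := by positivity
  have c1 : C * (t ^ 5 + e * t ^ 2 + ν / e) ≤ C * (t ^ 5 + e + (t - s) + ν / e) :=
    mul_le_mul_of_nonneg_left (by linarith) hC
  have c2 : D * (t - s) ≤ D * (t ^ 5 + e + (t - s) + ν / e) :=
    mul_le_mul_of_nonneg_left (by linarith) hD
  linarith

/-- move the mass in a window after the first point of the support to the right -/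
theorem pert3 : ∃ C, 0 ≤ C ∧ ∀ {T : ℝ} {Q : ℝ → ℝ} {th q1 F ν : ℝ} {n : ℕ} {c x : ℕ → ℝ},
    NO T Q th q1 F ν n c x → ∀ {y d : ℝ}, 0 < y → 0 < d → ∀ {I J : ℕ}, I ≤ J → J ≤ n →
    (∀ i < I, x i = y) → (∀ i < n, y ≤ x i) → d ≤ ∑ i ∈ Finset.Ico I J, c i * (x i - y) →
    Gq c x (aa x c n) I ≤ q1 * tt c I + th * tt c J ^ 3
      + C * (tt c J ^ 4 + (tt c J - tt c I) + ν / d) := by
  obtain ⟨C, hC, hC'⟩ := master
  obtain ⟨D, hD, hD'⟩ := Gq_lip KK
  refine ⟨2 * C + D + 1, by positivity, fun {T Q th q1 F ν n c x} h {y d} hy hd {I J} hIJ hJ hxI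
    hxy hdD => ?_⟩
  set x' : ℕ → ℝ := fun i => if i < J then y else x i with hx'
  have hlv : Lv n x' := by
    refine ⟨fun i hi => ?_, fun i hi => ?_, fun i j hij hj => ?_⟩
    · have := h.hx0 i hi
      simp only [hx']; split_ifs
      · exact hy
      · exact this
    · have := h.hx1 i hi
      simp only [hx']; split_ifs
      · exact (hxy i hi).trans this
      · exact this
    · have h0 := h.hmono i j hij hj
      simp only [hx']
      by_cases h1 : j < J
      · rw [if_pos h1, if_pos (by omega)]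
      · rw [if_neg h1]; split_ifs
        · exact hxy j hj
        · exact h0
  have hJx : ∀ i, J ≤ i → i < n → x' i = x i := fun i hi hin => by
    simp only [hx']; rw [if_neg (by omega)]
  have m := hC' h hlv hJ hJx
  have hI : I ≤ n := hIJ.trans hJ
  obtain ⟨t0, tT, t1⟩ := h.tJ hJ
  obtain ⟨s0, sT, s1⟩ := h.tJ hI
  set S := ∑ i ∈ Finset.Ico I J, c i * (x i - y) with hS
  have hts : tt c I ≤ tt c J := tt_mono h.c0 hIJ hJ
  have hDDe : DD x x' c n 0 = S := by
    unfold DD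
    have hsub : Finset.Ico I J ⊆ Finset.Ico 0 n := Finset.Ico_subset_Ico (by omega) hJ
    rw [hS, ← Finset.sum_subset hsub]
    · refine Finset.sum_congr rfl fun i hi => ?_
      have hi' := Finset.mem_Ico.1 hi
      simp only [hx']; rw [if_pos hi'.2, abs_sub_comm,
        abs_of_nonneg (by linarith [hxy i (hi'.2.trans_le hJ)])]
    · intro i hi hi2
      have hin := (Finset.mem_Ico.1 hi).2
      by_cases h1 : i < J
      · have h2 : i < I := by
          by_contra hcon
          exact hi2 (Finset.mem_Ico.2 ⟨by omega, h1⟩)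
        simp only [hx']; rw [if_pos h1, hxI i h2]; simp
      · rw [hJx i (by omega) hin]; simp
  have hS1 : S ≤ tt c J - tt c I := by
    have e1 : ∑ i ∈ Finset.Ico I J, c i = tt c J - tt c I := by
      unfold tt; rw [Finset.sum_Ico_eq_sub _ hIJ]
    rw [← e1, hS]
    refine Finset.sum_le_sum fun i hi => ?_
    have hin : i < n := (Finset.mem_Ico.1 hi).2.trans_le hJ
    have h1 := h.hx1 i hin
    have h2 := h.c0 i hin
    exact mul_le_of_le_one_right h2 (by linarith only [h1, hy])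
  have hS0 : 0 < S := hd.trans_le hdD
  -- lower bound for the density
  set B := Gq c x (aa x c n) I - q1 * tt c I - th * tt c J ^ 3 - (D + 1) * (tt c J - tt c I) with hB
  have hlow : ∀ i ∈ Finset.Ico I J, c i * B ≤ hc' Q c x n i := by
    intro i hi
    have hi' := Finset.mem_Ico.1 hi
    have hin : i < n := hi'.2.trans_le hJ
    have hi1 : i + 1 ≤ n := hin
    have hc0 := h.c0 i hin
    have g := (abs_le.1 (hD' (h.sy h.lv) I (i + 1) (by omega) hi1)).1
    obtain ⟨u0, uT, u1⟩ := h.tJ hi1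
    obtain ⟨v0, vT, v1⟩ := h.tJ hin.le
    have huv : tt c (i + 1) - tt c i = c i := by rw [tt_succ]; ring
    have hu : tt c (i + 1) ≤ tt c J := tt_mono h.c0 (by omega) hJ
    have hv : tt c i ≤ tt c (i + 1) := by linarith
    have hIi : tt c I ≤ tt c i := tt_mono h.c0 hi'.1 (by omega)
    have q := (abs_le.1 (h.hQ (tt c i) (tt c (i + 1)) v0 hv uT)).2
    rw [huv] at q
    have e2 : tt c (i + 1) ^ 2 - tt c i ^ 2 = c i * (tt c (i + 1) + tt c i) := by
      rw [← huv]; ring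
    rw [e2] at q
    have q3 : th * tt c (i + 1) ^ 3 * c i ≤ th * tt c J ^ 3 * c i :=
      mul_le_mul_of_nonneg_right (mul_le_mul_of_nonneg_left
        (pow_le_pow_left₀ u0 hu 3) h.hth0) hc0
    have q4 : q1 / 2 * (c i * (tt c (i + 1) + tt c i))
        ≤ c i * (q1 * tt c I + (tt c J - tt c I)) := by
      have h1 := h.hq1; have h0 := h.hq0
      have h3 : q1 / 2 * (tt c (i + 1) + tt c i) ≤ q1 * tt c I + (tt c J - tt c I) := by
        have a1 := mul_le_mul_of_nonneg_left (by linarith only [hu, hv] : tt c (i+1) + tt c i ≤ 2 * tt c J) h0; have a2 := mul_le_mul_of_nonneg_right h1 (by linarith only [hts] : 0 ≤ tt c J - tt c I); linarith only [a1, a2]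
      have := mul_le_mul_of_nonneg_left h3 hc0
      linarith
    have g2 : c i * (Gq c x (aa x c n) I - D * (tt c J - tt c I))
        ≤ c i * Gq c x (aa x c n) (i + 1) := by
      refine mul_le_mul_of_nonneg_left ?_ hc0
      have : D * (tt c (i + 1) - tt c I) ≤ D * (tt c J - tt c I) :=
        mul_le_mul_of_nonneg_left (by linarith) hD
      linarith
    unfold hc'
    rw [hB]
    linarith only [q, q3, q4, g2]
  have hsum : ∑ i ∈ Finset.range J, (x' i - x i) * hc' Q c x n i ≤ -(S * B) := by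
    rw [← Finset.sum_range_add_sum_Ico _ hIJ]
    have z1 : ∑ i ∈ Finset.range I, (x' i - x i) * hc' Q c x n i = 0 := by
      refine Finset.sum_eq_zero fun i hi => ?_
      have := Finset.mem_range.1 hi
      simp only [hx']; rw [if_pos (by omega), hxI i this]; ring
    rw [z1, zero_add, hS, Finset.sum_mul, ← Finset.sum_neg_distrib]
    refine Finset.sum_le_sum fun i hi => ?_
    have hi' := Finset.mem_Ico.1 hi
    have l := hlow i hi
    have hxi := hxy i (hi'.2.trans_le hJ)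
    simp only [hx']; rw [if_pos hi'.2]
    have := mul_le_mul_of_nonneg_right l (by linarith only [hxi] : 0 ≤ x i - y); linarith only [this]
  have hν := h.hν0
  rw [hDDe] at m
  have m2 := m.trans hsum
  have m3 : B ≤ C * (tt c J ^ 4 + S + ν / d) := by
    have h1 : S * B ≤ C * (tt c J ^ 4 * S + S ^ 2 + ν) := by linarith
    have h2 : C * (tt c J ^ 4 * S + S ^ 2 + ν) ≤ S * (C * (tt c J ^ 4 + S + ν / d)) := by
      have h3 : ν ≤ S * (ν / d) := by
        rw [mul_div_assoc', le_div_iff₀ hd]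
        have := mul_le_mul_of_nonneg_right hdD hν; linarith only [this]
      have h4 : tt c J ^ 4 * S + S ^ 2 + ν ≤ S * (tt c J ^ 4 + S + ν / d) := by linarith only [h3]
      have := mul_le_mul_of_nonneg_left h4 hC
      linarith
    exact le_of_mul_le_mul_left (h1.trans h2) hS0
  have pν0 : 0 ≤ ν / d := by positivity
  have pt : 0 ≤ tt c J ^ 4 := by positivity
  have c1 : C * (tt c J ^ 4 + S + ν / d) ≤ C * (tt c J ^ 4 + (tt c J - tt c I) + ν / d) :=
    mul_le_mul_of_nonneg_left (by linarith) hC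
  have c2 : 0 ≤ (C + D + 1) * (tt c J ^ 4 + ν / d) := by positivity
  have c3 : 0 ≤ C * (tt c J - tt c I) := mul_nonneg hC (by linarith)
  rw [hB] at m3
  linarith only [m3, c1, c2, c3]

end

end
end Pool.Agent.LibOS45
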