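import Pool.Agent.LibOS45.Alg
import Pool.Agent.LibOS45.Seq

/-!
# The weights and the first variation
-/

namespace Pool.Agent.LibOS45
open Asymptotics

noncomputable section

/-- partial sums -/
def tt (c : ℕ → ℝ) (j : ℕ) : ℝ := ∑ i ∈ Finset.range j, c i

lemma tt_zero (c : ℕ → ℝ) : tt c 0 = 0 := by simp [tt]
lemma tt_succ (c : ℕ → ℝ) (j : ℕ) : tt c (j + 1) = tt c j + c j := by
  simp [tt, Finset.sum_range_succ]

lemma tt_nonneg {c : ℕ → ℝ} {n : ℕ} (h : ∀ i < n, 0 ≤ c i) {j : ℕ} (hj : j ≤ n) : 0 ≤ tt c j :=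
  Finset.sum_nonneg fun i hi => h i ((Finset.mem_range.1 hi).trans_le hj)

lemma tt_mono {c : ℕ → ℝ} {n : ℕ} (h : ∀ i < n, 0 ≤ c i) {i j : ℕ} (hij : i ≤ j) (hj : j ≤ n) :
    tt c i ≤ tt c j := by
  induction j, hij using Nat.le_induction with
  | base => exact le_rfl
  | succ j hij ih =>
    rw [tt_succ]
    have := ih (by omega)
    have := h j (by omega)
    linarith

/-- the weights -/
def lam (c x : ℕ → ℝ) (a : ℕ → ℕ → ℝ) : ℕ → ℝ × ℝ × ℝ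
  | 0 => (0, 0, 0)
  | j + 1 => 
    ((lam c x a j).1 + c j * L1 (x j) (a 1 (j + 1)) (a 2 (j + 1)) (a 3 (j + 1))
      (lam c x a j).1 (lam c x a j).2.1 (lam c x a j).2.2,
     (lam c x a j).2.1 + c j * L2 (x j) (a 1 (j + 1)) (a 2 (j + 1))
      (lam c x a j).1 (lam c x a j).2.1 (lam c x a j).2.2,
     (lam c x a j).2.2 + c j * L3 (x j) (a 1 (j + 1)) (lam c x a j).2.1 (lam c x a j).2.2)

/-- the standing assumptions on a configuration (`K` constant, `ε` bounds the square root of the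
mesh) -/
structure SY (K ε : ℝ) (n : ℕ) (c x : ℕ → ℝ) (a : ℕ → ℕ → ℝ) : Prop where
  sq : SQ K n c x a
  hK : 1 ≤ K
  c0 : ∀ i < n, 0 ≤ c i
  ce : ∀ i < n, √(c i) ≤ ε
  e0 : 0 ≤ ε
  e1 : ε ≤ 1
  x0 : ∀ i < n, 0 ≤ x i
  x1 : ∀ i < n, x i ≤ 1
  tK : 24 * K * tt c n ≤ 1

variable {K ε : ℝ} {n : ℕ} {c x : ℕ → ℝ} {a : ℕ → ℕ → ℝ}

lemma am {x y a b : ℝ} (hx : |x| ≤ a) (hy : |y| ≤ b) : |x * y| ≤ a * b := by
  rw [abs_mul]; exact mul_le_mul hx hy (abs_nonneg _) ((abs_nonneg _).trans hx)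

lemma SY.tt0 (h : SY K ε n c x a) {j : ℕ} (hj : j ≤ n) : 0 ≤ tt c j := tt_nonneg h.c0 hj

lemma SY.ttK (h : SY K ε n c x a) {j : ℕ} (hj : j ≤ n) : 24 * K * tt c j ≤ 1 := by
  have := tt_mono h.c0 hj le_rfl
  have hK := h.hK
  have h2 := h.tK
  have h3 := mul_le_mul_of_nonneg_left this (by linarith only [hK] : 0 ≤ 24 * K); linarith only [h3, h2]

lemma SY.tt1 (h : SY K ε n c x a) {j : ℕ} (hj : j ≤ n) : tt c j ≤ 1 := by
  have := h.ttK hj
  have hK := h.hK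
  have h0 := h.tt0 hj
  have h3 := mul_le_mul_of_nonneg_right hK h0; linarith only [h3, this, h0]

lemma SY.c_le (h : SY K ε n c x a) {j : ℕ} (hj : j < n) : c j ≤ 1 := by
  have h1 := h.tt1 (show j + 1 ≤ n from hj)
  have h2 := h.tt0 hj.le
  rw [tt_succ] at h1
  linarith

lemma SY.cle (h : SY K ε n c x a) {j : ℕ} (hj : j < n) : c j ≤ ε := by
  have h1 := h.ce j hj
  have h2 := h.c0 j hj
  have h3 : c j ≤ √(c j) := by
    rw [Real.le_sqrt h2 h2]; have h4 := mul_le_mul_of_nonneg_left (h.c_le hj) h2; linarith only [h4]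
  linarith

lemma SY.lam_bd (h : SY K ε n c x a) : ∀ j ≤ n, |(lam c x a j).1| ≤ tt c j ∧
    |(lam c x a j).2.1| ≤ tt c j ^ 2 ∧ |(lam c x a j).2.2| ≤ tt c j ^ 3 := by
  intro j
  induction j with
  | zero => intro _; simp [lam, tt_zero]
  | succ j ih =>
    intro hj
    obtain ⟨i1, i2, i3⟩ := ih (by omega)
    have hjn : j < n := hj
    set l1 := (lam c x a j).1
    set l2 := (lam c x a j).2.1
    set l3 := (lam c x a j).2.2
    have ht0 := h.tt0 hjn.le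
    have ht1 := h.tt1 hjn.le
    have htK := h.ttK hjn.le
    have hK := h.hK
    have hc0 := h.c0 j hjn
    have hx0 := h.x0 j hjn
    have hx1 := h.x1 j hjn
    have hx : |x j| ≤ 1 := by rw [abs_of_nonneg hx0]; exact hx1
    have b1 := h.sq.bd 1 (j + 1) (by norm_num) (by norm_num) hj
    have b2 := h.sq.bd 2 (j + 1) (by norm_num) (by norm_num) hj
    have b3 := h.sq.bd 3 (j + 1) (by norm_num) (by norm_num) hj
    set t := tt c j
    set A1 := a 1 (j + 1)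
    set A2 := a 2 (j + 1)
    set A3 := a 3 (j + 1)
    have ht2 : t ^ 2 ≤ t := by have := mul_le_mul_of_nonneg_left ht1 ht0; linarith only [this]
    have ht3 : t ^ 3 ≤ t ^ 2 := by have := mul_le_mul_of_nonneg_left ht1 (sq_nonneg t); linarith only [this]
    have two : |(2 : ℝ)| ≤ 2 := by norm_num
    have four : |(4 : ℝ)| ≤ 4 := by norm_num
    have six : |(6 : ℝ)| ≤ 6 := by norm_num
    have twenty : |(20 : ℝ)| ≤ 20 := by norm_num
    have half : |(1 / 2 : ℝ)| ≤ 1 / 2 := by norm_num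
    simp only [lam, tt_succ]
    have hcabs : |c j| ≤ c j := by rw [abs_of_nonneg hc0]
    refine ⟨?_, ?_, ?_⟩
    · have e1 : |L1 (x j) A1 A2 A3 l1 l2 l3| ≤ 1 := by
        unfold L1
        have s1 := am (am two b1) i1
        have s2 := am (am four b2) i2
        have s3 := am (am six b3) i3
        have s4 := (abs_add_le (2 * A1 * l1) (4 * A2 * l2)).trans (add_le_add s1 s2)
        have s5 := (abs_add_le (2 * A1 * l1 + 4 * A2 * l2) (6 * A3 * l3)).trans (add_le_add s4 s3)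
        have s6 := am hx s5
        have s7 := (abs_add_le (1 / 2) (x j * (2 * A1 * l1 + 4 * A2 * l2 + 6 * A3 * l3))).trans
          (add_le_add half s6)
        refine s7.trans ?_
        have w1 : K * t ^ 2 ≤ K * t := mul_le_mul_of_nonneg_left ht2 (by linarith)
        have w2 : K * t ^ 3 ≤ K * t := mul_le_mul_of_nonneg_left (ht3.trans ht2) (by linarith)
        linarith only [w1, w2, htK]
      refine (abs_add_le _ _).trans ?_
      have := am hcabs e1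
      linarith
    · have e1 : |L2 (x j) A1 A2 l1 l2 l3| ≤ 3 / 2 * t := by
        unfold L2
        have s2 := am (am four b1) i2
        have s3 := am (am twenty b2) i3
        have s5 := (abs_add_le (4 * A1 * l2) (20 * A2 * l3)).trans (add_le_add s2 s3)
        have s6 := am hx s5
        have s7 := (abs_add_le (1 / 2 * l1) (x j * (4 * A1 * l2 + 20 * A2 * l3))).trans
          (add_le_add (am half i1) s6)
        refine s7.trans ?_
        have w1 : K * t ^ 3 ≤ K * t ^ 2 := mul_le_mul_of_nonneg_left ht3 (by linarith)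
        have w2 : 24 * K * t * t ≤ 1 * t := mul_le_mul_of_nonneg_right htK ht0
        linarith only [w1, w2]
      refine (abs_add_le _ _).trans ?_
      have := am hcabs e1
      linarith only [i2, this, mul_nonneg ht0 hc0, sq_nonneg (c j)]
    · have e1 : |L3 (x j) A1 l2 l3| ≤ t ^ 2 := by
        unfold L3
        have s3 := am (am six b1) i3
        have s6 := am hx s3
        have s7 := (abs_add_le (1 / 2 * l2) (x j * (6 * A1 * l3))).trans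
          (add_le_add (am half i2) s6)
        refine s7.trans ?_
        have : 24 * K * t * t ^ 2 ≤ 1 * t ^ 2 := mul_le_mul_of_nonneg_right htK (sq_nonneg _)
        linarith only [this, sq_nonneg t]
      refine (abs_add_le _ _).trans ?_
      have := am hcabs e1
      linarith only [i3, this, mul_nonneg (mul_nonneg ht0 hc0) hc0, mul_nonneg (mul_nonneg ht0 ht0) hc0,
        pow_nonneg hc0 3]

lemma SY.bd' (h : SY K ε n c x a) {k j : ℕ} (h1 : 1 ≤ k) (h4 : k ≤ 4) (hj : j ≤ n) :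
    |a k j| ≤ K := h.sq.bd k j h1 h4 hj

/-- the cell of index `j` -/
def SY.cell (h : SY K ε n c x a) (j : ℕ) (hj : j < n) : Cell K where
  c := c j
  x := x j
  t := tt c (j + 1)
  a1 := a 1 (j + 1)
  a2 := a 2 (j + 1)
  a3 := a 3 (j + 1)
  a4 := a 4 (j + 1)
  b1 := a 1 j
  b2 := a 2 j
  b3 := a 3 j
  l1 := (lam c x a j).1
  l2 := (lam c x a j).2.1
  l3 := (lam c x a j).2.2
  m1 := (lam c x a (j + 1)).1
  m2 := (lam c x a (j + 1)).2.1
  m3 := (lam c x a (j + 1)).2.2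
  hc0 := h.c0 j hj
  hc1 := h.c_le hj
  hx0 := h.x0 j hj
  hx1 := h.x1 j hj
  ht0 := h.tt0 hj
  ht1 := h.tt1 hj
  ha1 := h.bd' (by norm_num) (by norm_num) hj
  ha2 := h.bd' (by norm_num) (by norm_num) hj
  ha3 := h.bd' (by norm_num) (by norm_num) hj
  ha4 := h.bd' (by norm_num) (by norm_num) hj
  he1 := h.sq.rc 1 j (by norm_num) hj
  he2 := h.sq.rc 2 j (by norm_num) hj
  he3 := h.sq.rc 3 j (by norm_num) hj
  hm1 := rfl
  hm2 := rfl
  hm3 := rfl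
  hl1 := (h.lam_bd j hj.le).1.trans (tt_mono h.c0 (Nat.le_succ j) hj)
  hl2 := (h.lam_bd j hj.le).2.1.trans
    (pow_le_pow_left₀ (h.tt0 hj.le) (tt_mono h.c0 (Nat.le_succ j) hj) 2)
  hl3 := (h.lam_bd j hj.le).2.2.trans
    (pow_le_pow_left₀ (h.tt0 hj.le) (tt_mono h.c0 (Nat.le_succ j) hj) 3)
  hn1 := (h.lam_bd (j + 1) hj).1
  hn2 := (h.lam_bd (j + 1) hj).2.1
  hn3 := (h.lam_bd (j + 1) hj).2.2

/-- density at `j` -/
def Gq (c x : ℕ → ℝ) (a : ℕ → ℕ → ℝ) (j : ℕ) : ℝ :=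
  gg (a 1 j) (a 2 j) (a 3 j) (lam c x a j).1 (lam c x a j).2.1 (lam c x a j).2.2

/-- its derivative at `j` -/
def Gm (c x : ℕ → ℝ) (a : ℕ → ℕ → ℝ) (j : ℕ) : ℝ :=
  gam (a 1 j) (a 2 j) (a 3 j) (lam c x a j).1 (lam c x a j).2.1

/-- its second derivative at `j` -/
def Rh (c x : ℕ → ℝ) (a : ℕ → ℕ → ℝ) (y : ℝ) (j : ℕ) : ℝ :=
  rho y (a 1 j) (a 2 j) (lam c x a j).1

lemma SY.csq (h : SY K ε n c x a) {j : ℕ} (hj : j < n) : c j * √(c j) ≤ c j * ε :=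
  mul_le_mul_of_nonneg_left (h.ce j hj) (h.c0 j hj)

theorem Gq_inc (K : ℝ) : ∃ C, 0 ≤ C ∧ ∀ {ε : ℝ} {n : ℕ} {c x : ℕ → ℝ} {a : ℕ → ℕ → ℝ},
    SY K ε n c x a → ∀ j < n, |Gq c x a (j + 1) - Gq c x a j - c j * Gm c x a (j + 1)|
      ≤ C * (c j * (tt c (j + 1) ^ 3 + ε)) := by
  obtain ⟨C, hC, hC'⟩ := gg_inc K
  refine ⟨C, hC, fun {ε n c x a} h j hj => ?_⟩
  refine (hC' (h.cell j hj)).trans (mul_le_mul_of_nonneg_left ?_ hC)
  have := h.csq hj
  have e : c j * (tt c (j + 1) ^ 3 + ε) = c j * tt c (j + 1) ^ 3 + c j * ε := by ring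
  rw [e]
  exact add_le_add le_rfl this

theorem Gm_inc (K : ℝ) : ∃ C, 0 ≤ C ∧ ∀ {ε : ℝ} {n : ℕ} {c x : ℕ → ℝ} {a : ℕ → ℕ → ℝ},
    SY K ε n c x a → ∀ j < n, |Gm c x a (j + 1) - Gm c x a j - c j * Rh c x a (x j) (j + 1)|
      ≤ C * (c j * (tt c (j + 1) ^ 2 + ε)) := by
  obtain ⟨C, hC, hC'⟩ := gam_inc K
  refine ⟨C, hC, fun {ε n c x a} h j hj => ?_⟩
  refine (hC' (h.cell j hj)).trans (mul_le_mul_of_nonneg_left ?_ hC)
  have := h.csq hj
  have e : c j * (tt c (j + 1) ^ 2 + ε) = c j * tt c (j + 1) ^ 2 + c j * ε := by ring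
  rw [e]
  exact add_le_add le_rfl this

theorem Rh_inc (K : ℝ) : ∃ C, 0 ≤ C ∧ ∀ {ε : ℝ} {n : ℕ} {c x : ℕ → ℝ} {a : ℕ → ℕ → ℝ},
    SY K ε n c x a → ∀ j < n, |Rh c x a (x j) (j + 1) - Rh c x a (x j) j
      - c j * (a 2 (j + 1) ^ 2 + 6 * x j ^ 2 * a 1 (j + 1) ^ 4)|
      ≤ C * (c j * (tt c (j + 1) ^ 1 + ε)) := by
  obtain ⟨C, hC, hC'⟩ := rho_inc K
  refine ⟨C, hC, fun {ε n c x a} h j hj => ?_⟩
  refine (hC' (h.cell j hj)).trans (mul_le_mul_of_nonneg_left ?_ hC)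
  have := h.csq hj
  have e : c j * (tt c (j + 1) ^ 1 + ε) = c j * tt c (j + 1) ^ 1 + c j * ε := by ring
  rw [e]
  exact add_le_add le_rfl this

/-- coefficients are Lipschitz in time -/
theorem aa_inc (K : ℝ) : ∃ C, 0 ≤ C ∧ ∀ {ε : ℝ} {n : ℕ} {c x : ℕ → ℝ} {a : ℕ → ℕ → ℝ},
    SY K ε n c x a → ∀ j < n, |a 1 (j + 1) - a 1 j| ≤ C * c j ∧
      |a 2 (j + 1) - a 2 j| ≤ C * c j := by
  obtain ⟨A, hA⟩ := isBigO_top.1 (dv_a1 (K := K)).diff
  obtain ⟨B, hB⟩ := isBigO_top.1 (dv_a2 (K := K)).diff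
  refine ⟨|A| + |B|, by positivity, fun {ε n c x a} h j hj => ?_⟩
  have h1 := hA (h.cell j hj)
  have h2 := hB (h.cell j hj)
  have hc0 := h.c0 j hj
  simp only [SY.cell, Real.norm_eq_abs, abs_of_nonneg hc0] at h1 h2
  have p1 := mul_le_mul_of_nonneg_right (le_abs_self A) hc0
  have p2 := mul_le_mul_of_nonneg_right (le_abs_self B) hc0
  have p3 := mul_nonneg (abs_nonneg A) hc0
  have p4 := mul_nonneg (abs_nonneg B) hc0
  constructor
  · linarith only [h1, p1, p4]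
  · linarith only [h2, p2, p3]

/-- the mixed density: coefficients at the inner end, weights at the outer end -/
def Gx (c x : ℕ → ℝ) (a : ℕ → ℕ → ℝ) (j : ℕ) : ℝ :=
  gg (a 1 (j + 1)) (a 2 (j + 1)) (a 3 (j + 1)) (lam c x a j).1 (lam c x a j).2.1
    (lam c x a j).2.2

theorem Gx_Gq (K : ℝ) : ∃ C, 0 ≤ C ∧ ∀ {ε : ℝ} {n : ℕ} {c x : ℕ → ℝ} {a : ℕ → ℕ → ℝ},
    SY K ε n c x a → ∀ j < n, |Gx c x a j - Gq c x a (j + 1)| ≤ C * ε := by
  have h : (fun i : Cell K => gg i.a1 i.a2 i.a3 i.l1 i.l2 i.l3 - gg i.a1 i.a2 i.a3 i.m1 i.m2 i.m3)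
      =O[⊤] (fun i => i.c) := by
    have h1 := ob_mul_O ((ob_const (K := K) (-2)).mul (ob_a1.mul ob_a1)) dm1
    have h2 := ob_mul_O ((ob_const (K := K) (-8)).mul (ob_a1.mul ob_a2)) dm2
    have h3 := ob_mul_O (((ob_const (K := K) (-12)).mul (ob_a1.mul ob_a3)).add
      ((ob_const (K := K) (-20)).mul (ob_a2.mul ob_a2))) dm3
    refine ((h1.add h2).add h3).congr_left fun i => ?_
    unfold gg; ring
  obtain ⟨A, hA⟩ := isBigO_top.1 h
  refine ⟨|A|, by positivity, fun {ε n c x a} h j hj => ?_⟩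
  have h1 := hA (h.cell j hj)
  have hc0 := h.c0 j hj
  simp only [SY.cell, Real.norm_eq_abs, abs_of_nonneg hc0] at h1
  refine h1.trans ((mul_le_mul_of_nonneg_right (le_abs_self A) hc0).trans
    (mul_le_mul_of_nonneg_left (h.cle hj) (abs_nonneg A)))

/-- algebraic form of the variation in one cell -/
lemma var_cell {K c x x' t D a1 a2 a3 d0 d1 d2 d3 d4 e0 e1 e2 e3 l1 l2 l3 : ℝ} (hK : 1 ≤ K)
    (hc : 0 ≤ c) (hx0 : 0 ≤ x) (hx1 : x ≤ 1) (hD0 : 0 ≤ D) (hD1 : D ≤ 1) (ht0 : 0 ≤ t)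
    (ht1 : t ≤ 1)
    (ha1 : |a1| ≤ K) (ha2 : |a2| ≤ K) (ha3 : |a3| ≤ K)
    (hd1 : |d1| ≤ K * D) (hd2 : |d2| ≤ K * D) (hd3 : |d3| ≤ K * D) (hd4 : |d4| ≤ K * D)
    (hl1 : |l1| ≤ t) (hl2 : |l2| ≤ t ^ 2) (hl3 : |l3| ≤ t ^ 3) {E : ℝ}
    (h0 : |e0 - d0 - c / 2 * d1| ≤ E)
    (h1 : |e1 - d1 - c / 2 * (d2 + x' * (2 * (a1 + d1) ^ 2) - x * (2 * a1 ^ 2))| ≤ E)
    (h2 : |e2 - d2 - c / 2 * (d3 + x' * (8 * (a1 + d1) * (a2 + d2)) - x * (8 * a1 * a2))| ≤ E)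
    (h3 : |e3 - d3 - c / 2 * (d4 + x' * (12 * (a1 + d1) * (a3 + d3) + 20 * (a2 + d2) ^ 2)
      - x * (12 * a1 * a3 + 20 * a2 ^ 2))| ≤ E) :
    |(e0 + l1 * e1 + l2 * e2 + l3 * e3)
      - (d0 + (l1 + c * L1 x a1 a2 a3 l1 l2 l3) * d1 + (l2 + c * L2 x a1 a2 l1 l2 l3) * d2
        + (l3 + c * L3 x a1 l2 l3) * d3) - c / 2 * (x' - x) * gg a1 a2 a3 l1 l2 l3|
      ≤ c * (K * t ^ 3 * D) + 63 * K ^ 2 * (c * (D * D + |x' - x| * D)) + 4 * E := by
  set r0 := e0 - d0 - c / 2 * d1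
  set r1 := e1 - d1 - c / 2 * (d2 + x' * (2 * (a1 + d1) ^ 2) - x * (2 * a1 ^ 2))
  set r2 := e2 - d2 - c / 2 * (d3 + x' * (8 * (a1 + d1) * (a2 + d2)) - x * (8 * a1 * a2))
  set r3 := e3 - d3 - c / 2 * (d4 + x' * (12 * (a1 + d1) * (a3 + d3) + 20 * (a2 + d2) ^ 2)
      - x * (12 * a1 * a3 + 20 * a2 ^ 2))
  have key : (e0 + l1 * e1 + l2 * e2 + l3 * e3)
      - (d0 + (l1 + c * L1 x a1 a2 a3 l1 l2 l3) * d1 + (l2 + c * L2 x a1 a2 l1 l2 l3) * d2
        + (l3 + c * L3 x a1 l2 l3) * d3) - c / 2 * (x' - x) * gg a1 a2 a3 l1 l2 l3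
      = c / 2 * (l3 * d4)
        + c / 2 * (x * (l1 * (2 * (d1 * d1)) + l2 * (8 * (d1 * d2))
          + l3 * (12 * (d1 * d3) + 20 * (d2 * d2))))
        + c / 2 * ((x' - x) * (l1 * (4 * (a1 * d1) + 2 * (d1 * d1))
          + l2 * (8 * (a1 * d2) + 8 * (a2 * d1) + 8 * (d1 * d2))
          + l3 * (12 * (a1 * d3) + 12 * (a3 * d1) + 12 * (d1 * d3) + 40 * (a2 * d2)
            + 20 * (d2 * d2))))
        + (r0 + l1 * r1 + l2 * r2 + l3 * r3) := by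
    simp only [r0, r1, r2, r3, L1, L2, L3, gg]; ring
  rw [key]
  have hKD : 0 ≤ K * D := by positivity
  have n2 : |(2 : ℝ)| ≤ 2 := by norm_num
  have n4 : |(4 : ℝ)| ≤ 4 := by norm_num
  have n8 : |(8 : ℝ)| ≤ 8 := by norm_num
  have n12 : |(12 : ℝ)| ≤ 12 := by norm_num
  have n20 : |(20 : ℝ)| ≤ 20 := by norm_num
  have n40 : |(40 : ℝ)| ≤ 40 := by norm_num
  have ht2 : t ^ 2 ≤ 1 := pow_le_one₀ ht0 ht1
  have ht3 : t ^ 3 ≤ 1 := pow_le_one₀ ht0 ht1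
  have m1 : |l1| ≤ 1 := hl1.trans ht1
  have m2 : |l2| ≤ 1 := hl2.trans ht2
  have m3 : |l3| ≤ 1 := hl3.trans ht3
  have hx : |x| ≤ 1 := by rw [abs_of_nonneg hx0]; exact hx1
  have hc2 : |c / 2| ≤ c / 2 := by rw [abs_of_nonneg (by linarith)]
  set Y := |x' - x|
  have hY : |x' - x| ≤ Y := le_rfl
  have hY0 : 0 ≤ Y := abs_nonneg _
  -- quadratic products
  have P11 : |d1 * d1| ≤ K ^ 2 * (D * D) := (am hd1 hd1).trans (le_of_eq (by ring))
  have P12 : |d1 * d2| ≤ K ^ 2 * (D * D) := (am hd1 hd2).trans (le_of_eq (by ring))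
  have P13 : |d1 * d3| ≤ K ^ 2 * (D * D) := (am hd1 hd3).trans (le_of_eq (by ring))
  have P22 : |d2 * d2| ≤ K ^ 2 * (D * D) := (am hd2 hd2).trans (le_of_eq (by ring))
  have hDD : D * D ≤ D := by have := mul_le_mul_of_nonneg_left hD1 hD0; linarith only [this]
  have hK2 : 0 ≤ K ^ 2 := sq_nonneg K
  have q : K ^ 2 * (D * D) ≤ K ^ 2 * D := mul_le_mul_of_nonneg_left hDD hK2
  have Q11 : |d1 * d1| ≤ K ^ 2 * D := P11.trans q
  have Q12 : |d1 * d2| ≤ K ^ 2 * D := P12.trans q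
  have Q13 : |d1 * d3| ≤ K ^ 2 * D := P13.trans q
  have Q22 : |d2 * d2| ≤ K ^ 2 * D := P22.trans q
  have R11 : |a1 * d1| ≤ K ^ 2 * D := (am ha1 hd1).trans (le_of_eq (by ring))
  have R12 : |a1 * d2| ≤ K ^ 2 * D := (am ha1 hd2).trans (le_of_eq (by ring))
  have R21 : |a2 * d1| ≤ K ^ 2 * D := (am ha2 hd1).trans (le_of_eq (by ring))
  have R13 : |a1 * d3| ≤ K ^ 2 * D := (am ha1 hd3).trans (le_of_eq (by ring))
  have R31 : |a3 * d1| ≤ K ^ 2 * D := (am ha3 hd1).trans (le_of_eq (by ring))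
  have R22 : |a2 * d2| ≤ K ^ 2 * D := (am ha2 hd2).trans (le_of_eq (by ring))
  have T1 : |c / 2 * (l3 * d4)| ≤ c / 2 * (t ^ 3 * (K * D)) := am hc2 (am hl3 hd4)
  have T2 : |c / 2 * (x * (l1 * (2 * (d1 * d1)) + l2 * (8 * (d1 * d2))
          + l3 * (12 * (d1 * d3) + 20 * (d2 * d2))))| ≤ c / 2 * (42 * (K ^ 2 * (D * D))) := by
    refine (am hc2 (am hx ((abs_add_le _ _).trans (add_le_add ((abs_add_le _ _).trans
      (add_le_add (am m1 (am n2 P11)) (am m2 (am n8 P12)))) (am m3 ((abs_add_le _ _).trans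
        (add_le_add (am n12 P13) (am n20 P22)))))))).trans (le_of_eq ?_)
    ring
  have T3 : |c / 2 * ((x' - x) * (l1 * (4 * (a1 * d1) + 2 * (d1 * d1))
          + l2 * (8 * (a1 * d2) + 8 * (a2 * d1) + 8 * (d1 * d2))
          + l3 * (12 * (a1 * d3) + 12 * (a3 * d1) + 12 * (d1 * d3) + 40 * (a2 * d2)
            + 20 * (d2 * d2))))| ≤ c / 2 * (Y * (126 * (K ^ 2 * D))) := by
    have u1 : |4 * (a1 * d1) + 2 * (d1 * d1)| ≤ 6 * (K ^ 2 * D) :=
      ((abs_add_le _ _).trans (add_le_add (am n4 R11) (am n2 Q11))).trans (le_of_eq (by ring))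
    have u2 : |8 * (a1 * d2) + 8 * (a2 * d1) + 8 * (d1 * d2)| ≤ 24 * (K ^ 2 * D) :=
      (abs_add_three _ _ _).trans ((add_le_add (add_le_add (am n8 R12) (am n8 R21))
        (am n8 Q12)).trans (le_of_eq (by ring)))
    have u3 : |12 * (a1 * d3) + 12 * (a3 * d1) + 12 * (d1 * d3) + 40 * (a2 * d2)
        + 20 * (d2 * d2)| ≤ 96 * (K ^ 2 * D) :=
      ((abs_add_le _ _).trans (add_le_add ((abs_add_le _ _).trans (add_le_add
        ((abs_add_three _ _ _).trans (add_le_add (add_le_add (am n12 R13) (am n12 R31))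
          (am n12 Q13))) (am n40 R22))) (am n20 Q22))).trans (le_of_eq (by ring))
    refine (am hc2 (am hY ((abs_add_three _ _ _).trans (add_le_add (add_le_add (am m1 u1)
      (am m2 u2)) (am m3 u3))))).trans (le_of_eq ?_)
    ring
  have T4 : |r0 + l1 * r1 + l2 * r2 + l3 * r3| ≤ 4 * E := by
    refine ((abs_add_le _ _).trans (add_le_add ((abs_add_le _ _).trans (add_le_add
      ((abs_add_le _ _).trans (add_le_add h0 (am m1 h1))) (am m2 h2))) (am m3 h3))).trans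
      (le_of_eq (by ring))
  have s := (abs_add_le _ _).trans (add_le_add ((abs_add_le _ _).trans (add_le_add
    ((abs_add_le _ _).trans (add_le_add T1 T2)) T3)) T4)
  refine s.trans ?_
  have w1 : 0 ≤ c * (t ^ 3 * (K * D)) := by positivity
  have w2 : 0 ≤ c * (K ^ 2 * (D * D)) := by positivity
  have w3 : 0 ≤ c * (Y * (K ^ 2 * D)) := by positivity
  linarith only [w1, w2, w3]

end
end Pool.Agent.LibOS45
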