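import Pool.Agent.LibOS45.Var

/-!
# The first variation formula
-/

namespace Pool.Agent.LibOS45

noncomputable section

lemma DD_nonneg {x x' c : ℕ → ℝ} {n : ℕ} (h : ∀ i < n, 0 ≤ c i) (j : ℕ) : 0 ≤ DD x x' c n j :=
  Finset.sum_nonneg fun i hi => mul_nonneg (h i (Finset.mem_Ico.1 hi).2) (abs_nonneg _)

lemma DD_anti {x x' c : ℕ → ℝ} {n : ℕ} (h : ∀ i < n, 0 ≤ c i) (j : ℕ) :
    DD x x' c n j ≤ DD x x' c n 0 := by
  unfold DD
  exact Finset.sum_le_sum_of_subset_of_nonneg (Finset.Ico_subset_Ico (by omega) le_rfl)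
    fun i hi _ => mul_nonneg (h i (Finset.mem_Ico.1 hi).2) (abs_nonneg _)

/-- the first variation formula -/
theorem variation {K ε : ℝ} {n : ℕ} {c x x' : ℕ → ℝ} {a a' : ℕ → ℕ → ℝ} (h : SY K ε n c x a)
    (h' : SY K ε n c x' a')
    (hd : ∀ k ≤ 4, ∀ j ≤ n, |a' k j - a k j| ≤ K * DD x x' c n j) {J : ℕ} (hJ : J ≤ n)
    (hx : ∀ i, J ≤ i → i < n → x' i = x i) :
    |a' 0 0 - a 0 0 - 1 / 2 * ∑ j ∈ Finset.range J, c j * (x' j - x j) * Gx c x a j|
      ≤ 200 * K ^ 2 * (tt c J ^ 4 * DD x x' c n 0 + DD x x' c n 0 ^ 2 + ε) := by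
  have hK := h.hK
  set D := DD x x' c n 0 with hD
  have hD0 : 0 ≤ D := DD_nonneg h.c0 0
  have hDJ : DD x x' c n J = 0 := by
    unfold DD
    refine Finset.sum_eq_zero fun i hi => ?_
    have := Finset.mem_Ico.1 hi
    rw [hx i this.1 this.2]; simp
  have hdx : ∀ i < n, |x' i - x i| ≤ 1 := fun i hi => by
    have h1 := h.x0 i hi; have h2 := h.x1 i hi
    have h3 := h'.x0 i hi; have h4 := h'.x1 i hi
    rw [abs_le]; constructor <;> linarith
  have hD1 : D ≤ 1 := by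
    refine le_trans ?_ (h.tt1 le_rfl)
    rw [hD]
    unfold DD tt
    rw [Finset.range_eq_Ico]
    refine Finset.sum_le_sum fun i hi => ?_
    have hi' := (Finset.mem_Ico.1 hi).2
    have := hdx i hi'
    have := h.c0 i hi'
    exact mul_le_of_le_one_right (h.c0 i hi') (hdx i hi')
  set d : ℕ → ℕ → ℝ := fun k j => a' k j - a k j with hdd
  set Φ : ℕ → ℝ := fun j => d 0 j + (lam c x a j).1 * d 1 j + (lam c x a j).2.1 * d 2 j
    + (lam c x a j).2.2 * d 3 j with hΦ
  have hΦ0 : Φ 0 = a' 0 0 - a 0 0 := by simp [hΦ, hdd, lam]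
  have hΦJ : Φ J = 0 := by
    have hz : ∀ k ≤ 4, d k J = 0 := fun k hk => by
      have := hd k hk J hJ
      rw [hDJ, mul_zero] at this
      exact abs_eq_zero.1 (le_antisymm this (abs_nonneg _))
    simp [hΦ, hz 0 (by norm_num), hz 1 (by norm_num), hz 2 (by norm_num), hz 3 (by norm_num)]
  have htele : ∑ j ∈ Finset.range J, (Φ j - Φ (j + 1)) = a' 0 0 - a 0 0 := by
    rw [Finset.sum_range_sub', hΦ0, hΦJ, sub_zero]
  have hT0 : 0 ≤ tt c J := h.tt0 hJ
  have hT1 : tt c J ≤ 1 := h.tt1 hJ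
  have hstep : ∀ j ∈ Finset.range J,
      |(Φ j - Φ (j + 1)) - 1 / 2 * (c j * (x' j - x j) * Gx c x a j)|
        ≤ c j * (K * tt c J ^ 3 * D) + 63 * K ^ 2 * (c j * (D * D) + c j * |x' j - x j| * D)
          + 8 * K * (c j * ε) := by
    intro j hj
    have hjJ := Finset.mem_range.1 hj
    have hjn : j < n := hjJ.trans_le hJ
    have hj1 : j + 1 ≤ n := hjn
    obtain ⟨i1, i2, i3⟩ := h.lam_bd j hjn.le
    have hc0 := h.c0 j hjn
    have hE := h.csq hjn
    have hKE : K * (c j * √(c j)) ≤ K * (c j * ε) := mul_le_mul_of_nonneg_left hE (by linarith)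
    have hKE0 : 0 ≤ K * (c j * √(c j)) := by positivity
    have g0 : ∀ k, (hk : k ≤ 4) → |d k (j + 1)| ≤ K * DD x x' c n (j + 1) := fun k hk =>
      hd k hk (j + 1) hj1
    have hDj0 := DD_nonneg (x := x) (x' := x') h.c0 (j + 1)
    have hDj := DD_anti (x := x) (x' := x') h.c0 (j + 1)
    have rec2 : ∀ k, (hk : k ≤ 3) → |(d k j - d k (j + 1)) - c j / 2 * (d (k + 1) (j + 1)
        + x' j * QQ k (fun i => a' i (j + 1)) - x j * QQ k (fun i => a i (j + 1)))|
          ≤ 2 * K * (c j * ε) := fun k hk => by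
      have r1 := h.sq.rc k j hk hjn
      have r2 := h'.sq.rc k j hk hjn
      have e : (d k j - d k (j + 1)) - c j / 2 * (d (k + 1) (j + 1)
        + x' j * QQ k (fun i => a' i (j + 1)) - x j * QQ k (fun i => a i (j + 1)))
        = (a' k j - a' k (j + 1) - c j / 2 * (a' (k + 1) (j + 1)
          + x' j * QQ k (fun i => a' i (j + 1))))
          - (a k j - a k (j + 1) - c j / 2 * (a (k + 1) (j + 1)
          + x j * QQ k (fun i => a i (j + 1)))) := by simp only [hdd]; ring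
      rw [e]
      refine (abs_sub _ _).trans ?_
      linarith
    have q0 := rec2 0 (by norm_num)
    have q1 := rec2 1 (by norm_num)
    have q2 := rec2 2 (by norm_num)
    have q3 := rec2 3 (by norm_num)
    simp only [QQ] at q0 q1 q2 q3
    have ea : ∀ k, a' k (j + 1) = a k (j + 1) + d k (j + 1) := fun k => by simp [hdd]
    have v := var_cell (K := K) (c := c j) (x := x j) (x' := x' j) (t := tt c j)
      (D := DD x x' c n (j + 1)) (a1 := a 1 (j + 1)) (a2 := a 2 (j + 1)) (a3 := a 3 (j + 1))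
      (d0 := d 0 (j + 1)) (d1 := d 1 (j + 1)) (d2 := d 2 (j + 1)) (d3 := d 3 (j + 1))
      (d4 := d 4 (j + 1)) (e0 := d 0 j) (e1 := d 1 j) (e2 := d 2 j) (e3 := d 3 j)
      (l1 := (lam c x a j).1) (l2 := (lam c x a j).2.1) (l3 := (lam c x a j).2.2) hK hc0
      (h.x0 j hjn) (h.x1 j hjn) hDj0 (hDj.trans hD1) (h.tt0 hjn.le) (h.tt1 hjn.le)
      (h.bd' (by norm_num) (by norm_num) hj1) (h.bd' (by norm_num) (by norm_num) hj1)
      (h.bd' (by norm_num) (by norm_num) hj1) (g0 1 (by norm_num)) (g0 2 (by norm_num))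
      (g0 3 (by norm_num)) (g0 4 (by norm_num)) i1 i2 i3 (E := 2 * K * (c j * ε))
      (by refine le_trans (le_of_eq ?_) q0; congr 1; ring)
      (by refine le_trans (le_of_eq ?_) q1; rw [ea 1])
      (by refine le_trans (le_of_eq ?_) q2; rw [ea 1, ea 2])
      (by refine le_trans (le_of_eq ?_) q3; rw [ea 1, ea 2, ea 3])
    have e : (Φ j - Φ (j + 1)) - 1 / 2 * (c j * (x' j - x j) * Gx c x a j)
        = (d 0 j + (lam c x a j).1 * d 1 j + (lam c x a j).2.1 * d 2 j
          + (lam c x a j).2.2 * d 3 j)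
      - (d 0 (j + 1) + ((lam c x a j).1 + c j * L1 (x j) (a 1 (j + 1)) (a 2 (j + 1))
          (a 3 (j + 1)) (lam c x a j).1 (lam c x a j).2.1 (lam c x a j).2.2) * d 1 (j + 1)
        + ((lam c x a j).2.1 + c j * L2 (x j) (a 1 (j + 1)) (a 2 (j + 1))
          (lam c x a j).1 (lam c x a j).2.1 (lam c x a j).2.2) * d 2 (j + 1)
        + ((lam c x a j).2.2 + c j * L3 (x j) (a 1 (j + 1)) (lam c x a j).2.1
          (lam c x a j).2.2) * d 3 (j + 1))
        - c j / 2 * (x' j - x j) * gg (a 1 (j + 1)) (a 2 (j + 1)) (a 3 (j + 1))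
          (lam c x a j).1 (lam c x a j).2.1 (lam c x a j).2.2 := by
      simp only [hΦ, lam, Gx]; ring
    rw [e]
    refine v.trans ?_
    have s1 : c j * (K * tt c j ^ 3 * DD x x' c n (j + 1)) ≤ c j * (K * tt c J ^ 3 * D) := by
      refine mul_le_mul_of_nonneg_left ?_ hc0
      have ht : tt c j ≤ tt c J := tt_mono h.c0 hjJ.le hJ
      have ht3 : tt c j ^ 3 ≤ tt c J ^ 3 := pow_le_pow_left₀ (h.tt0 hjn.le) ht 3
      exact mul_le_mul (mul_le_mul_of_nonneg_left ht3 (by linarith)) hDj hDj0 (by positivity)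
    have s2 : c j * (DD x x' c n (j + 1) * DD x x' c n (j + 1) + |x' j - x j|
        * DD x x' c n (j + 1)) ≤ c j * (D * D) + c j * |x' j - x j| * D := by
      have p1 : DD x x' c n (j + 1) * DD x x' c n (j + 1) ≤ D * D :=
        mul_le_mul hDj hDj hDj0 hD0
      have p2 : |x' j - x j| * DD x x' c n (j + 1) ≤ |x' j - x j| * D :=
        mul_le_mul_of_nonneg_left hDj (abs_nonneg _)
      have p3 := mul_le_mul_of_nonneg_left (add_le_add p1 p2) hc0
      refine p3.trans (le_of_eq (by ring))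
    have s3 := mul_le_mul_of_nonneg_left s2 (by positivity : 0 ≤ 63 * K ^ 2)
    linarith
  have hsum : a' 0 0 - a 0 0 - 1 / 2 * ∑ j ∈ Finset.range J, c j * (x' j - x j) * Gx c x a j
      = ∑ j ∈ Finset.range J,
        ((Φ j - Φ (j + 1)) - 1 / 2 * (c j * (x' j - x j) * Gx c x a j)) := by
    rw [Finset.sum_sub_distrib, htele, Finset.mul_sum]
  rw [hsum]
  refine (Finset.abs_sum_le_sum_abs _ _).trans ((Finset.sum_le_sum hstep).trans ?_)
  rw [Finset.sum_add_distrib, Finset.sum_add_distrib, ← Finset.sum_mul, ← Finset.mul_sum,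
    ← Finset.mul_sum, Finset.sum_add_distrib, ← Finset.sum_mul, ← Finset.sum_mul,
    ← Finset.sum_mul]
  have hS : ∑ i ∈ Finset.range J, c i = tt c J := rfl
  have hS2 : ∑ i ∈ Finset.range J, c i * |x' i - x i| ≤ D := by
    rw [hD]; unfold DD
    rw [Finset.range_eq_Ico]
    exact Finset.sum_le_sum_of_subset_of_nonneg (Finset.Ico_subset_Ico le_rfl hJ)
      fun i hi _ => mul_nonneg (h.c0 i (Finset.mem_Ico.1 hi).2) (abs_nonneg _)
  rw [hS]
  have hε : 0 ≤ ε := h.e0
  have t1 : tt c J * (K * tt c J ^ 3 * D) = K * (tt c J ^ 4 * D) := by ring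
  have t2 : tt c J * (D * D) ≤ D ^ 2 := by have := mul_le_mul_of_nonneg_right hT1 (mul_nonneg hD0 hD0); linarith only [this]
  have t3 : (∑ i ∈ Finset.range J, c i * |x' i - x i|) * D ≤ D ^ 2 := by have := mul_le_mul_of_nonneg_right hS2 hD0; linarith only [this]
  have t4 : tt c J * ε ≤ ε := by have := mul_le_mul_of_nonneg_right hT1 hε; linarith only [this]
  have hK2 : K ≤ K ^ 2 := by have := mul_le_mul_of_nonneg_left hK (by linarith only [hK] : 0 ≤ K); linarith only [this]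
  have u1 : 0 ≤ tt c J ^ 4 * D := by positivity
  rw [t1]
  have v1 : K * (tt c J ^ 4 * D) ≤ K ^ 2 * (tt c J ^ 4 * D) := mul_le_mul_of_nonneg_right hK2 u1
  have v2 : 63 * K ^ 2 * (tt c J * (D * D)
      + (∑ i ∈ Finset.range J, c i * |x' i - x i|) * D) ≤ 63 * K ^ 2 * (2 * D ^ 2) :=
    mul_le_mul_of_nonneg_left (by linarith) (by positivity)
  have v3 : 8 * K * (tt c J * ε) ≤ 8 * K ^ 2 * ε := by
    have := mul_le_mul_of_nonneg_left t4 (by linarith : 0 ≤ 8 * K)
    have h9 := mul_le_mul_of_nonneg_right hK2 hε; linarith only [this, h9]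
  have w1 : 0 ≤ K ^ 2 * (tt c J ^ 4 * D) := by positivity
  have w2 : 0 ≤ K ^ 2 * D ^ 2 := by positivity
  have w3 : 0 ≤ K ^ 2 * ε := by positivity
  linarith only [v1, v2, v3, w1, w2, w3]

end
end Pool.Agent.LibOS45
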